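import Mathlib

/-!
The Markov chain of pairs `(x, 3 ^ j * x + e)` under the shortcut Collatz map, with state `(j, e)`
and independent uniform parities. Main facts: `u_tendsto_zero` (absorption at `(0, 0)` with
probability one, through an explicit Lyapunov function) and `sum_w_le` (counting).
-/

namespace Pool.Agent.Helper86.CollatzChain

open Filter Topology

/-! ### The pair chain -/

/-- Transition of the pair chain when the first coordinate is even. -/
def s0 (s : ℕ × ℤ) : ℕ × ℤ :=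
  if s.2 % 2 = 0 then (s.1, s.2 / 2) else (s.1 + 1, (3 * s.2 + 1) / 2)

/-- Transition of the pair chain when the first coordinate is odd. -/
def s1 (s : ℕ × ℤ) : ℕ × ℤ :=
  if s.2 % 2 = 0 then (s.1, (3 * s.2 + 1 - 3 ^ s.1) / 2)
  else if s.1 = 0 then (1, (1 - 3 * s.2) / 2) else (s.1 - 1, (s.2 - 3 ^ (s.1 - 1)) / 2)

/-- The probability of not being absorbed within `k` steps. -/
noncomputable def u : ℕ → ℕ × ℤ → ℝ
  | 0, s => if s = (0, 0) then 0 else 1
  | k + 1, s => if s = (0, 0) then 0 else (u k (s0 s) + u k (s1 s)) / 2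

theorem u_zero_state (k : ℕ) : u k (0, 0) = 0 := by
  cases k <;> simp [u]

theorem u_succ {s : ℕ × ℤ} (hs : s ≠ (0, 0)) (k : ℕ) :
    u (k + 1) s = (u k (s0 s) + u k (s1 s)) / 2 := by
  simp [u, hs]

theorem u_nonneg (k : ℕ) : ∀ s, 0 ≤ u k s := by
  induction k with
  | zero => intro s; simp only [u]; split_ifs <;> norm_num
  | succ k ih =>
    intro s
    simp only [u]
    split_ifs
    · exact le_refl _
    · have := ih (s0 s); have := ih (s1 s); linarith

theorem u_le_one (k : ℕ) : ∀ s, u k s ≤ 1 := by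
  induction k with
  | zero => intro s; simp only [u]; split_ifs <;> norm_num
  | succ k ih =>
    intro s
    simp only [u]
    split_ifs
    · norm_num
    · have := ih (s0 s); have := ih (s1 s); linarith

theorem u_anti_succ (k : ℕ) : ∀ s, u (k + 1) s ≤ u k s := by
  induction k with
  | zero =>
    intro s
    by_cases hs : s = (0, 0)
    · subst hs; rw [u_zero_state, u_zero_state]
    · have h : u 0 s = 1 := by simp [u, hs]
      rw [h]; exact u_le_one _ _
  | succ k ih =>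
    intro s
    by_cases hs : s = (0, 0)
    · subst hs; rw [u_zero_state, u_zero_state]
    · rw [u_succ hs, u_succ hs]
      have := ih (s0 s); have := ih (s1 s); linarith

theorem u_antitone (s : ℕ × ℤ) : Antitone (fun k => u k s) :=
  antitone_nat_of_succ_le fun k => u_anti_succ k s

/-- The probability of never being absorbed. -/
noncomputable def U (s : ℕ × ℤ) : ℝ := ⨅ k, u k s

theorem u_tendsto (s : ℕ × ℤ) : Tendsto (fun k => u k s) atTop (𝓝 (U s)) := by
  apply tendsto_atTop_ciInf (u_antitone s)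
  exact ⟨0, by rintro _ ⟨k, rfl⟩; exact u_nonneg k s⟩

theorem U_zero_state : U (0, 0) = 0 := by
  have h := u_tendsto (0, 0)
  simp only [u_zero_state] at h
  exact (tendsto_nhds_unique h tendsto_const_nhds)

theorem U_harm {s : ℕ × ℤ} (hs : s ≠ (0, 0)) : U s = (U (s0 s) + U (s1 s)) / 2 := by
  have h1 : Tendsto (fun k => u (k + 1) s) atTop (𝓝 (U s)) :=
    (u_tendsto s).comp (tendsto_add_atTop_nat 1)
  have h2 : Tendsto (fun k => (u k (s0 s) + u k (s1 s)) / 2) atTop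
      (𝓝 ((U (s0 s) + U (s1 s)) / 2)) :=
    ((u_tendsto _).add (u_tendsto _)).div_const 2
  have h3 : (fun k => u (k + 1) s) = fun k => (u k (s0 s) + u k (s1 s)) / 2 := by
    funext k; exact u_succ hs k
  rw [h3] at h1
  exact tendsto_nhds_unique h1 h2

theorem U_nonneg (s : ℕ × ℤ) : 0 ≤ U s := ge_of_tendsto' (u_tendsto s) fun k => u_nonneg k s

theorem U_le_one (s : ℕ × ℤ) : U s ≤ 1 := le_of_tendsto' (u_tendsto s) fun k => u_le_one k s

/-! ### Reachability of the absorbing state -/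

/-- The absorbing state can be reached. -/
inductive Hits : ℕ × ℤ → Prop
  | zero : Hits (0, 0)
  | step0 {s : ℕ × ℤ} : Hits (s0 s) → Hits s
  | step1 {s : ℕ × ℤ} : Hits (s1 s) → Hits s

theorem hits_12 : Hits (1, 2) := by
  apply Hits.step0
  have h1 : s0 (1, 2) = (1, 1) := by decide
  rw [h1]
  apply Hits.step1
  have h2 : s1 (1, 1) = (0, 0) := by decide
  rw [h2]
  exact Hits.zero

theorem hits_level0 : ∀ n : ℕ, ∀ e : ℤ, e.natAbs = n → Hits (0, e) := by
  intro n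
  induction n using Nat.strong_induction_on with
  | _ n ih =>
    intro e he
    by_cases h0 : e = 0
    · subst h0; exact Hits.zero
    by_cases hev : e % 2 = 0
    · apply Hits.step0
      have h1 : s0 (0, e) = (0, e / 2) := by simp [s0, hev]
      rw [h1]
      exact ih (e / 2).natAbs (by omega) _ rfl
    by_cases h1 : e = 1
    · subst h1
      apply Hits.step0
      have h2 : s0 (0, 1) = (1, 2) := by decide
      rw [h2]; exact hits_12
    by_cases h2 : e = -1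
    · subst h2
      apply Hits.step1
      have h2 : s1 (0, -1) = (1, 2) := by decide
      rw [h2]; exact hits_12
    by_cases h4 : e % 4 = 3
    · apply Hits.step0
      have h5 : s0 (0, e) = (1, (3 * e + 1) / 2) := by simp [s0, hev]
      rw [h5]
      apply Hits.step1
      have h6 : ¬ ((3 * e + 1) / 2 % 2 = 0) := by omega
      have h7 : s1 (1, (3 * e + 1) / 2) = (0, ((3 * e + 1) / 2 - 1) / 2) := by
        simp only [s1, h6, if_false]
        norm_num
      rw [h7]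
      exact ih _ (by omega) _ rfl
    · apply Hits.step1
      have h5 : s1 (0, e) = (1, (1 - 3 * e) / 2) := by simp [s1, hev]
      rw [h5]
      apply Hits.step1
      have h6 : ¬ ((1 - 3 * e) / 2 % 2 = 0) := by omega
      have h7 : s1 (1, (1 - 3 * e) / 2) = (0, ((1 - 3 * e) / 2 - 1) / 2) := by
        simp only [s1, h6, if_false]
        norm_num
      rw [h7]
      exact ih _ (by omega) _ rfl

theorem hits_nonzero (j : ℕ) (hj : ∀ e : ℤ, Hits (j, e)) :
    ∀ n : ℕ, ∀ e : ℤ, e ≠ 0 → e.natAbs = n → Hits (j + 1, e) := by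
  intro n
  induction n using Nat.strong_induction_on with
  | _ n ih =>
    intro e h0 he
    by_cases hev : e % 2 = 0
    · apply Hits.step0
      have h1 : s0 (j + 1, e) = (j + 1, e / 2) := by simp [s0, hev]
      rw [h1]
      exact ih (e / 2).natAbs (by omega) _ (by omega) rfl
    · apply Hits.step1
      have h1 : s1 (j + 1, e) = (j, (e - 3 ^ j) / 2) := by simp [s1, hev]
      rw [h1]
      exact hj _

theorem hits_all : ∀ j : ℕ, ∀ e : ℤ, Hits (j, e) := by
  intro j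
  induction j with
  | zero => intro e; exact hits_level0 _ e rfl
  | succ j ih =>
    intro e
    by_cases h0 : e = 0
    · subst h0
      apply Hits.step1
      have h1 : s1 (j + 1, 0) = (j + 1, (3 * 0 + 1 - 3 ^ (j + 1)) / 2) := by simp [s1]
      rw [h1]
      have h3 : (3 : ℤ) ^ (j + 1) ≥ 3 := by
        have : (1 : ℤ) ≤ 3 ^ j := one_le_pow₀ (by norm_num)
        rw [pow_succ]; linarith
      exact hits_nonzero j ih _ _ (by omega) rfl
    · exact hits_nonzero j ih _ e h0 rfl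

/-- Propagation of the maximum to all descendants. -/
theorem max_principle (w : ℕ × ℤ → ℝ) (B : Set (ℕ × ℤ)) (h00 : ((0 : ℕ), (0 : ℤ)) ∈ B) (W : ℝ)
    (hW : ∀ s, w s ≤ W) (hB : ∀ s ∈ B, w s < W)
    (hsub : ∀ s, s ∉ B → w s ≤ (w (s0 s) + w (s1 s)) / 2) (s : ℕ × ℤ) :
    w s < W := by
  have hh : Hits s := hits_all s.1 s.2
  induction hh with
  | zero => exact hB _ h00
  | @step0 s _ ih =>
    by_cases hs : s ∈ B
    · exact hB _ hs
    · have h1 := hsub s hs
      have h2 := hW (s1 s)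
      linarith
  | @step1 s _ ih =>
    by_cases hs : s ∈ B
    · exact hB _ hs
    · have h1 := hsub s hs
      have h2 := hW (s0 s)
      linarith

/-- A Lyapunov function forces absorption. -/
theorem U_eq_zero_of_lyapunov (V : ℕ × ℤ → ℝ) (F : Set (ℕ × ℤ)) (hF : F.Finite)
    (hV0 : ∀ s, 0 ≤ V s) (hVfin : ∀ M : ℝ, {s | V s ≤ M}.Finite)
    (hV : ∀ s, s ∉ F → s ≠ (0, 0) → (V (s0 s) + V (s1 s)) / 2 ≤ V s) :
    ∀ s, U s = 0 := by
  classical
  -- the exceptional set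
  set B : Set (ℕ × ℤ) := insert (0, 0) F with hBdef
  have hBfin : B.Finite := hF.insert _
  have h00 : ((0 : ℕ), (0 : ℤ)) ∈ B := Set.mem_insert _ _
  -- maximum of `U` over `B`
  obtain ⟨b, hbB, hbmax'⟩ := Set.exists_max_image B U hBfin ⟨_, h00⟩
  set m := U b with hm
  have hm0 : 0 ≤ m := U_nonneg b
  -- claim 1
  have claim1 : ∀ s, U s ≤ m := by
    intro s
    by_contra hlt
    push Not at hlt
    -- choose eps
    obtain ⟨ε, hε, hεs⟩ : ∃ ε : ℝ, 0 < ε ∧ ε * V s < U s - m := by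
      have h1 := hV0 s
      have h2 : 0 < U s - m := by linarith
      refine ⟨(U s - m) / (2 * (V s + 1)), by positivity, ?_⟩
      rw [div_mul_eq_mul_div, div_lt_iff₀ (by positivity)]
      nlinarith
    set w : ℕ × ℤ → ℝ := fun t => U t - ε * V t with hw
    set A : Set (ℕ × ℤ) := {t | m < w t} with hA
    have hAfin : A.Finite := by
      apply (hVfin (1 / ε)).subset
      intro t ht
      have h1 : m < U t - ε * V t := ht
      have h2 := U_le_one t
      have h3 : ε * V t ≤ 1 := by linarith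
      show V t ≤ 1 / ε
      rw [le_div_iff₀ hε]
      linarith
    have hsA : s ∈ A := by
      show m < U s - ε * V s
      linarith
    obtain ⟨t, htA, htmax⟩ := Set.exists_max_image A w hAfin ⟨_, hsA⟩
    have htA' : m < w t := htA
    have hcontra := max_principle w B h00 (w t) ?_ ?_ ?_ t
    · exact lt_irrefl _ hcontra
    · intro r
      by_cases hr : r ∈ A
      · exact htmax r hr
      · have : w r ≤ m := not_lt.1 hr
        linarith
    · intro r hr
      have h1 := hbmax' r hr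
      have h2 : 0 ≤ ε * V r := mul_nonneg hε.le (hV0 r)
      have h3 : w r = U r - ε * V r := rfl
      linarith
    · intro r hr
      have hr1 : r ∉ F := fun h => hr (Set.mem_insert_of_mem _ h)
      have hr2 : r ≠ (0, 0) := fun h => hr (by rw [h]; exact h00)
      have h1 := hV r hr1 hr2
      have h2 := U_harm hr2
      have h3 : ε * ((V (s0 r) + V (s1 r)) / 2) ≤ ε * V r := mul_le_mul_of_nonneg_left h1 hε.le
      simp only [hw]
      linarith
  -- claim 2
  have claim2 : m = 0 := by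
    by_contra hne
    have hpos : 0 < m := lt_of_le_of_ne hm0 (Ne.symm hne)
    have hcontra := max_principle U {(0, 0)} rfl m claim1 ?_ ?_ b
    · exact lt_irrefl _ hcontra
    · intro r hr
      rw [Set.mem_singleton_iff] at hr
      rw [hr, U_zero_state]
      exact hpos
    · intro r hr
      exact (U_harm hr).le
  intro s
  have h1 := claim1 s
  have h2 := U_nonneg s
  linarith

/-! ### The Lyapunov function -/

/-- The expected number of steps of agreement of parities. -/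
noncomputable def tau (v : ℕ) (e : ℤ) : ℝ :=
  (∑ i ∈ Finset.range v, if (2 : ℤ) ^ (i + 1) ∣ e then (1 : ℝ) else 0) +
    if (2 : ℤ) ^ v ∣ e then (1 : ℝ) else 0

theorem tau_nonneg (v : ℕ) (e : ℤ) : 0 ≤ tau v e := by
  unfold tau
  apply add_nonneg
  · apply Finset.sum_nonneg
    intro i _
    split_ifs <;> norm_num
  · split_ifs <;> norm_num

theorem tau_le (v : ℕ) (e : ℤ) : tau v e ≤ v + 1 := by
  unfold tau
  apply add_le_add
  · calc (∑ i ∈ Finset.range v, if (2 : ℤ) ^ (i + 1) ∣ e then (1 : ℝ) else 0)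
        ≤ ∑ i ∈ Finset.range v, (1 : ℝ) := by
          apply Finset.sum_le_sum
          intro i _
          split_ifs <;> norm_num
      _ = v := by simp
  · split_ifs <;> norm_num

theorem tau_odd (v : ℕ) {e : ℤ} (he : ¬ (2 : ℤ) ∣ e) : tau (v + 1) e = 0 := by
  have h : ∀ i : ℕ, ¬ (2 : ℤ) ^ (i + 1) ∣ e := by
    intro i hi
    exact he (dvd_trans (dvd_pow_self 2 (Nat.succ_ne_zero i)) hi)
  unfold tau
  simp [h]

theorem two_pow_dvd_iff (i v : ℕ) (hi : i ≤ v) (f w : ℤ) :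
    (2 : ℤ) ^ i ∣ 3 * f - 2 ^ v * w ↔ (2 : ℤ) ^ i ∣ f := by
  have h1 : (2 : ℤ) ^ i ∣ 2 ^ v * w := Dvd.dvd.mul_right (pow_dvd_pow 2 hi) w
  have hcop : IsCoprime ((2 : ℤ) ^ i) 3 := by
    apply IsCoprime.pow_left
    exact ⟨-1, 1, by norm_num⟩
  constructor
  · intro h
    have h2 : (2 : ℤ) ^ i ∣ 3 * f := by
      have := dvd_add h h1
      simpa using this
    exact hcop.dvd_of_dvd_mul_left h2
  · intro h
    exact dvd_sub (Dvd.dvd.mul_left h 3) h1

theorem tau_step (v : ℕ) (f w : ℤ) (hw : ¬ (2 : ℤ) ∣ w) :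
    tau (v + 1) f + tau (v + 1) (3 * f - 2 ^ v * w) ≤ 2 * tau (v + 1) (2 * f) - 2 := by
  set A : ℝ := ∑ i ∈ Finset.range v, if (2 : ℤ) ^ (i + 1) ∣ f then (1 : ℝ) else 0 with hA
  have h1 : tau (v + 1) f = A + 2 * (if (2 : ℤ) ^ (v + 1) ∣ f then (1 : ℝ) else 0) := by
    unfold tau
    rw [Finset.sum_range_succ]
    ring
  have h2 : tau (v + 1) (3 * f - 2 ^ v * w) =
      A + 2 * (if (2 : ℤ) ^ (v + 1) ∣ (3 * f - 2 ^ v * w) then (1 : ℝ) else 0) := by
    unfold tau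
    rw [Finset.sum_range_succ]
    have h3 : (∑ i ∈ Finset.range v,
        if (2 : ℤ) ^ (i + 1) ∣ (3 * f - 2 ^ v * w) then (1 : ℝ) else 0) = A := by
      apply Finset.sum_congr rfl
      intro i hi
      have hi' : i + 1 ≤ v := Finset.mem_range.1 hi
      simp only [two_pow_dvd_iff (i + 1) v hi' f w]
    rw [h3]
    ring
  have h3 : tau (v + 1) (2 * f) = A + 1 + (if (2 : ℤ) ^ v ∣ f then (1 : ℝ) else 0) := by
    unfold tau
    have h4 : ∀ i : ℕ, ((2 : ℤ) ^ (i + 1) ∣ 2 * f ↔ (2 : ℤ) ^ i ∣ f) := by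
      intro i
      rw [pow_succ, mul_comm ((2 : ℤ) ^ i) 2]
      exact mul_dvd_mul_iff_left (by norm_num)
    simp only [h4]
    rw [Finset.sum_range_succ', pow_zero, if_pos (one_dvd f)]
  rw [h1, h2, h3]
  by_cases hf : (2 : ℤ) ^ v ∣ f
  · obtain ⟨g, rfl⟩ := hf
    have h5 : ¬ ((2 : ℤ) ^ (v + 1) ∣ 2 ^ v * g ∧ (2 : ℤ) ^ (v + 1) ∣ (3 * (2 ^ v * g) - 2 ^ v * w)) := by
      rintro ⟨ha, hb⟩
      rw [pow_succ] at ha hb
      have h6 : (2 : ℤ) ∣ g := (mul_dvd_mul_iff_left (by positivity)).1 ha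
      have h7 : 3 * (2 ^ v * g) - 2 ^ v * w = 2 ^ v * (3 * g - w) := by ring
      rw [h7] at hb
      have h8 : (2 : ℤ) ∣ 3 * g - w := (mul_dvd_mul_iff_left (by positivity)).1 hb
      apply hw
      omega
    have h9 : (2 : ℤ) ^ v ∣ 2 ^ v * g := dvd_mul_right _ _
    rw [if_pos h9]
    by_cases ha : (2 : ℤ) ^ (v + 1) ∣ 2 ^ v * g
    · have hb : ¬ (2 : ℤ) ^ (v + 1) ∣ (3 * (2 ^ v * g) - 2 ^ v * w) := fun h => h5 ⟨ha, h⟩
      rw [if_pos ha, if_neg hb]; linarith
    · rw [if_neg ha]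
      split_ifs <;> linarith
  · have ha : ¬ (2 : ℤ) ^ (v + 1) ∣ f := fun h => hf (dvd_trans (pow_dvd_pow 2 (Nat.le_succ v)) h)
    have hb : ¬ (2 : ℤ) ^ (v + 1) ∣ (3 * f - 2 ^ v * w) := by
      intro h
      have h6 : (2 : ℤ) ^ v ∣ (3 * f - 2 ^ v * w) := dvd_trans (pow_dvd_pow 2 (Nat.le_succ v)) h
      exact hf ((two_pow_dvd_iff v v le_rfl f w).1 h6)
    rw [if_neg ha, if_neg hb, if_neg hf]
    linarith

/-- The exponent of two in `3 ^ j - 1`. -/
noncomputable def vv (j : ℕ) : ℕ := padicValNat 2 (3 ^ j - 1)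

theorem vv_spec (j : ℕ) : ∃ v : ℕ, ∃ w : ℤ, vv (j + 1) = v + 1 ∧ ¬ (2 : ℤ) ∣ w ∧
    (3 : ℤ) ^ (j + 1) - 1 = 2 ^ (v + 1) * w := by
  have h1' : 1 ≤ 3 ^ j := Nat.one_le_pow _ _ (by norm_num)
  have h3' : 3 ^ (j + 1) ≥ 3 := by rw [pow_succ]; omega
  have h3 : 3 ^ (j + 1) - 1 ≠ 0 := by omega
  have hdvd : 2 ∣ 3 ^ (j + 1) - 1 := by
    have h1 : 3 ^ (j + 1) % 2 = 1 := by
      rw [Nat.pow_mod]; simp
    omega
  have hv : vv (j + 1) ≠ 0 := by
    unfold vv
    have := one_le_padicValNat_of_dvd h3 hdvd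
    omega
  obtain ⟨v, hv'⟩ := Nat.exists_eq_succ_of_ne_zero hv
  obtain ⟨e, m, hm, hem⟩ := Nat.exists_eq_pow_mul_and_not_dvd h3 2 (by norm_num)
  have hm0 : m ≠ 0 := by rintro rfl; exact hm (dvd_zero 2)
  have hval : vv (j + 1) = e := by
    unfold vv
    rw [hem, padicValNat.mul (by positivity) hm0, padicValNat.prime_pow,
      padicValNat.eq_zero_of_not_dvd hm, add_zero]
  refine ⟨v, (m : ℤ), hv', ?_, ?_⟩
  · intro h; apply hm; exact_mod_cast h
  · have h5 : v + 1 = e := by rw [← hval, hv']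
    rw [h5]
    have h6 : ((3 ^ (j + 1) - 1 : ℕ) : ℤ) = ((2 ^ e * m : ℕ) : ℤ) := by rw [hem]
    rw [Nat.cast_sub (by omega)] at h6
    push_cast at h6
    linarith

theorem vv_le (j : ℕ) : (vv j : ℝ) ≤ 2 * j := by
  rcases Nat.eq_zero_or_pos j with rfl | hj
  · simp [vv]
  · have h3 : 3 ^ j - 1 ≠ 0 := by
      have : 3 ^ j ≥ 3 := by
        calc 3 = 3 ^ 1 := rfl
          _ ≤ 3 ^ j := Nat.pow_le_pow_right (by norm_num) hj
      omega
    have h1 : 2 ^ vv j ≤ 3 ^ j - 1 := Nat.le_of_dvd (Nat.pos_of_ne_zero h3) pow_padicValNat_dvd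
    have h2 : 2 ^ vv j < 2 ^ (2 * j) := by
      calc 2 ^ vv j ≤ 3 ^ j - 1 := h1
        _ < 3 ^ j := by omega
        _ ≤ 4 ^ j := Nat.pow_le_pow_left (by norm_num) j
        _ = 2 ^ (2 * j) := by rw [pow_mul]; norm_num
    have h4 : vv j < 2 * j := (Nat.pow_lt_pow_iff_right (by norm_num)).1 h2
    have h5 : vv j ≤ 2 * j := h4.le
    exact_mod_cast h5

/-- The size part. -/
noncomputable def g (j : ℕ) (e : ℤ) : ℝ := Real.sqrt (|(e : ℝ)| / 3 ^ j)

theorem g_nonneg (j : ℕ) (e : ℤ) : 0 ≤ g j e := Real.sqrt_nonneg _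

theorem sqrt_bound1 {x : ℝ} (hx : 0 ≤ x) : Real.sqrt (x / 2) ≤ 0.7072 * Real.sqrt x := by
  have h1 : (0.7072 : ℝ) * Real.sqrt x = Real.sqrt (0.7072 ^ 2 * x) := by
    rw [Real.sqrt_mul (by norm_num), Real.sqrt_sq (by norm_num)]
  rw [h1]
  apply Real.sqrt_le_sqrt
  nlinarith

theorem sqrt_bound2 {x : ℝ} (hx : 0 ≤ x) : Real.sqrt (3 * x / 2) ≤ 1.2248 * Real.sqrt x := by
  have h1 : (1.2248 : ℝ) * Real.sqrt x = Real.sqrt (1.2248 ^ 2 * x) := by
    rw [Real.sqrt_mul (by norm_num), Real.sqrt_sq (by norm_num)]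
  rw [h1]
  apply Real.sqrt_le_sqrt
  nlinarith

theorem sqrt_half_le : Real.sqrt (1 / 2) ≤ 0.7072 := by
  rw [Real.sqrt_le_left (by norm_num)]; norm_num

theorem sqrt_add_le' {x y : ℝ} (hx : 0 ≤ x) (hy : 0 ≤ y) :
    Real.sqrt (x + y) ≤ Real.sqrt x + Real.sqrt y := by
  rw [Real.sqrt_le_left (by positivity)]
  nlinarith [Real.sq_sqrt hx, Real.sq_sqrt hy, Real.sqrt_nonneg x, Real.sqrt_nonneg y,
    mul_nonneg (Real.sqrt_nonneg x) (Real.sqrt_nonneg y)]

/-- Bound after the halving branch. -/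
theorem bound_half {x y c : ℝ} (hx : 0 ≤ x) (hc : 0 ≤ c) (hc1 : c ≤ 1 / 2) (h : y ≤ x / 2 + c) :
    Real.sqrt y ≤ 0.7072 * Real.sqrt x + 0.7072 := by
  calc Real.sqrt y ≤ Real.sqrt (x / 2 + c) := Real.sqrt_le_sqrt h
    _ ≤ Real.sqrt (x / 2) + Real.sqrt c := sqrt_add_le' (by positivity) hc
    _ ≤ 0.7072 * Real.sqrt x + 0.7072 :=
      add_le_add (sqrt_bound1 hx) ((Real.sqrt_le_sqrt hc1).trans sqrt_half_le)

/-- Bound after the three-halves branch. -/
theorem bound_three {x y c : ℝ} (hx : 0 ≤ x) (hc : 0 ≤ c) (hc1 : c ≤ 1 / 2)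
    (h : y ≤ 3 * x / 2 + c) :
    Real.sqrt y ≤ 1.2248 * Real.sqrt x + 0.7072 := by
  calc Real.sqrt y ≤ Real.sqrt (3 * x / 2 + c) := Real.sqrt_le_sqrt h
    _ ≤ Real.sqrt (3 * x / 2) + Real.sqrt c := sqrt_add_le' (by positivity) hc
    _ ≤ 1.2248 * Real.sqrt x + 0.7072 :=
      add_le_add (sqrt_bound2 hx) ((Real.sqrt_le_sqrt hc1).trans sqrt_half_le)

/-- even/even: `e = 2 f`. -/
theorem g_even0 (j : ℕ) (f : ℤ) : g j f ≤ 0.7072 * g j (2 * f) := by
  unfold g
  have h1 : |(f : ℝ)| / 3 ^ j = (|((2 * f : ℤ) : ℝ)| / 3 ^ j) / 2 := by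
    push_cast
    rw [abs_mul, abs_two]
    ring
  rw [h1]
  exact sqrt_bound1 (by positivity)

theorem g_even1 (j : ℕ) (f w : ℤ) (hw : 2 * w = 3 ^ j - 1) :
    g j (3 * f - w) ≤ 1.2248 * g j (2 * f) + 0.7072 := by
  unfold g
  apply bound_three (c := 1 / 2) (by positivity) (by norm_num) le_rfl
  have hw' : 2 * (w : ℝ) = 3 ^ j - 1 := by exact_mod_cast hw
  have h3 : (1 : ℝ) ≤ 3 ^ j := one_le_pow₀ (by norm_num)
  rw [div_le_iff₀ (by positivity)]
  have h1 : (3 * (|((2 * f : ℤ) : ℝ)| / 3 ^ j) / 2 + 1 / 2) * 3 ^ j = 3 * |(f : ℝ)| + 3 ^ j / 2 := by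
    push_cast
    rw [abs_mul, abs_two]
    field_simp
  rw [h1]
  push_cast
  rw [abs_le]
  constructor
  · have := neg_abs_le (f : ℝ)
    linarith
  · have := le_abs_self (f : ℝ)
    linarith

theorem g_odd0 (j : ℕ) (e : ℤ) (e' : ℤ) (he : 2 * e' = 3 * e + 1) :
    g (j + 1) e' ≤ 0.7072 * g j e + 0.7072 := by
  unfold g
  apply bound_half (c := 1 / 2) (by positivity) (by norm_num) le_rfl
  have he' : 2 * (e' : ℝ) = 3 * e + 1 := by exact_mod_cast he
  have h3 : (1 : ℝ) ≤ 3 ^ j := one_le_pow₀ (by norm_num)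
  rw [div_le_iff₀ (by positivity)]
  have h1 : ((|(e : ℝ)| / 3 ^ j) / 2 + 1 / 2) * 3 ^ (j + 1) = 3 * |(e : ℝ)| / 2 + 3 * 3 ^ j / 2 := by
    rw [pow_succ]
    field_simp
  rw [h1, abs_le]
  constructor
  · have := neg_abs_le (e : ℝ)
    linarith
  · have := le_abs_self (e : ℝ)
    linarith

theorem g_odd1 (j : ℕ) (e : ℤ) (e' : ℤ) (he : 2 * e' = e - 3 ^ j) :
    g j e' ≤ 1.2248 * g (j + 1) e + 0.7072 := by
  unfold g
  apply bound_three (c := 1 / 2) (by positivity) (by norm_num) le_rfl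
  have he' : 2 * (e' : ℝ) = e - 3 ^ j := by exact_mod_cast he
  have h3 : (1 : ℝ) ≤ 3 ^ j := one_le_pow₀ (by norm_num)
  rw [div_le_iff₀ (by positivity)]
  have h1 : (3 * (|(e : ℝ)| / 3 ^ (j + 1)) / 2 + 1 / 2) * 3 ^ j = |(e : ℝ)| / 2 + 3 ^ j / 2 := by
    rw [pow_succ]
    field_simp
  rw [h1, abs_le]
  constructor
  · have := neg_abs_le (e : ℝ)
    linarith
  · have := le_abs_self (e : ℝ)
    linarith

/-- The potential of the second kind. -/
noncomputable def H (s : ℕ × ℤ) : ℝ :=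
  (19 / 20) ^ s.1 * (g s.1 s.2 + if s.1 = 0 then 0 else tau (vv s.1) s.2)

theorem H_nonneg (s : ℕ × ℤ) : 0 ≤ H s := by
  unfold H
  apply mul_nonneg (by positivity)
  apply add_nonneg (g_nonneg _ _)
  split_ifs
  · exact le_rfl
  · exact tau_nonneg _ _

/-- The Lyapunov function. -/
noncomputable def V (ε : ℝ) (s : ℕ × ℤ) : ℝ :=
  ((s.1 : ℝ) + 1 - (39 / 40) ^ s.1) + ε * H s

theorem V_nonneg {ε : ℝ} (hε : 0 ≤ ε) (s : ℕ × ℤ) : 0 ≤ V ε s := by
  unfold V
  have h1 : ((39 : ℝ) / 40) ^ s.1 ≤ 1 := pow_le_one₀ (by norm_num) (by norm_num)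
  have h2 : (0 : ℝ) ≤ s.1 := Nat.cast_nonneg _
  have h3 := mul_nonneg hε (H_nonneg s)
  linarith

theorem V_level_finite {ε : ℝ} (hε : 0 < ε) (M : ℝ) : {s | V ε s ≤ M}.Finite := by
  obtain ⟨J, hJ⟩ := exists_nat_gt M
  obtain ⟨E, hE⟩ := exists_nat_gt ((M / (ε * (19 / 20) ^ J)) ^ 2 * 3 ^ J)
  apply ((Set.finite_Iic J).prod (Set.finite_Icc (-(E : ℤ)) E)).subset
  rintro ⟨j, e⟩ hs
  have hs' : V ε (j, e) ≤ M := hs
  have h1 : ((39 : ℝ) / 40) ^ j ≤ 1 := pow_le_one₀ (by norm_num) (by norm_num)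
  have h2 : (0 : ℝ) ≤ j := Nat.cast_nonneg _
  have h3 := mul_nonneg hε.le (H_nonneg (j, e))
  have h4 : V ε (j, e) = ((j : ℝ) + 1 - (39 / 40) ^ j) + ε * H (j, e) := rfl
  have hjM : (j : ℝ) ≤ M := by linarith
  have hjJ : j ≤ J := by
    have : (j : ℝ) < J := lt_of_le_of_lt hjM hJ
    exact_mod_cast this.le
  have h5 : ε * H (j, e) ≤ M := by linarith
  have h6 : (19 / 20) ^ J * g j e ≤ H (j, e) := by
    unfold H
    apply mul_le_mul _ _ (g_nonneg _ _) (by positivity)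
    · exact pow_le_pow_of_le_one (by norm_num) (by norm_num) hjJ
    · have : 0 ≤ (if j = 0 then (0 : ℝ) else tau (vv j) e) := by
        split_ifs
        · exact le_rfl
        · exact tau_nonneg _ _
      show g j e ≤ g j e + (if j = 0 then (0 : ℝ) else tau (vv j) e)
      linarith
  have h7 : g j e ≤ M / (ε * (19 / 20) ^ J) := by
    rw [le_div_iff₀ (by positivity)]
    calc g j e * (ε * (19 / 20) ^ J) = ε * ((19 / 20) ^ J * g j e) := by ring
      _ ≤ ε * H (j, e) := mul_le_mul_of_nonneg_left h6 hε.le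
      _ ≤ M := h5
  have h8 : |(e : ℝ)| / 3 ^ j ≤ (M / (ε * (19 / 20) ^ J)) ^ 2 := by
    have h9 : Real.sqrt (|(e : ℝ)| / 3 ^ j) ≤ M / (ε * (19 / 20) ^ J) := h7
    have h10 : |(e : ℝ)| / 3 ^ j = Real.sqrt (|(e : ℝ)| / 3 ^ j) ^ 2 := by
      rw [Real.sq_sqrt (by positivity)]
    rw [h10]
    exact pow_le_pow_left₀ (Real.sqrt_nonneg _) h9 2
  have h11 : |(e : ℝ)| ≤ (M / (ε * (19 / 20) ^ J)) ^ 2 * 3 ^ J := by
    rw [div_le_iff₀ (by positivity)] at h8
    apply h8.trans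
    apply mul_le_mul_of_nonneg_left _ (by positivity)
    exact pow_le_pow_right₀ (by norm_num) hjJ
  have h12 : |(e : ℝ)| < E := lt_of_le_of_lt h11 hE
  have h13 : |e| < (E : ℤ) := by exact_mod_cast h12
  rw [abs_lt] at h13
  refine ⟨hjJ, ?_⟩
  exact ⟨h13.1.le, h13.2.le⟩


/-! ### Drift -/

theorem s0_even (j : ℕ) (f : ℤ) : s0 (j, 2 * f) = (j, f) := by
  have h : (2 * f) % 2 = 0 := by omega
  simp only [s0, h, if_true]
  congr 1
  omega

theorem s0_odd (j : ℕ) {e : ℤ} (he : e % 2 = 1) : s0 (j, e) = (j + 1, (3 * e + 1) / 2) := by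
  have h : ¬ (e % 2 = 0) := by omega
  simp only [s0, h, if_false]

theorem s1_even (j : ℕ) (f w : ℤ) (hw : 2 * w = 3 ^ j - 1) : s1 (j, 2 * f) = (j, 3 * f - w) := by
  have h : (2 * f) % 2 = 0 := by omega
  simp only [s1, h, if_true]
  congr 1
  omega

theorem s1_odd_zero {e : ℤ} (he : e % 2 = 1) : s1 (0, e) = (1, (1 - 3 * e) / 2) := by
  have h : ¬ (e % 2 = 0) := by omega
  simp only [s1, h, if_false, if_true]

theorem s1_odd_succ (j : ℕ) {e : ℤ} (he : e % 2 = 1) :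
    s1 (j + 1, e) = (j, (e - 3 ^ j) / 2) := by
  have h : ¬ (e % 2 = 0) := by omega
  simp [s1, h]

theorem three_pow_odd (j : ℕ) : ∃ w : ℤ, 2 * w = (3 : ℤ) ^ j - 1 := by
  induction j with
  | zero => exact ⟨0, by norm_num⟩
  | succ j ih =>
    obtain ⟨w, hw⟩ := ih
    exact ⟨3 * w + 1, by rw [pow_succ]; linarith⟩

theorem H_zero (e : ℤ) : H (0, e) = g 0 e := by
  unfold H; simp

theorem H_succ (j : ℕ) (e : ℤ) :
    H (j + 1, e) = (19 / 20) ^ (j + 1) * (g (j + 1) e + tau (vv (j + 1)) e) := by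
  unfold H; simp

theorem H_le (j : ℕ) (e : ℤ) : H (j, e) ≤ (19 / 20) ^ j * (g j e + (2 * j + 1)) := by
  unfold H
  apply mul_le_mul_of_nonneg_left _ (by positivity)
  apply add_le_add le_rfl
  show (if j = 0 then (0 : ℝ) else tau (vv j) e) ≤ 2 * j + 1
  split_ifs
  · positivity
  · have h1 := tau_le (vv j) e
    have h2 := vv_le j
    linarith

theorem g_neg (j : ℕ) (e : ℤ) : g j (-e) = g j e := by
  unfold g; push_cast; rw [abs_neg]

/-- The value of the small constant. -/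
noncomputable def eps : ℝ := 1 / 243200

theorem drift_even_succ (j : ℕ) (f : ℤ) :
    (V eps (s0 (j + 1, 2 * f)) + V eps (s1 (j + 1, 2 * f))) / 2 ≤ V eps (j + 1, 2 * f) := by
  obtain ⟨v, w, hv, hw, hvw⟩ := vv_spec j
  have hw2 : 2 * ((2 : ℤ) ^ v * w) = 3 ^ (j + 1) - 1 := by rw [hvw, pow_succ]; ring
  rw [s0_even, s1_even (j + 1) f (2 ^ v * w) hw2]
  have hH : H (j + 1, f) + H (j + 1, 3 * f - 2 ^ v * w) ≤ 2 * H (j + 1, 2 * f) := by
    rw [H_succ, H_succ, H_succ, hv]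
    have h1 := g_even0 (j + 1) f
    have h2 := g_even1 (j + 1) f (2 ^ v * w) hw2
    have h3 := tau_step v f w hw
    have h4 := g_nonneg (j + 1) (2 * f)
    have h5 : (0 : ℝ) < (19 / 20) ^ (j + 1) := by positivity
    have h6 : (g (j + 1) f + tau (v + 1) f) + (g (j + 1) (3 * f - 2 ^ v * w) +
        tau (v + 1) (3 * f - 2 ^ v * w)) ≤ 2 * (g (j + 1) (2 * f) + tau (v + 1) (2 * f)) := by
      linarith
    nlinarith
  have heps : 0 < eps := by unfold eps; norm_num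
  have h7 := mul_le_mul_of_nonneg_left hH heps.le
  unfold V
  show (((j + 1 : ℕ) : ℝ) + 1 - (39 / 40) ^ (j + 1) + eps * H (j + 1, f) +
    (((j + 1 : ℕ) : ℝ) + 1 - (39 / 40) ^ (j + 1) + eps * H (j + 1, 3 * f - 2 ^ v * w))) / 2 ≤
    ((j + 1 : ℕ) : ℝ) + 1 - (39 / 40) ^ (j + 1) + eps * H (j + 1, 2 * f)
  linarith

theorem drift_even_zero (f : ℤ) :
    (V eps (s0 (0, 2 * f)) + V eps (s1 (0, 2 * f))) / 2 ≤ V eps (0, 2 * f) := by
  rw [s0_even, s1_even 0 f 0 (by norm_num), sub_zero]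
  have h1 := g_even0 0 f
  have h2 : g 0 (3 * f) ≤ 1.2248 * g 0 (2 * f) := by
    unfold g
    have h3 : |((3 * f : ℤ) : ℝ)| / 3 ^ 0 = 3 * (|((2 * f : ℤ) : ℝ)| / 3 ^ 0) / 2 := by
      push_cast
      rw [abs_mul, abs_mul, abs_two, abs_of_pos (by norm_num : (0 : ℝ) < 3)]
      ring
    rw [h3]
    exact sqrt_bound2 (by positivity)
  have h4 := g_nonneg 0 (2 * f)
  have heps : 0 < eps := by unfold eps; norm_num
  unfold V
  rw [H_zero, H_zero, H_zero]
  have h5 : g 0 f + g 0 (3 * f) ≤ 2 * g 0 (2 * f) := by linarith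
  have h6 := mul_le_mul_of_nonneg_left h5 heps.le
  simp only
  linarith

theorem drift_odd_succ (j : ℕ) {e : ℤ} (he : e % 2 = 1) :
    (V eps (s0 (j + 1, e)) + V eps (s1 (j + 1, e))) / 2 ≤ V eps (j + 1, e) := by
  rw [s0_odd _ he, s1_odd_succ j he]
  obtain ⟨w, hw⟩ := three_pow_odd j
  have h1 := g_odd0 (j + 1) e ((3 * e + 1) / 2) (by omega)
  have h2 := g_odd1 j e ((e - 3 ^ j) / 2) (by omega)
  have h3 := H_le (j + 1 + 1) ((3 * e + 1) / 2)
  have h4 := H_le j ((e - 3 ^ j) / 2)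
  have h5 : (19 / 20) ^ (j + 1) * g (j + 1) e ≤ H (j + 1, e) := by
    rw [H_succ]
    apply mul_le_mul_of_nonneg_left _ (by positivity)
    have := tau_nonneg (vv (j + 1)) e
    linarith
  set G := g (j + 1) e with hG
  have hG0 : 0 ≤ G := g_nonneg _ _
  set L : ℝ := (19 / 20) ^ j with hL
  have hL0 : 0 < L := by positivity
  set R : ℝ := (39 / 40) ^ j with hR
  have hR0 : 0 < R := by positivity
  have e1 : ((19 : ℝ) / 20) ^ (j + 1 + 1) = L * (361 / 400) := by rw [pow_succ, pow_succ]; ring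
  have e2 : ((19 : ℝ) / 20) ^ (j + 1) = L * (19 / 20) := by rw [pow_succ]
  have e3 : ((39 : ℝ) / 40) ^ (j + 1 + 1) = R * (1521 / 1600) := by rw [pow_succ, pow_succ]; ring
  have e4 : ((39 : ℝ) / 40) ^ (j + 1) = R * (39 / 40) := by rw [pow_succ]
  rw [e1] at h3
  rw [e2] at h5
  -- upper bound for the sum
  have hj0 : (0 : ℝ) ≤ j := Nat.cast_nonneg _
  have h6 : H (j + 1 + 1, (3 * e + 1) / 2) + H (j, (e - 3 ^ j) / 2) ≤
      2 * H (j + 1, e) + L * (4 * j + 8) := by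
    push_cast at h3
    have h7 : L * (361 / 400) * (g (j + 1 + 1) ((3 * e + 1) / 2) + (2 * ((j : ℝ) + 1 + 1) + 1)) ≤
        L * (361 / 400) * (0.7072 * G + 0.7072 + (2 * ((j : ℝ) + 1 + 1) + 1)) :=
      mul_le_mul_of_nonneg_left (by linarith) (by positivity)
    have h8 : L * (g j ((e - 3 ^ j) / 2) + (2 * (j : ℝ) + 1)) ≤
        L * (1.2248 * G + 0.7072 + (2 * (j : ℝ) + 1)) :=
      mul_le_mul_of_nonneg_left (by linarith) (by positivity)
    have h9 : L * (361 / 400) * (0.7072 * G + 0.7072 + (2 * ((j : ℝ) + 1 + 1) + 1)) +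
        L * (1.2248 * G + 0.7072 + (2 * (j : ℝ) + 1)) ≤ 2 * (L * (19 / 20) * G) + L * (4 * j + 8) := by
      have h10 : (361 / 400) * (0.7072 * G + 0.7072 + (2 * ((j : ℝ) + 1 + 1) + 1)) +
        (1.2248 * G + 0.7072 + (2 * (j : ℝ) + 1)) ≤ 2 * ((19 / 20) * G) + (4 * j + 8) := by
        linarith
      nlinarith
    linarith
  have h11 : L * (1 + j / 38) ≤ R := by
    have hb : 1 + (j : ℝ) * (1 / 38) ≤ (1 + 1 / 38) ^ j :=
      one_add_mul_le_pow (by norm_num) j
    have hRL : R = L * (1 + 1 / 38) ^ j := by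
      rw [hR, hL, ← mul_pow]; norm_num
    rw [hRL]
    apply mul_le_mul_of_nonneg_left _ hL0.le
    linarith
  have heps : eps = 1 / 243200 := rfl
  have h12 : eps * (L * (4 * j + 8)) ≤ R / 1600 := by
    rw [heps]
    have : (1 : ℝ) / 243200 * (L * (4 * j + 8)) = L * (2 / 38 + j / 38) / 1600 := by ring
    rw [this]
    have : L * (2 / 38 + j / 38) ≤ L * (1 + j / 38) :=
      mul_le_mul_of_nonneg_left (by linarith) hL0.le
    linarith
  have heps0 : 0 < eps := by rw [heps]; norm_num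
  have h13 := mul_le_mul_of_nonneg_left h6 heps0.le
  unfold V
  show (((j + 1 + 1 : ℕ) : ℝ) + 1 - (39 / 40) ^ (j + 1 + 1) +
      eps * H (j + 1 + 1, (3 * e + 1) / 2) +
    ((j : ℝ) + 1 - (39 / 40) ^ j + eps * H (j, (e - 3 ^ j) / 2))) / 2 ≤
    ((j + 1 : ℕ) : ℝ) + 1 - (39 / 40) ^ (j + 1) + eps * H (j + 1, e)
  rw [e3, e4, ← hR]
  push_cast
  linarith

theorem drift_odd_zero {e : ℤ} (he : e % 2 = 1) (hbig : (10 : ℝ) ^ 12 ≤ |(e : ℝ)|) :
    (V eps (s0 (0, e)) + V eps (s1 (0, e))) / 2 ≤ V eps (0, e) := by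
  rw [s0_odd _ he, s1_odd_zero he]
  have h1 := g_odd0 0 e ((3 * e + 1) / 2) (by omega)
  have h2 := g_odd0 0 (-e) ((1 - 3 * e) / 2) (by omega)
  rw [g_neg] at h2
  have h3 := H_le (0 + 1) ((3 * e + 1) / 2)
  have h4 := H_le (0 + 1) ((1 - 3 * e) / 2)
  have hG : (10 : ℝ) ^ 6 ≤ g 0 e := by
    unfold g
    rw [pow_zero, div_one]
    apply Real.le_sqrt_of_sq_le
    calc ((10 : ℝ) ^ 6) ^ 2 = 10 ^ 12 := by norm_num
      _ ≤ |(e : ℝ)| := hbig
  set G := g 0 e with hGdef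
  have heps : eps = 1 / 243200 := rfl
  have heps0 : 0 < eps := by rw [heps]; norm_num
  unfold V
  show ((((0 + 1 : ℕ) : ℝ) + 1 - (39 / 40) ^ (0 + 1) + eps * H (0 + 1, (3 * e + 1) / 2)) +
    (((1 : ℕ) : ℝ) + 1 - (39 / 40) ^ 1 + eps * H (1, (1 - 3 * e) / 2))) / 2 ≤
    ((0 : ℕ) : ℝ) + 1 - (39 / 40) ^ 0 + eps * H (0, e)
  rw [H_zero, ← hGdef]
  norm_num at h1 h2 h3 h4 ⊢
  have h5 : H (1, (3 * e + 1) / 2) ≤ 19 / 20 * (0.7072 * G + 0.7072 + 3) := by
    refine h3.trans ?_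
    apply mul_le_mul_of_nonneg_left _ (by norm_num)
    norm_num
    linarith
  have h6 : H (1, (1 - 3 * e) / 2) ≤ 19 / 20 * (0.7072 * G + 0.7072 + 3) := by
    refine h4.trans ?_
    apply mul_le_mul_of_nonneg_left _ (by norm_num)
    norm_num
    linarith
  rw [heps]
  norm_num at h5 h6 hG ⊢
  linarith

theorem U_eq_zero : ∀ s, U s = 0 := by
  apply U_eq_zero_of_lyapunov (V eps) ({0} ×ˢ Set.Icc (-(10 : ℤ) ^ 12) (10 ^ 12))
  · exact (Set.finite_singleton 0).prod (Set.finite_Icc _ _)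
  · exact V_nonneg (by unfold eps; norm_num)
  · exact V_level_finite (by unfold eps; norm_num)
  · rintro ⟨j, e⟩ hF _
    rcases Int.even_or_odd' e with ⟨f, rfl | rfl⟩
    · cases j with
      | zero => exact drift_even_zero f
      | succ j => exact drift_even_succ j f
    · have he : (2 * f + 1) % 2 = 1 := by omega
      cases j with
      | zero =>
        apply drift_odd_zero he
        by_contra hlt
        push Not at hlt
        apply hF
        refine ⟨rfl, ?_⟩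
        have h1 : |(2 * f + 1 : ℤ)| < (10 : ℤ) ^ 12 := by exact_mod_cast hlt
        rw [abs_lt] at h1
        exact ⟨h1.1.le, h1.2.le⟩
      | succ j => exact drift_odd_succ j he

theorem u_tendsto_zero (s : ℕ × ℤ) : Tendsto (fun k => u k s) atTop (𝓝 0) := by
  have := u_tendsto s
  rwa [U_eq_zero s] at this


/-! ### Averages of periodic functions -/

theorem sum_range_eq_sum_zmod (n : ℕ) [NeZero n] (F : ZMod n → ℝ) :
    ∑ i ∈ Finset.range n, F (i : ZMod n) = ∑ z : ZMod n, F z := by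
  apply Finset.sum_nbij' (fun i : ℕ => (i : ZMod n)) (fun z : ZMod n => z.val)
  · intro i _; exact Finset.mem_univ _
  · intro z _; exact Finset.mem_range.2 (ZMod.val_lt z)
  · intro i hi; exact ZMod.val_cast_of_lt (Finset.mem_range.1 hi)
  · intro z _; exact ZMod.natCast_zmod_val z
  · intro i _; rfl

theorem periodic_eq {n : ℕ} [NeZero n] {f : ℤ → ℝ} (hf : ∀ x, f (x + n) = f x) (x : ℤ) :
    f x = f ((x : ZMod n).val : ℤ) := by
  have hp : Function.Periodic f (n : ℤ) := hf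
  rw [ZMod.val_intCast]
  have h := hp.sub_zsmul_eq (x / n) (x := x)
  rw [← h]
  congr 1
  rw [Int.emod_def, smul_eq_mul, mul_comm]

theorem sum_affine {n : ℕ} [NeZero n] {f : ℤ → ℝ} (hf : ∀ x, f (x + n) = f x) (a c : ℤ)
    (ha : IsUnit (a : ZMod n)) :
    ∑ i ∈ Finset.range n, f (a * i + c) = ∑ i ∈ Finset.range n, f i := by
  set F : ZMod n → ℝ := fun z => f (z.val : ℤ) with hF
  have h1 : ∑ i ∈ Finset.range n, f i = ∑ z : ZMod n, F z := by
    rw [← sum_range_eq_sum_zmod n F]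
    apply Finset.sum_congr rfl
    intro i _
    rw [periodic_eq hf (i : ℤ), Int.cast_natCast]
  have h2 : ∑ i ∈ Finset.range n, f (a * i + c) = ∑ z : ZMod n, F (a * z + c) := by
    rw [← sum_range_eq_sum_zmod n (fun z => F (a * z + c))]
    apply Finset.sum_congr rfl
    intro i _
    rw [periodic_eq hf (a * i + c)]
    push_cast
    rfl
  rw [h1, h2]
  obtain ⟨b, hb⟩ := ha
  have h3 : Function.Bijective (fun z : ZMod n => (a : ZMod n) * z + (c : ZMod n)) := by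
    constructor
    · intro z1 z2 h
      have h4 : (a : ZMod n) * z1 = a * z2 := by simpa using h
      rw [← hb] at h4
      exact (Units.mul_right_inj b).1 h4
    · intro z
      refine ⟨(b⁻¹ : (ZMod n)ˣ) * (z - c), ?_⟩
      show (a : ZMod n) * ((b⁻¹ : (ZMod n)ˣ) * (z - c)) + c = z
      rw [← hb, ← mul_assoc, Units.mul_inv, one_mul, sub_add_cancel]
  exact h3.sum_comp F

/-! ### The pair chain on integers -/

/-- Indicator of not being absorbed within `k` steps, for the pair `(x, 3 ^ j * x + e)`. -/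
noncomputable def w : ℕ → ℕ × ℤ → ℤ → ℝ
  | 0, s, _ => if s = (0, 0) then 0 else 1
  | k + 1, s, x =>
    if s = (0, 0) then 0
    else if x % 2 = 0 then w k (s0 s) (x / 2)
    else if s.2 % 2 = 1 ∧ s.1 = 0 then w k (s1 s) ((x + s.2) / 2)
    else w k (s1 s) ((3 * x + 1) / 2)

theorem w_zero_state (k : ℕ) (x : ℤ) : w k (0, 0) x = 0 := by
  cases k <;> simp [w]

theorem w_even {s : ℕ × ℤ} (hs : s ≠ (0, 0)) (k : ℕ) (t : ℤ) :
    w (k + 1) s (2 * t) = w k (s0 s) t := by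
  have h : (2 * t) % 2 = 0 := by omega
  have h2 : 2 * t / 2 = t := by omega
  simp [w, hs, h2]

theorem w_odd_swap {s : ℕ × ℤ} (hs : s ≠ (0, 0)) (hsw : s.2 % 2 = 1 ∧ s.1 = 0) (k : ℕ) (t : ℤ) :
    w (k + 1) s (2 * t + 1) = w k (s1 s) (t + (s.2 + 1) / 2) := by
  have h : ¬ ((2 * t + 1) % 2 = 0) := by omega
  have h2 : (2 * t + 1 + s.2) / 2 = t + (s.2 + 1) / 2 := by omega
  simp only [w, hs, h, hsw, if_false, if_true, and_self]
  rw [h2]

theorem w_odd_noswap {s : ℕ × ℤ} (hs : s ≠ (0, 0)) (hsw : ¬ (s.2 % 2 = 1 ∧ s.1 = 0)) (k : ℕ)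
    (t : ℤ) : w (k + 1) s (2 * t + 1) = w k (s1 s) (3 * t + 2) := by
  have h : ¬ ((2 * t + 1) % 2 = 0) := by omega
  have h2 : (3 * (2 * t + 1) + 1) / 2 = 3 * t + 2 := by omega
  simp only [w, hs, h, hsw, if_false]
  rw [h2]

theorem w_zero_or_one (k : ℕ) : ∀ s x, w k s x = 0 ∨ w k s x = 1 := by
  induction k with
  | zero => intro s x; simp only [w]; split_ifs <;> simp
  | succ k ih =>
    intro s x
    simp only [w]
    split_ifs
    · left; rfl
    · exact ih _ _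
    · exact ih _ _
    · exact ih _ _

theorem w_periodic (k : ℕ) : ∀ s x, w k s (x + (2 ^ k : ℕ)) = w k s x := by
  induction k with
  | zero => intro s x; simp [w]
  | succ k ih =>
    intro s x
    by_cases hs : s = (0, 0)
    · subst hs; rw [w_zero_state, w_zero_state]
    have hpow : ((2 ^ (k + 1) : ℕ) : ℤ) = 2 * ((2 ^ k : ℕ) : ℤ) := by push_cast; ring
    rw [hpow]
    rcases Int.even_or_odd' x with ⟨t, rfl | rfl⟩
    · have h1 : 2 * t + 2 * ((2 ^ k : ℕ) : ℤ) = 2 * (t + (2 ^ k : ℕ)) := by ring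
      rw [h1, w_even hs, w_even hs, ih]
    · have h1 : 2 * t + 1 + 2 * ((2 ^ k : ℕ) : ℤ) = 2 * (t + (2 ^ k : ℕ)) + 1 := by ring
      rw [h1]
      by_cases hsw : s.2 % 2 = 1 ∧ s.1 = 0
      · rw [w_odd_swap hs hsw, w_odd_swap hs hsw]
        have h2 : t + ((2 ^ k : ℕ) : ℤ) + (s.2 + 1) / 2 = t + (s.2 + 1) / 2 + (2 ^ k : ℕ) := by ring
        rw [h2, ih]
      · rw [w_odd_noswap hs hsw, w_odd_noswap hs hsw]
        have h2 : 3 * (t + ((2 ^ k : ℕ) : ℤ)) + 2 =
            3 * t + 2 + (2 ^ k : ℕ) + (2 ^ k : ℕ) + (2 ^ k : ℕ) := by ring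
        rw [h2, ih, ih, ih]

theorem sum_w (k : ℕ) : ∀ s, ∑ i ∈ Finset.range (2 ^ k), w k s i = 2 ^ k * u k s := by
  induction k with
  | zero => intro s; simp [w, u]
  | succ k ih =>
    intro s
    by_cases hs : s = (0, 0)
    · subst hs
      simp [w_zero_state, u_zero_state]
    rw [u_succ hs]
    have : NeZero (2 ^ k) := ⟨by positivity⟩
    have hsplit : ∑ i ∈ Finset.range (2 ^ (k + 1)), w (k + 1) s i =
        ∑ i ∈ Finset.range (2 ^ k), w (k + 1) s ((2 * i : ℕ) : ℤ) +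
        ∑ i ∈ Finset.range (2 ^ k), w (k + 1) s ((2 * i + 1 : ℕ) : ℤ) := by
      rw [pow_succ]
      induction (2 ^ k) with
      | zero => simp
      | succ m ihm =>
        have h1 : (m + 1) * 2 = m * 2 + 1 + 1 := by ring
        rw [h1, Finset.sum_range_succ, Finset.sum_range_succ, ihm, Finset.sum_range_succ,
          Finset.sum_range_succ, mul_comm m 2]
        ring
    rw [hsplit]
    have h1 : ∑ i ∈ Finset.range (2 ^ k), w (k + 1) s ((2 * i : ℕ) : ℤ) = 2 ^ k * u k (s0 s) := by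
      rw [← ih (s0 s)]
      apply Finset.sum_congr rfl
      intro i _
      push_cast
      rw [w_even hs]
    have h2 : ∑ i ∈ Finset.range (2 ^ k), w (k + 1) s ((2 * i + 1 : ℕ) : ℤ) =
        2 ^ k * u k (s1 s) := by
      rw [← ih (s1 s)]
      by_cases hsw : s.2 % 2 = 1 ∧ s.1 = 0
      · rw [← sum_affine (w_periodic k (s1 s)) 1 ((s.2 + 1) / 2) (by simp)]
        apply Finset.sum_congr rfl
        intro i _
        push_cast
        rw [w_odd_swap hs hsw, one_mul]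
      · have hunit : IsUnit (((3 : ℤ)) : ZMod (2 ^ k)) := by
          have h3 : IsUnit ((3 : ℕ) : ZMod (2 ^ k)) := by
            rw [ZMod.isUnit_iff_coprime]
            exact Nat.Coprime.pow_right k (by norm_num)
          exact_mod_cast h3
        rw [← sum_affine (w_periodic k (s1 s)) 3 2 hunit]
        apply Finset.sum_congr rfl
        intro i _
        push_cast
        rw [w_odd_noswap hs hsw]
    rw [h1, h2, pow_succ]
    ring

theorem sum_w_blocks (k q : ℕ) (s : ℕ × ℤ) :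
    ∑ i ∈ Finset.range (2 ^ k * q), w k s i = q * (2 ^ k * u k s) := by
  induction q with
  | zero => simp
  | succ q ih =>
    rw [Nat.mul_succ, Finset.sum_range_add, ih]
    have h1 : ∑ x ∈ Finset.range (2 ^ k), w k s ((2 ^ k * q + x : ℕ) : ℤ) =
        ∑ i ∈ Finset.range (2 ^ k), w k s i := by
      apply Finset.sum_congr rfl
      intro i _
      have hp : Function.Periodic (w k s) ((2 ^ k : ℕ) : ℤ) := w_periodic k s
      have h2 := hp.nsmul q (i : ℤ)
      rw [← h2]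
      congr 1
      push_cast
      rw [nsmul_eq_mul]
      push_cast
      ring
    rw [h1, sum_w]
    push_cast
    ring

theorem sum_w_le (k N : ℕ) (s : ℕ × ℤ) :
    ∑ i ∈ Finset.range N, w k s i ≤ (N + 2 ^ k) * u k s := by
  have hpos : 0 < 2 ^ k := by positivity
  have h1 : N ≤ 2 ^ k * (N / 2 ^ k + 1) := by
    have := Nat.lt_mul_div_succ N hpos
    exact this.le
  have h2 : ∑ i ∈ Finset.range N, w k s i ≤
      ∑ i ∈ Finset.range (2 ^ k * (N / 2 ^ k + 1)), w k s i := by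
    apply Finset.sum_le_sum_of_subset_of_nonneg
    · intro i hi
      exact Finset.mem_range.2 (lt_of_lt_of_le (Finset.mem_range.1 hi) h1)
    · intro i _ _
      rcases w_zero_or_one k s i with h | h <;> rw [h]
      norm_num
  rw [sum_w_blocks] at h2
  refine h2.trans ?_
  have hu := u_nonneg k s
  have h3 : ((N / 2 ^ k + 1 : ℕ) : ℝ) * 2 ^ k ≤ N + 2 ^ k := by
    have h4 : (N / 2 ^ k) * 2 ^ k ≤ N := Nat.div_mul_le_self N (2 ^ k)
    have h5 : (((N / 2 ^ k) * 2 ^ k : ℕ) : ℝ) ≤ N := by exact_mod_cast h4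
    push_cast at h5 ⊢
    linarith
  calc ((N / 2 ^ k + 1 : ℕ) : ℝ) * (2 ^ k * u k s) = (((N / 2 ^ k + 1 : ℕ) : ℝ) * 2 ^ k) * u k s := by
        ring
    _ ≤ (N + 2 ^ k) * u k s := mul_le_mul_of_nonneg_right h3 hu

end Pool.Agent.Helper86.CollatzChain
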