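import Mathlib
import Pool.Agent.Helper86.CollatzChain

/-!
A rate for the absorption of the pair chain of `CollatzChain`:
`u k (j, e) ≤ C * sqrt ((1 + j ^ 2 + log (1 + |e|)) / k)`.
-/

set_option autoImplicit false

namespace Pool.Agent.Helper86.CollatzRate

open Filter Topology
open Pool.Agent.Helper86.CollatzChain

/-! ### The two-adic valuation of `3 ^ j - 1` -/

theorem vv_odd {n : ℕ} (hn : n % 2 = 1) : vv n ≤ 1 := by
  unfold vv
  by_contra hcon
  have h2 : 2 ≤ padicValNat 2 (3 ^ n - 1) := by omega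
  have h3 : 2 ^ 2 ∣ 3 ^ n - 1 := dvd_trans (pow_dvd_pow 2 h2) pow_padicValNat_dvd
  obtain ⟨m, rfl⟩ : ∃ m, n = 2 * m + 1 := ⟨n / 2, by omega⟩
  have h4 : 3 ^ (2 * m + 1) % 4 = 3 := by
    rw [pow_succ, pow_mul, Nat.mul_mod, Nat.pow_mod]
    norm_num
  have h5 : 1 ≤ 3 ^ (2 * m + 1) := Nat.one_le_pow _ _ (by norm_num)
  omega

theorem vv_le_val {n : ℕ} (hn : n ≠ 0) : vv n ≤ padicValNat 2 n + 2 := by
  rcases Nat.even_or_odd n with he | ho
  · have h := padicValNat.pow_two_sub_one (x := 3) (n := n) (by norm_num) (by norm_num) hn he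
    have h1 : padicValNat 2 (3 + 1) = 2 := by
      have : (3 + 1 : ℕ) = 2 ^ 2 := by norm_num
      rw [this, padicValNat.prime_pow]
    have h2 : padicValNat 2 (3 - 1) = 1 := by
      have : (3 - 1 : ℕ) = 2 ^ 1 := by norm_num
      rw [this, padicValNat.prime_pow]
    rw [h1, h2] at h
    unfold vv
    omega
  · have h1 := vv_odd (Nat.odd_iff.1 ho)
    omega

theorem sum_val (n : ℕ) : ∑ i ∈ Finset.range n, padicValNat 2 (i + 1) ≤ n := by
  have h : ∑ i ∈ Finset.range n, padicValNat 2 (i + 1) = padicValNat 2 n.factorial := by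
    induction n with
    | zero => simp
    | succ n ih =>
      rw [Finset.sum_range_succ, ih, Nat.factorial_succ,
        padicValNat.mul (by omega) (Nat.factorial_ne_zero n)]
      ring
  rw [h]
  have h2 := sub_one_mul_padicValNat_factorial (p := 2) n
  have h3 : (2 - 1) * padicValNat 2 n.factorial = padicValNat 2 n.factorial := by ring
  rw [h3] at h2
  omega

/-- Upper bound for the expected number of steps of agreement on level `i`. -/
noncomputable def Bf (i : ℕ) : ℝ := if i = 0 then 0 else (vv i : ℝ) + 1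

theorem Bf_nonneg (i : ℕ) : 0 ≤ Bf i := by
  unfold Bf
  split_ifs
  · exact le_rfl
  · positivity

theorem sum_Bf (n : ℕ) : ∑ i ∈ Finset.range n, Bf (i + 1) ≤ 4 * n := by
  have h1 : ∀ i ∈ Finset.range n, Bf (i + 1) ≤ ((padicValNat 2 (i + 1) + 3 : ℕ) : ℝ) := by
    intro i _
    unfold Bf
    rw [if_neg (by omega)]
    have h := vv_le_val (n := i + 1) (by omega)
    have h' : (vv (i + 1) : ℝ) ≤ ((padicValNat 2 (i + 1) + 2 : ℕ) : ℝ) := by exact_mod_cast h
    push_cast at h' ⊢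
    linarith
  refine (Finset.sum_le_sum h1).trans ?_
  have h2 : ∑ i ∈ Finset.range n, (padicValNat 2 (i + 1) + 3) ≤ 4 * n := by
    rw [Finset.sum_add_distrib]
    have := sum_val n
    simp
    omega
  exact_mod_cast h2

/-- First differences of `alpha`. -/
noncomputable def Aa (n : ℕ) : ℝ := ∑ i ∈ Finset.range n, (16 - Bf (i + 2) - Bf i)

/-- The compensator. -/
noncomputable def alpha (j : ℕ) : ℝ := ∑ n ∈ Finset.range j, Aa n

theorem Aa_succ (n : ℕ) : Aa (n + 1) = Aa n + (16 - Bf (n + 2) - Bf n) := by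
  unfold Aa
  rw [Finset.sum_range_succ]

theorem alpha_succ (n : ℕ) : alpha (n + 1) = alpha n + Aa n := by
  unfold alpha
  rw [Finset.sum_range_succ]

theorem alpha_zero : alpha 0 = 0 := by simp [alpha]

theorem Aa_zero : Aa 0 = 0 := by simp [Aa]

theorem alpha_one : alpha 1 = 0 := by rw [alpha_succ, alpha_zero, Aa_zero]; norm_num

theorem alpha_diff (j : ℕ) :
    (alpha (j + 2) + alpha j) / 2 - alpha (j + 1) = 8 - (Bf (j + 2) + Bf j) / 2 := by
  have h1 := alpha_succ (j + 1)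
  have h2 := alpha_succ j
  have h3 := Aa_succ j
  have e : j + 1 + 1 = j + 2 := by ring
  rw [e] at h1
  linarith

theorem Aa_nonneg (n : ℕ) : 0 ≤ Aa n := by
  rcases Nat.eq_zero_or_pos n with rfl | hn
  · rw [Aa_zero]
  unfold Aa
  rw [Finset.sum_sub_distrib, Finset.sum_sub_distrib]
  have h1 : ∑ i ∈ Finset.range n, Bf (i + 2) ≤ 4 * ((n + 1 : ℕ) : ℝ) := by
    refine le_trans ?_ (sum_Bf (n + 1))
    rw [Finset.sum_range_succ' (fun i => Bf (i + 1))]
    have := Bf_nonneg (0 + 1)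
    linarith
  have h2 : ∑ i ∈ Finset.range n, Bf i ≤ 4 * (n : ℝ) := by
    refine le_trans ?_ (sum_Bf n)
    obtain ⟨m, rfl⟩ : ∃ m, n = m + 1 := ⟨n - 1, by omega⟩
    rw [Finset.sum_range_succ' (fun i => Bf i), Finset.sum_range_succ (fun i => Bf (i + 1))]
    have := Bf_nonneg (m + 1)
    have h0 : Bf 0 = 0 := by simp [Bf]
    linarith
  have hn' : (1 : ℝ) ≤ n := by exact_mod_cast hn
  simp only [Finset.sum_const, Finset.card_range, nsmul_eq_mul]
  push_cast at h1
  linarith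

theorem Aa_le (n : ℕ) : Aa n ≤ 16 * n := by
  unfold Aa
  calc ∑ i ∈ Finset.range n, (16 - Bf (i + 2) - Bf i) ≤ ∑ i ∈ Finset.range n, (16 : ℝ) := by
        apply Finset.sum_le_sum
        intro i _
        have h1 := Bf_nonneg (i + 2)
        have h2 := Bf_nonneg i
        linarith
    _ = 16 * n := by simp; ring

theorem alpha_nonneg (j : ℕ) : 0 ≤ alpha j := Finset.sum_nonneg fun n _ => Aa_nonneg n

theorem alpha_le (j : ℕ) : alpha j ≤ 8 * (j : ℝ) ^ 2 := by
  induction j with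
  | zero => simp [alpha_zero]
  | succ j ih =>
    rw [alpha_succ]
    have := Aa_le j
    push_cast
    nlinarith

/-! ### Averages along the chain -/

/-- The average of `f` after `k` steps of the chain. -/
noncomputable def E : ℕ → (ℕ × ℤ → ℝ) → ℕ × ℤ → ℝ
  | 0, f, s => f s
  | k + 1, f, s => (E k f (s0 s) + E k f (s1 s)) / 2

theorem E_mono {f g : ℕ × ℤ → ℝ} (h : ∀ s, f s ≤ g s) (k : ℕ) : ∀ s, E k f s ≤ E k g s := by
  induction k with
  | zero => exact h
  | succ k ih =>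
    intro s
    have h1 := ih (s0 s)
    have h2 := ih (s1 s)
    show (E k f (s0 s) + E k f (s1 s)) / 2 ≤ (E k g (s0 s) + E k g (s1 s)) / 2
    linarith

theorem E_lin (f g : ℕ × ℤ → ℝ) (a b c : ℝ) (k : ℕ) :
    ∀ s, E k (fun t => a * f t + b * g t + c) s = a * E k f s + b * E k g s + c := by
  induction k with
  | zero => intro s; rfl
  | succ k ih =>
    intro s
    show (E k _ (s0 s) + E k _ (s1 s)) / 2 =
      a * ((E k f (s0 s) + E k f (s1 s)) / 2) + b * ((E k g (s0 s) + E k g (s1 s)) / 2) + c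
    rw [ih, ih]
    ring

theorem s0_zero : s0 (0, 0) = (0, 0) := by simp [s0]

theorem s1_zero : s1 (0, 0) = (0, 0) := by simp [s1]

theorem u_add (k l : ℕ) : ∀ s, u (k + l) s = E k (u l) s := by
  induction k with
  | zero => intro s; rw [zero_add]; rfl
  | succ k ih =>
    intro s
    have e : k + 1 + l = (k + l) + 1 := by ring
    rw [e]
    show u (k + l + 1) s = (E k (u l) (s0 s) + E k (u l) (s1 s)) / 2
    rw [← ih, ← ih]
    by_cases hs : s = (0, 0)
    · subst hs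
      rw [s0_zero, s1_zero, u_zero_state, u_zero_state]
      norm_num
    · rw [u_succ hs]

theorem E_ind (k : ℕ) (s : ℕ × ℤ) : E k (fun t => if t = (0, 0) then 0 else 1) s = u k s := by
  have h : u (k + 0) s = E k (u 0) s := u_add k 0 s
  rw [add_zero] at h
  rw [h]
  rfl

/-! ### Growth of moments -/

theorem sq_step (s : ℕ × ℤ) :
    (((s0 s).1 : ℝ) ^ 2 + ((s1 s).1 : ℝ) ^ 2) / 2 ≤ (s.1 : ℝ) ^ 2 + 1 := by
  obtain ⟨j, e⟩ := s
  rcases Int.even_or_odd' e with ⟨f, rfl | rfl⟩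
  · obtain ⟨w, hw⟩ := three_pow_odd j
    rw [s0_even, s1_even j f w hw]
    show ((j : ℝ) ^ 2 + (j : ℝ) ^ 2) / 2 ≤ (j : ℝ) ^ 2 + 1
    linarith
  · have he : (2 * f + 1) % 2 = 1 := by omega
    cases j with
    | zero =>
      rw [s0_odd _ he, s1_odd_zero he]
      show (((0 + 1 : ℕ) : ℝ) ^ 2 + ((1 : ℕ) : ℝ) ^ 2) / 2 ≤ ((0 : ℕ) : ℝ) ^ 2 + 1
      norm_num
    | succ j =>
      rw [s0_odd _ he, s1_odd_succ j he]
      show (((j + 1 + 1 : ℕ) : ℝ) ^ 2 + (j : ℝ) ^ 2) / 2 ≤ ((j + 1 : ℕ) : ℝ) ^ 2 + 1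
      push_cast
      nlinarith

theorem g_step (s : ℕ × ℤ) :
    (g (s0 s).1 (s0 s).2 + g (s1 s).1 (s1 s).2) / 2 ≤ 0.966 * g s.1 s.2 + 0.7072 := by
  obtain ⟨j, e⟩ := s
  have h0 := g_nonneg j e
  rcases Int.even_or_odd' e with ⟨f, rfl | rfl⟩
  · obtain ⟨w, hw⟩ := three_pow_odd j
    rw [s0_even, s1_even j f w hw]
    have h1 := g_even0 j f
    have h2 := g_even1 j f w hw
    simp only
    linarith
  · have he : (2 * f + 1) % 2 = 1 := by omega
    cases j with
    | zero =>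
      rw [s0_odd _ he, s1_odd_zero he]
      have h1 := g_odd0 0 (2 * f + 1) ((3 * (2 * f + 1) + 1) / 2) (by omega)
      have h2 := g_odd0 0 (-(2 * f + 1)) ((1 - 3 * (2 * f + 1)) / 2) (by omega)
      rw [g_neg] at h2
      simp only
      rw [zero_add] at h2
      linarith
    | succ j =>
      rw [s0_odd _ he, s1_odd_succ j he]
      obtain ⟨w, hw⟩ := three_pow_odd j
      have h1 := g_odd0 (j + 1) (2 * f + 1) ((3 * (2 * f + 1) + 1) / 2) (by omega)
      have h2 := g_odd1 j (2 * f + 1) ((2 * f + 1 - 3 ^ j) / 2) (by omega)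
      simp only
      linarith

theorem E_sq (k : ℕ) : ∀ s, E k (fun t => (t.1 : ℝ) ^ 2) s ≤ (s.1 : ℝ) ^ 2 + k := by
  induction k with
  | zero => intro s; simp [E]
  | succ k ih =>
    intro s
    have h1 := ih (s0 s)
    have h2 := ih (s1 s)
    have h3 := sq_step s
    show (E k _ (s0 s) + E k _ (s1 s)) / 2 ≤ _
    push_cast
    linarith

theorem E_g' (k : ℕ) : ∀ s, E k (fun t => g t.1 t.2) s ≤
    0.966 ^ k * g s.1 s.2 + 20.8 * (1 - 0.966 ^ k) := by
  induction k with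
  | zero => intro s; simp [E]
  | succ k ih =>
    intro s
    have h1 := ih (s0 s)
    have h2 := ih (s1 s)
    have h3 := g_step s
    have hp : (0 : ℝ) ≤ 0.966 ^ k := by positivity
    have h4 := mul_le_mul_of_nonneg_left h3 hp
    show (E k _ (s0 s) + E k _ (s1 s)) / 2 ≤ _
    rw [pow_succ]
    linarith

theorem E_g (k : ℕ) (s : ℕ × ℤ) : E k (fun t => g t.1 t.2) s ≤ 0.966 ^ k * g s.1 s.2 + 21 := by
  have h1 := E_g' k s
  have hp : (0 : ℝ) ≤ 0.966 ^ k := by positivity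
  linarith

/-- The Lyapunov function of `CollatzChain`. -/
noncomputable abbrev VV (s : ℕ × ℤ) : ℝ := V eps s

theorem VV_nonneg (s : ℕ × ℤ) : 0 ≤ VV s := V_nonneg (by unfold eps; norm_num) s

theorem VV_le (s : ℕ × ℤ) : VV s + 1 ≤ 2 * s.1 + 3 + g s.1 s.2 := by
  obtain ⟨j, e⟩ := s
  have h1 := H_le j e
  have h2 : (0 : ℝ) < (39 / 40) ^ j := by positivity
  have h3 : ((19 : ℝ) / 20) ^ j ≤ 1 := pow_le_one₀ (by norm_num) (by norm_num)
  have h4 := g_nonneg j e
  have h5 : (0 : ℝ) ≤ j := Nat.cast_nonneg _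
  have h6 : ((19 : ℝ) / 20) ^ j * (g j e + (2 * j + 1)) ≤ 1 * (g j e + (2 * j + 1)) :=
    mul_le_mul_of_nonneg_right h3 (by positivity)
  have heps : eps = 1 / 243200 := rfl
  show ((j : ℝ) + 1 - (39 / 40) ^ j) + eps * H (j, e) + 1 ≤ 2 * j + 3 + g j e
  rw [heps]
  linarith

theorem le_VV (s : ℕ × ℤ) : (s.1 : ℝ) ≤ VV s := by
  obtain ⟨j, e⟩ := s
  have h1 : ((39 : ℝ) / 40) ^ j ≤ 1 := pow_le_one₀ (by norm_num) (by norm_num)
  have h2 : 0 ≤ eps * H (j, e) := mul_nonneg (by unfold eps; norm_num) (H_nonneg _)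
  show (j : ℝ) ≤ ((j : ℝ) + 1 - (39 / 40) ^ j) + eps * H (j, e)
  linarith

theorem E_VV (k j : ℕ) (e : ℤ) (hk : (0.966 : ℝ) ^ k * g j e ≤ 1) :
    E k (fun t => VV t + 1) (j, e) ≤ 27 * Real.sqrt ((j : ℝ) ^ 2 + k + 1) := by
  set M : ℝ := Real.sqrt ((j : ℝ) ^ 2 + k + 1) with hM
  have hpos : (0 : ℝ) ≤ (j : ℝ) ^ 2 + k + 1 := by positivity
  have hMsq : M * M = (j : ℝ) ^ 2 + k + 1 := Real.mul_self_sqrt hpos
  have hM1 : 1 ≤ M := by
    rw [hM]
    apply Real.le_sqrt_of_sq_le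
    have : (0 : ℝ) ≤ (j : ℝ) ^ 2 + k := by positivity
    linarith
  have h1 : ∀ t : ℕ × ℤ, VV t + 1 ≤ (1 / M) * (t.1 : ℝ) ^ 2 + 1 * g t.1 t.2 + (M + 3) := by
    intro t
    have h2 := VV_le t
    have h3 : 2 * (t.1 : ℝ) ≤ (1 / M) * (t.1 : ℝ) ^ 2 + M := by
      have h4 : 0 ≤ (1 / M) * ((t.1 : ℝ) - M) ^ 2 := by positivity
      have h5 : (1 / M) * ((t.1 : ℝ) - M) ^ 2 = (1 / M) * (t.1 : ℝ) ^ 2 + M - 2 * t.1 := by
        field_simp
        ring
      linarith
    linarith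
  refine (E_mono h1 k (j, e)).trans ?_
  rw [E_lin (fun t => (t.1 : ℝ) ^ 2) (fun t => g t.1 t.2) (1 / M) 1 (M + 3) k (j, e)]
  have h2 := E_sq k (j, e)
  have h3 := E_g k (j, e)
  simp only at h2 h3
  have h4 : (1 / M) * E k (fun t => (t.1 : ℝ) ^ 2) (j, e) ≤ M := by
    have h5 : E k (fun t => (t.1 : ℝ) ^ 2) (j, e) ≤ M * M := by rw [hMsq]; linarith
    calc (1 / M) * E k (fun t => (t.1 : ℝ) ^ 2) (j, e) ≤ (1 / M) * (M * M) :=
          mul_le_mul_of_nonneg_left h5 (by positivity)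
      _ = M := by field_simp
  linarith

/-! ### The quadratic potential -/

/-- The finite exceptional set. -/
def F : Set (ℕ × ℤ) := {0} ×ˢ Set.Icc (-(10 : ℤ) ^ 12) (10 ^ 12)

theorem F_finite : F.Finite := (Set.finite_singleton 0).prod (Set.finite_Icc _ _)

theorem big_of_not_mem {e : ℤ} (h : ((0 : ℕ), e) ∉ F) : (10 : ℝ) ^ 12 ≤ |(e : ℝ)| := by
  by_contra hlt
  push Not at hlt
  apply h
  refine ⟨rfl, ?_⟩
  have h1 : |(e : ℤ)| < (10 : ℤ) ^ 12 := by exact_mod_cast hlt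
  rw [abs_lt] at h1
  exact ⟨h1.1.le, h1.2.le⟩

theorem g_big {e : ℤ} (hbig : (10 : ℝ) ^ 12 ≤ |(e : ℝ)|) : (10 : ℝ) ^ 6 ≤ g 0 e := by
  unfold g
  rw [pow_zero, div_one]
  apply Real.le_sqrt_of_sq_le
  calc ((10 : ℝ) ^ 6) ^ 2 = 10 ^ 12 := by norm_num
    _ ≤ |(e : ℝ)| := hbig

theorem drift_even_zero' {f : ℤ} (hbig : (10 : ℝ) ^ 12 ≤ |((2 * f : ℤ) : ℝ)|) :
    (VV (s0 (0, 2 * f)) + VV (s1 (0, 2 * f))) / 2 ≤ VV (0, 2 * f) - 1 / 10 := by
  have hG := g_big hbig
  rw [s0_even, s1_even 0 f 0 (by norm_num), sub_zero]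
  have h1 := g_even0 0 f
  have h2 : g 0 (3 * f) ≤ 1.2248 * g 0 (2 * f) := by
    unfold g
    have h3 : |((3 * f : ℤ) : ℝ)| / 3 ^ 0 = 3 * (|((2 * f : ℤ) : ℝ)| / 3 ^ 0) / 2 := by
      push_cast
      rw [abs_mul, abs_mul, abs_two, abs_of_pos (by norm_num : (0 : ℝ) < 3)]
      ring
    rw [h3]
    exact sqrt_bound2 (by positivity)
  have heps : eps = 1 / 243200 := rfl
  unfold VV V
  rw [H_zero, H_zero, H_zero, heps]
  norm_num at hG
  simp only
  linarith

theorem drift_odd_zero' {e : ℤ} (he : e % 2 = 1) (hbig : (10 : ℝ) ^ 12 ≤ |(e : ℝ)|) :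
    (VV (s0 (0, e)) + VV (s1 (0, e))) / 2 ≤ VV (0, e) - 1 / 10 := by
  have hG := g_big hbig
  rw [s0_odd _ he, s1_odd_zero he]
  have h1 := g_odd0 0 e ((3 * e + 1) / 2) (by omega)
  have h2 := g_odd0 0 (-e) ((1 - 3 * e) / 2) (by omega)
  rw [g_neg] at h2
  have h3 := H_le (0 + 1) ((3 * e + 1) / 2)
  have h4 := H_le (0 + 1) ((1 - 3 * e) / 2)
  set G := g 0 e with hGdef
  have heps : eps = 1 / 243200 := rfl
  unfold VV V
  show ((((0 + 1 : ℕ) : ℝ) + 1 - (39 / 40) ^ (0 + 1) + eps * H (0 + 1, (3 * e + 1) / 2)) +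
    (((1 : ℕ) : ℝ) + 1 - (39 / 40) ^ 1 + eps * H (1, (1 - 3 * e) / 2))) / 2 ≤
    ((0 : ℕ) : ℝ) + 1 - (39 / 40) ^ 0 + eps * H (0, e) - 1 / 10
  rw [H_zero, ← hGdef]
  norm_num at h1 h2 h3 h4 ⊢
  have h5 : H (1, (3 * e + 1) / 2) ≤ 19 / 20 * (0.7072 * G + 0.7072 + 3) := by
    refine h3.trans ?_
    apply mul_le_mul_of_nonneg_left _ (by norm_num)
    norm_num
    linarith
  have h6 : H (1, (1 - 3 * e) / 2) ≤ 19 / 20 * (0.7072 * G + 0.7072 + 3) := by
    refine h4.trans ?_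
    apply mul_le_mul_of_nonneg_left _ (by norm_num)
    norm_num
    linarith
  rw [heps]
  norm_num at h5 h6 hG ⊢
  linarith

/-- In the odd case above level `0` there is either a uniform negative drift or a uniform
variance. -/
theorem drift_odd_succ' (j : ℕ) {e : ℤ} (he : e % 2 = 1) :
    (VV (s0 (j + 1, e)) + VV (s1 (j + 1, e))) / 2 ≤ VV (j + 1, e) ∧
    ((VV (s0 (j + 1, e)) + VV (s1 (j + 1, e))) / 2 ≤ VV (j + 1, e) - 9 / 1000 ∨
      1 ≤ VV (s0 (j + 1, e)) - VV (s1 (j + 1, e))) := by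
  refine ⟨drift_odd_succ j he, ?_⟩
  rw [s0_odd _ he, s1_odd_succ j he]
  obtain ⟨w, hw⟩ := three_pow_odd j
  have h1 := g_odd0 (j + 1) e ((3 * e + 1) / 2) (by omega)
  have h2 := g_odd1 j e ((e - 3 ^ j) / 2) (by omega)
  have h3 := H_le (j + 1 + 1) ((3 * e + 1) / 2)
  have h4 := H_le j ((e - 3 ^ j) / 2)
  have h5 : (19 / 20) ^ (j + 1) * g (j + 1) e ≤ H (j + 1, e) := by
    rw [H_succ]
    apply mul_le_mul_of_nonneg_left _ (by positivity)
    have := tau_nonneg (vv (j + 1)) e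
    linarith
  set G := g (j + 1) e with hG
  have hG0 : 0 ≤ G := g_nonneg _ _
  set L : ℝ := (19 / 20) ^ j with hL
  have hL0 : 0 < L := by positivity
  set R : ℝ := (39 / 40) ^ j with hR
  have hR0 : 0 < R := by positivity
  have hR1 : R ≤ 1 := pow_le_one₀ (by norm_num) (by norm_num)
  have e1 : ((19 : ℝ) / 20) ^ (j + 1 + 1) = L * (361 / 400) := by rw [pow_succ, pow_succ]; ring
  have e2 : ((19 : ℝ) / 20) ^ (j + 1) = L * (19 / 20) := by rw [pow_succ]
  have e3 : ((39 : ℝ) / 40) ^ (j + 1 + 1) = R * (1521 / 1600) := by rw [pow_succ, pow_succ]; ring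
  have e4 : ((39 : ℝ) / 40) ^ (j + 1) = R * (39 / 40) := by rw [pow_succ]
  rw [e1] at h3
  rw [e2] at h5
  have hj0 : (0 : ℝ) ≤ j := Nat.cast_nonneg _
  -- upper bound for the sum
  have h8 : L * (g j ((e - 3 ^ j) / 2) + (2 * (j : ℝ) + 1)) ≤
      L * (1.2248 * G + 0.7072 + (2 * (j : ℝ) + 1)) :=
    mul_le_mul_of_nonneg_left (by linarith) (by positivity)
  have h6 : H (j + 1 + 1, (3 * e + 1) / 2) + H (j, (e - 3 ^ j) / 2) ≤
      2 * H (j + 1, e) + L * (4 * j + 8) - 0.036 * (L * G) := by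
    push_cast at h3
    have h7 : L * (361 / 400) * (g (j + 1 + 1) ((3 * e + 1) / 2) + (2 * ((j : ℝ) + 1 + 1) + 1)) ≤
        L * (361 / 400) * (0.7072 * G + 0.7072 + (2 * ((j : ℝ) + 1 + 1) + 1)) :=
      mul_le_mul_of_nonneg_left (by linarith) (by positivity)
    have h9 : L * (361 / 400) * (0.7072 * G + 0.7072 + (2 * ((j : ℝ) + 1 + 1) + 1)) +
        L * (1.2248 * G + 0.7072 + (2 * (j : ℝ) + 1)) ≤
        2 * (L * (19 / 20) * G) + L * (4 * j + 8) - 0.036 * (L * G) := by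
      have h10 : (361 / 400) * (0.7072 * G + 0.7072 + (2 * ((j : ℝ) + 1 + 1) + 1)) +
        (1.2248 * G + 0.7072 + (2 * (j : ℝ) + 1)) ≤
          2 * ((19 / 20) * G) + (4 * j + 8) - 0.036 * G := by
        linarith
      nlinarith
    linarith
  have h11 : L * (1 + j / 38) ≤ R := by
    have hb : 1 + (j : ℝ) * (1 / 38) ≤ (1 + 1 / 38) ^ j :=
      one_add_mul_le_pow (by norm_num) j
    have hRL : R = L * (1 + 1 / 38) ^ j := by
      rw [hR, hL, ← mul_pow]; norm_num
    rw [hRL]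
    apply mul_le_mul_of_nonneg_left _ hL0.le
    linarith
  have heps : eps = 1 / 243200 := rfl
  have h12 : eps * (L * (4 * j + 8)) ≤ R / 1600 := by
    rw [heps]
    have : (1 : ℝ) / 243200 * (L * (4 * j + 8)) = L * (2 / 38 + j / 38) / 1600 := by ring
    rw [this]
    have : L * (2 / 38 + j / 38) ≤ L * (1 + j / 38) :=
      mul_le_mul_of_nonneg_left (by linarith) hL0.le
    linarith
  have heps0 : 0 < eps := by rw [heps]; norm_num
  have h13 := mul_le_mul_of_nonneg_left h6 heps0.le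
  have hH0 := H_nonneg (j + 1 + 1, (3 * e + 1) / 2)
  have hH0' := mul_nonneg heps0.le hH0
  by_cases hcase : 1 / 2 ≤ eps * (L * G)
  · left
    unfold VV V
    show (((j + 1 + 1 : ℕ) : ℝ) + 1 - (39 / 40) ^ (j + 1 + 1) +
        eps * H (j + 1 + 1, (3 * e + 1) / 2) +
      ((j : ℝ) + 1 - (39 / 40) ^ j + eps * H (j, (e - 3 ^ j) / 2))) / 2 ≤
      ((j + 1 : ℕ) : ℝ) + 1 - (39 / 40) ^ (j + 1) + eps * H (j + 1, e) - 9 / 1000
    rw [e3, e4, ← hR]
    push_cast
    linarith
  · right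
    push Not at hcase
    have h14 : eps * H (j, (e - 3 ^ j) / 2) ≤ 1.2248 / 2 + 1 / 1600 := by
      have h15 : H (j, (e - 3 ^ j) / 2) ≤ 1.2248 * (L * G) + L * (4 * j + 8) := by
        have h16 : L * (1.2248 * G + 0.7072 + (2 * (j : ℝ) + 1)) ≤
            1.2248 * (L * G) + L * (4 * j + 8) := by nlinarith
        linarith
      have h17 := mul_le_mul_of_nonneg_left h15 heps0.le
      have h18 : eps * (1.2248 * (L * G) + L * (4 * j + 8)) =
          1.2248 * (eps * (L * G)) + eps * (L * (4 * j + 8)) := by ring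
      rw [h18] at h17
      linarith
    unfold VV V
    show 1 ≤ (((j + 1 + 1 : ℕ) : ℝ) + 1 - (39 / 40) ^ (j + 1 + 1) +
        eps * H (j + 1 + 1, (3 * e + 1) / 2)) -
      ((j : ℝ) + 1 - (39 / 40) ^ j + eps * H (j, (e - 3 ^ j) / 2))
    rw [e3, ← hR]
    push_cast
    norm_num at h14
    linarith

/-- The waiting time part. -/
noncomputable def Psi (s : ℕ × ℤ) : ℝ := (if s.1 = 0 then 0 else tau (vv s.1) s.2) + alpha s.1

theorem Psi_zero (e : ℤ) : Psi (0, e) = 0 := by simp [Psi, alpha_zero]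

theorem Psi_succ (j : ℕ) (e : ℤ) : Psi (j + 1, e) = tau (vv (j + 1)) e + alpha (j + 1) := by
  simp [Psi]

theorem Psi_nonneg (s : ℕ × ℤ) : 0 ≤ Psi s := by
  unfold Psi
  apply add_nonneg _ (alpha_nonneg _)
  split_ifs
  · exact le_rfl
  · exact tau_nonneg _ _

theorem Psi_le_Bf (j : ℕ) (e : ℤ) : Psi (j, e) ≤ Bf j + alpha j := by
  unfold Psi Bf
  apply add_le_add _ le_rfl
  simp only
  split_ifs
  · exact le_rfl
  · exact tau_le _ _

theorem Psi_le (s : ℕ × ℤ) : Psi s ≤ 2 * s.1 + 1 + 8 * (s.1 : ℝ) ^ 2 := by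
  obtain ⟨j, e⟩ := s
  have h1 := Psi_le_Bf j e
  have h2 := alpha_le j
  have h3 := vv_le j
  have h4 : Bf j ≤ 2 * j + 1 := by
    unfold Bf
    split_ifs
    · positivity
    · linarith
  simp only
  linarith

/-- The quadratic potential. -/
noncomputable def Q (L : ℝ) (s : ℕ × ℤ) : ℝ := 4 * L * VV s - VV s ^ 2 + 1 / 1000 * Psi s

theorem Q_nonneg {L : ℝ} {s : ℕ × ℤ} (h : VV s ≤ 4 * L) : 0 ≤ Q L s := by
  unfold Q
  have h1 := VV_nonneg s
  have h2 := Psi_nonneg s
  nlinarith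

theorem Q_le {L : ℝ} {s : ℕ × ℤ} (h : VV s ≤ L) (hL : 1 ≤ L) : Q L s ≤ 5 * L * (VV s + 1) := by
  unfold Q
  have h1 := VV_nonneg s
  have h2 := Psi_le s
  have h3 := le_VV s
  have h4 : (0 : ℝ) ≤ s.1 := Nat.cast_nonneg _
  have h5 : (s.1 : ℝ) ^ 2 ≤ L * VV s := by nlinarith
  nlinarith [mul_nonneg (by linarith : (0 : ℝ) ≤ L) h1, sq_nonneg (VV s)]

theorem quad_aux {a b v L δ : ℝ} (hD : (a + b) / 2 ≤ v - δ) (hδ : 0 ≤ δ) (hv : v ≤ L)
    (hL : 1 ≤ L) : (4 * L * a - a ^ 2 + (4 * L * b - b ^ 2)) / 2 ≤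
      4 * L * v - v ^ 2 - 2 * δ - ((a - b) / 2) ^ 2 := by
  have h1 : (4 * L * a - a ^ 2 + (4 * L * b - b ^ 2)) / 2 =
      4 * L * v - v ^ 2 + (4 * L - 2 * v) * ((a + b) / 2 - v) - ((a + b) / 2 - v) ^ 2
        - ((a - b) / 2) ^ 2 := by ring
  have h2 : (4 * L - 2 * v) * ((a + b) / 2 - v) ≤ (4 * L - 2 * v) * (-δ) :=
    mul_le_mul_of_nonneg_left (by linarith) (by linarith)
  have h3 : (4 * L - 2 * v) * (-δ) ≤ -(2 * δ) := by nlinarith
  have h4 := sq_nonneg ((a + b) / 2 - v)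
  rw [h1]
  linarith

theorem Q_step {L : ℝ} (hL : 1 ≤ L) {s : ℕ × ℤ} (hs : s ∉ F) (hV : VV s ≤ L) :
    (Q L (s0 s) + Q L (s1 s)) / 2 ≤ Q L s - 1 / 1000 := by
  obtain ⟨j, e⟩ := s
  rcases Int.even_or_odd' e with ⟨f, rfl | rfl⟩
  · cases j with
    | zero =>
      have h1 := drift_even_zero' (big_of_not_mem hs)
      have h2 := quad_aux h1 (by norm_num) hV hL
      have h3 := sq_nonneg ((VV (s0 (0, 2 * f)) - VV (s1 (0, 2 * f))) / 2)
      have h4 : Psi (s0 (0, 2 * f)) = 0 := by rw [s0_even, Psi_zero]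
      have h5 : Psi (s1 (0, 2 * f)) = 0 := by rw [s1_even 0 f 0 (by norm_num), Psi_zero]
      unfold Q
      rw [h4, h5, Psi_zero]
      linarith
    | succ j =>
      have h1 : (VV (s0 (j + 1, 2 * f)) + VV (s1 (j + 1, 2 * f))) / 2 ≤ VV (j + 1, 2 * f) - 0 := by
        rw [sub_zero]; exact drift_even_succ j f
      have h2 := quad_aux h1 le_rfl hV hL
      have h3 := sq_nonneg ((VV (s0 (j + 1, 2 * f)) - VV (s1 (j + 1, 2 * f))) / 2)
      obtain ⟨v, w, hv, hw, hvw⟩ := vv_spec j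
      have hw2 : 2 * ((2 : ℤ) ^ v * w) = 3 ^ (j + 1) - 1 := by rw [hvw, pow_succ]; ring
      have h4 := tau_step v f w hw
      have h5 : Psi (s0 (j + 1, 2 * f)) + Psi (s1 (j + 1, 2 * f)) ≤ 2 * Psi (j + 1, 2 * f) - 2 := by
        rw [s0_even, s1_even (j + 1) f (2 ^ v * w) hw2, Psi_succ, Psi_succ, Psi_succ, hv]
        linarith
      unfold Q
      linarith
  · have he : (2 * f + 1) % 2 = 1 := by omega
    cases j with
    | zero =>
      have h1 := drift_odd_zero' he (big_of_not_mem hs)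
      have h2 := quad_aux h1 (by norm_num) hV hL
      have h3 := sq_nonneg ((VV (s0 (0, 2 * f + 1)) - VV (s1 (0, 2 * f + 1))) / 2)
      have hB : Bf 1 + alpha 1 ≤ 2 := by
        rw [alpha_one]
        unfold Bf
        have : (vv 1 : ℝ) ≤ 1 := by exact_mod_cast vv_odd (n := 1) (by norm_num)
        rw [if_neg (by norm_num)]
        linarith
      have h4 : Psi (s0 (0, 2 * f + 1)) ≤ 2 := by
        rw [s0_odd _ he]; exact (Psi_le_Bf _ _).trans hB
      have h5 : Psi (s1 (0, 2 * f + 1)) ≤ 2 := by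
        rw [s1_odd_zero he]; exact (Psi_le_Bf _ _).trans hB
      unfold Q
      rw [Psi_zero]
      linarith
    | succ j =>
      obtain ⟨h0, h1⟩ := drift_odd_succ' j he
      have h4 : Psi (s0 (j + 1, 2 * f + 1)) ≤ Bf (j + 2) + alpha (j + 2) := by
        rw [s0_odd _ he]; exact Psi_le_Bf _ _
      have h5 : Psi (s1 (j + 1, 2 * f + 1)) ≤ Bf j + alpha j := by
        rw [s1_odd_succ j he]; exact Psi_le_Bf _ _
      have h6 := alpha_diff j
      have h7 : alpha (j + 1) ≤ Psi (j + 1, 2 * f + 1) := by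
        rw [Psi_succ]
        have := tau_nonneg (vv (j + 1)) (2 * f + 1)
        linarith
      rcases h1 with h1 | h1
      · have h2 := quad_aux h1 (by norm_num) hV hL
        have h3 := sq_nonneg ((VV (s0 (j + 1, 2 * f + 1)) - VV (s1 (j + 1, 2 * f + 1))) / 2)
        unfold Q
        linarith
      · have h0' : (VV (s0 (j + 1, 2 * f + 1)) + VV (s1 (j + 1, 2 * f + 1))) / 2 ≤
            VV (j + 1, 2 * f + 1) - 0 := by rw [sub_zero]; exact h0
        have h2 := quad_aux h0' le_rfl hV hL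
        have h3 : (1 / 4 : ℝ) ≤ ((VV (s0 (j + 1, 2 * f + 1)) - VV (s1 (j + 1, 2 * f + 1))) / 2) ^ 2 := by
          nlinarith
        unfold Q
        linarith

/-! ### Leaving the region -/

/-- The region below level `L`, outside the exceptional set. -/
def Reg (L : ℝ) : Set (ℕ × ℤ) := {s | s ∉ F ∧ VV s ≤ L}

open Classical in
/-- The probability of staying in the region for `k + 1` steps. -/
noncomputable def h (L : ℝ) : ℕ → ℕ × ℤ → ℝ
  | 0, s => if s ∈ Reg L then 1 else 0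
  | k + 1, s => if s ∈ Reg L then (h L k (s0 s) + h L k (s1 s)) / 2 else 0

theorem h_zero_of_mem {L : ℝ} {s : ℕ × ℤ} (hR : s ∈ Reg L) : h L 0 s = 1 := by simp [h, hR]

theorem h_zero_of_not {L : ℝ} {s : ℕ × ℤ} (hR : s ∉ Reg L) : h L 0 s = 0 := by simp [h, hR]

theorem h_succ_of_mem {L : ℝ} {s : ℕ × ℤ} (hR : s ∈ Reg L) (k : ℕ) :
    h L (k + 1) s = (h L k (s0 s) + h L k (s1 s)) / 2 := by simp [h, hR]

theorem h_succ_of_not {L : ℝ} {s : ℕ × ℤ} (hR : s ∉ Reg L) (k : ℕ) : h L (k + 1) s = 0 := by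
  simp [h, hR]

theorem h_nonneg (L : ℝ) (k : ℕ) : ∀ s, 0 ≤ h L k s := by
  induction k with
  | zero => intro s; simp only [h]; split_ifs <;> norm_num
  | succ k ih =>
    intro s
    simp only [h]
    split_ifs
    · have := ih (s0 s); have := ih (s1 s); linarith
    · exact le_rfl

theorem h_le_one (L : ℝ) (k : ℕ) : ∀ s, h L k s ≤ 1 := by
  induction k with
  | zero => intro s; simp only [h]; split_ifs <;> norm_num
  | succ k ih =>
    intro s
    simp only [h]
    split_ifs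
    · have := ih (s0 s); have := ih (s1 s); linarith
    · norm_num

theorem h_anti_succ (L : ℝ) (k : ℕ) : ∀ s, h L (k + 1) s ≤ h L k s := by
  induction k with
  | zero =>
    intro s
    have h1 := h_le_one L 0 (s0 s)
    have h2 := h_le_one L 0 (s1 s)
    by_cases hR : s ∈ Reg L
    · rw [h_succ_of_mem hR, h_zero_of_mem hR]
      linarith
    · rw [h_succ_of_not hR, h_zero_of_not hR]
  | succ k ih =>
    intro s
    have h1 := ih (s0 s)
    have h2 := ih (s1 s)
    by_cases hR : s ∈ Reg L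
    · rw [h_succ_of_mem hR, h_succ_of_mem hR]
      linarith
    · rw [h_succ_of_not hR, h_succ_of_not hR]

theorem h_antitone (L : ℝ) (s : ℕ × ℤ) : Antitone (fun k => h L k s) :=
  antitone_nat_of_succ_le fun k => h_anti_succ L k s

theorem VV_drift {s : ℕ × ℤ} (hs : s ∉ F) : (VV (s0 s) + VV (s1 s)) / 2 ≤ VV s := by
  obtain ⟨j, e⟩ := s
  rcases Int.even_or_odd' e with ⟨f, rfl | rfl⟩
  · cases j with
    | zero => exact drift_even_zero f
    | succ j => exact drift_even_succ j f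
  · have he : (2 * f + 1) % 2 = 1 := by omega
    cases j with
    | zero => exact drift_odd_zero he (big_of_not_mem hs)
    | succ j => exact drift_odd_succ j he

theorem sum_h {L : ℝ} (hL : 1 ≤ L) (k : ℕ) : ∀ s, VV s ≤ 4 * L →
    1 / 1000 * ∑ i ∈ Finset.range k, h L i s ≤ Q L s := by
  induction k with
  | zero => intro s hs; simp only [Finset.range_zero, Finset.sum_empty, mul_zero]; exact Q_nonneg hs
  | succ k ih =>
    intro s hs
    rw [Finset.sum_range_succ']
    by_cases hR : s ∈ Reg L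
    · have h1 : ∀ i, h L (i + 1) s = (h L i (s0 s) + h L i (s1 s)) / 2 := h_succ_of_mem hR
      have h2 : h L 0 s = 1 := h_zero_of_mem hR
      have hd := VV_drift hR.1
      have hV := hR.2
      have hn0 := VV_nonneg (s0 s)
      have hn1 := VV_nonneg (s1 s)
      have h3 := ih (s0 s) (by linarith)
      have h4 := ih (s1 s) (by linarith)
      have h5 := Q_step hL hR.1 hR.2
      have h6 : ∑ i ∈ Finset.range k, h L (i + 1) s =
          (∑ i ∈ Finset.range k, h L i (s0 s) + ∑ i ∈ Finset.range k, h L i (s1 s)) / 2 := by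
        rw [← Finset.sum_add_distrib, Finset.sum_div]
        exact Finset.sum_congr rfl fun i _ => h1 i
      rw [h2, h6]
      linarith
    · have h1 : ∀ i, h L (i + 1) s = 0 := h_succ_of_not hR
      have h2 : h L 0 s = 0 := h_zero_of_not hR
      rw [h2, Finset.sum_congr rfl fun i _ => h1 i]
      simp only [Finset.sum_const_zero, add_zero, mul_zero]
      exact Q_nonneg hs

theorem h_le {L : ℝ} (hL : 1 ≤ L) (k : ℕ) {s : ℕ × ℤ} (hs : VV s ≤ L) :
    h L k s ≤ 5000 * L * (VV s + 1) / (k + 1) := by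
  have h1 := sum_h hL (k + 1) s (by linarith)
  have h2 : ((k : ℝ) + 1) * h L k s ≤ ∑ i ∈ Finset.range (k + 1), h L i s := by
    have h3 : ∑ i ∈ Finset.range (k + 1), h L k s ≤ ∑ i ∈ Finset.range (k + 1), h L i s := by
      apply Finset.sum_le_sum
      intro i hi
      exact h_antitone L s (Nat.le_of_lt_succ (Finset.mem_range.1 hi))
    simp only [Finset.sum_const, Finset.card_range, nsmul_eq_mul] at h3
    push_cast at h3
    exact h3
  have h4 := Q_le hs hL
  rw [le_div_iff₀ (by positivity)]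
  nlinarith

/-- Decomposition at the first visit of the exceptional set. -/
theorem u_le_aux {L β : ℝ} (hL : 1 ≤ L) (K : ℕ) (hβ : ∀ s ∈ F, u K s ≤ β) (hβ0 : 0 ≤ β) (k : ℕ) :
    ∀ s, u (k + K) s ≤ β + VV s / L + h L k s := by
  have hLpos : 0 < L := by linarith
  have big : ∀ (m : ℕ) (s : ℕ × ℤ), L < VV s → u m s ≤ VV s / L := by
    intro m s hs
    have h1 := u_le_one m s
    have h2 : 1 ≤ VV s / L := by rw [le_div_iff₀ hLpos]; linarith
    linarith
  have inF : ∀ (m : ℕ) (s : ℕ × ℤ), s ∈ F → u (m + K) s ≤ β := by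
    intro m s hs
    exact (u_antitone s (Nat.le_add_left K m)).trans (hβ s hs)
  induction k with
  | zero =>
    intro s
    have h0 := h_nonneg L 0 s
    have hv : 0 ≤ VV s / L := div_nonneg (VV_nonneg s) hLpos.le
    by_cases hF : s ∈ F
    · have := inF 0 s hF
      linarith
    · by_cases hV : VV s ≤ L
      · have h1 : h L 0 s = 1 := h_zero_of_mem ⟨hF, hV⟩
        have := u_le_one (0 + K) s
        linarith
      · have := big (0 + K) s (not_le.1 hV)
        linarith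
  | succ k ih =>
    intro s
    have h0 := h_nonneg L (k + 1) s
    have hv : 0 ≤ VV s / L := div_nonneg (VV_nonneg s) hLpos.le
    by_cases hF : s ∈ F
    · have := inF (k + 1) s hF
      linarith
    · by_cases hV : VV s ≤ L
      · have h1 : h L (k + 1) s = (h L k (s0 s) + h L k (s1 s)) / 2 :=
          h_succ_of_mem ⟨hF, hV⟩ k
        have hne : s ≠ (0, 0) := by
          rintro rfl
          apply hF
          exact ⟨rfl, by norm_num⟩
        have e : k + 1 + K = (k + K) + 1 := by ring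
        rw [e, u_succ hne, h1]
        have h2 := ih (s0 s)
        have h3 := ih (s1 s)
        have h4 := div_le_div_of_nonneg_right (VV_drift hF) hLpos.le
        have h5 : (VV (s0 s) + VV (s1 s)) / 2 / L = (VV (s0 s) / L + VV (s1 s) / L) / 2 := by
          field_simp
        rw [h5] at h4
        linarith
      · have := big (k + 1 + K) s (not_le.1 hV)
        linarith

theorem u_le_sqrt {β : ℝ} (K : ℕ) (hβ : ∀ s ∈ F, u K s ≤ β) (hβ0 : 0 ≤ β) (k : ℕ) (s : ℕ × ℤ) :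
    u (k + K) s ≤ β + 5001 * (VV s + 1) / Real.sqrt (k + 1) := by
  set L : ℝ := Real.sqrt (k + 1) with hLdef
  have hL : 1 ≤ L := by
    rw [hLdef]
    apply Real.le_sqrt_of_sq_le
    have : (0 : ℝ) ≤ k := Nat.cast_nonneg _
    linarith
  have hLpos : 0 < L := by linarith
  have hLsq : L * L = k + 1 := Real.mul_self_sqrt (by positivity)
  have hv := VV_nonneg s
  by_cases hV : VV s ≤ L
  · have h1 := u_le_aux hL K hβ hβ0 k s
    have h2 := h_le hL k hV
    have h3 : 5000 * L * (VV s + 1) / (k + 1) = 5000 * (VV s + 1) / L := by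
      rw [← hLsq]
      field_simp
    rw [h3] at h2
    have h4 : VV s / L ≤ (VV s + 1) / L := div_le_div_of_nonneg_right (by linarith) hLpos.le
    have h5 : 5001 * (VV s + 1) / L = 5000 * (VV s + 1) / L + (VV s + 1) / L := by ring
    rw [h5]
    linarith
  · have h1 := u_le_one (k + K) s
    have h2 : 1 ≤ 5001 * (VV s + 1) / L := by
      rw [le_div_iff₀ hLpos]
      push Not at hV
      linarith
    linarith

/-! ### The rate on the exceptional set -/

theorem exists_unif (δ : ℝ) (hδ : 0 < δ) : ∃ m : ℕ, ∀ s ∈ F, u m s ≤ δ := by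
  have h1 : ∀ s ∈ F, ∀ᶠ m in atTop, u m s ≤ δ := by
    intro s _
    exact (u_tendsto_zero s).eventually (ge_mem_nhds hδ)
  have h2 : ∀ᶠ m in atTop, ∀ s ∈ F, u m s ≤ δ := by
    rw [Filter.eventually_all_finite F_finite]
    exact h1
  exact h2.exists

theorem exists_bound (f : ℕ × ℤ → ℝ) : ∃ C : ℝ, 0 < C ∧ ∀ s ∈ F, f s ≤ C := by
  obtain ⟨C, hC⟩ := (F_finite.image f).bddAbove
  refine ⟨max C 1, by positivity, fun s hs => ?_⟩
  exact (hC (Set.mem_image_of_mem f hs)).trans (le_max_left _ _)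

theorem F_rate : ∃ C : ℝ, 0 < C ∧ ∀ k : ℕ, 1 ≤ k → ∀ s ∈ F, u k s ≤ C / Real.sqrt k := by
  obtain ⟨m, hm⟩ := exists_unif (1 / 4) (by norm_num)
  obtain ⟨C₂, hC₂pos, hC₂⟩ := exists_bound (fun s => E m (fun t => VV t + 1) s)
  set C : ℝ := 4 * (m + 1) + 50000 * C₂ with hC
  have hCpos : 0 < C := by positivity
  refine ⟨C, hCpos, ?_⟩
  intro k
  induction k using Nat.strong_induction_on with
  | _ k ih =>
    intro hk s hs
    have hkpos : (0 : ℝ) < k := by exact_mod_cast hk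
    have hsk : 0 < Real.sqrt k := Real.sqrt_pos.2 hkpos
    by_cases hsmall : k < 4 * (m + 1)
    · have h1 := u_le_one k s
      have h2 : 1 ≤ C / Real.sqrt k := by
        rw [le_div_iff₀ hsk, one_mul]
        have h3 : (k : ℝ) ≤ 4 * (m + 1) := by exact_mod_cast hsmall.le
        have h4 : Real.sqrt k ≤ k := by
          rw [Real.sqrt_le_left hkpos.le]
          have : (1 : ℝ) ≤ k := by exact_mod_cast hk
          nlinarith
        have h5 : 0 < 50000 * C₂ := by positivity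
        linarith
      linarith
    · push Not at hsmall
      -- K = k / 2, the middle time is k / 2 - m
      obtain ⟨K, hK⟩ : ∃ K, K = k / 2 := ⟨_, rfl⟩
      obtain ⟨r, hr⟩ : ∃ r, r + m = K := ⟨K - m, by omega⟩
      have hK1 : 1 ≤ K := by omega
      have hKk : K < k := by omega
      have hβ := ih K hKk hK1
      set β : ℝ := C / Real.sqrt K with hβdef
      have hβ0 : 0 ≤ β := by positivity
      have h1 : ∀ t : ℕ × ℤ, u (r + K) t ≤
          β * (if t = (0, 0) then 0 else 1) + (5001 / Real.sqrt (r + 1)) * (VV t + 1) + 0 := by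
        intro t
        have hv := VV_nonneg t
        by_cases ht : t = (0, 0)
        · rw [ht, u_zero_state, if_pos rfl]
          have := VV_nonneg (0, 0)
          positivity
        · rw [if_neg ht]
          have h2 := u_le_sqrt K hβ hβ0 r t
          have h3 : 5001 * (VV t + 1) / Real.sqrt (r + 1) =
            (5001 / Real.sqrt (r + 1)) * (VV t + 1) := by ring
          rw [h3] at h2
          linarith
      have h2 : u (m + (r + K)) s ≤ β * u m s + (5001 / Real.sqrt (r + 1)) * C₂ := by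
        rw [u_add m (r + K) s]
        refine (E_mono h1 m s).trans ?_
        rw [E_lin (fun t => if t = (0, 0) then 0 else 1) (fun t => VV t + 1) β
          (5001 / Real.sqrt (r + 1)) 0 m s, E_ind]
        have h3 := mul_le_mul_of_nonneg_left (hC₂ s hs)
          (by positivity : 0 ≤ 5001 / Real.sqrt ((r : ℝ) + 1))
        linarith
      have h3 : u k s ≤ u (m + (r + K)) s := u_antitone s (by omega)
      have h4 := hm s hs
      have h5 : β * u m s ≤ β * (1 / 4) := mul_le_mul_of_nonneg_left h4 hβ0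
      -- compare the square roots
      have h6 : Real.sqrt k ≤ 2 * Real.sqrt (r + 1) := by
        have h7 : Real.sqrt k ≤ Real.sqrt (4 * ((r : ℝ) + 1)) := by
          apply Real.sqrt_le_sqrt
          have : k ≤ 4 * (r + 1) := by omega
          exact_mod_cast this
        have h8 : Real.sqrt (4 * ((r : ℝ) + 1)) = 2 * Real.sqrt (r + 1) := by
          rw [Real.sqrt_mul (by norm_num)]
          have : Real.sqrt 4 = 2 := by
            rw [show (4 : ℝ) = 2 ^ 2 by norm_num, Real.sqrt_sq (by norm_num)]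
          rw [this]
        rwa [h8] at h7
      have h7 : Real.sqrt k ≤ 2 * Real.sqrt K := by
        have h8 : Real.sqrt k ≤ Real.sqrt (4 * (K : ℝ)) := by
          apply Real.sqrt_le_sqrt
          have : k ≤ 4 * K := by omega
          exact_mod_cast this
        have h9 : Real.sqrt (4 * (K : ℝ)) = 2 * Real.sqrt K := by
          rw [Real.sqrt_mul (by norm_num)]
          have : Real.sqrt 4 = 2 := by
            rw [show (4 : ℝ) = 2 ^ 2 by norm_num, Real.sqrt_sq (by norm_num)]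
          rw [this]
        rwa [h9] at h8
      have hsK : 0 < Real.sqrt K := Real.sqrt_pos.2 (by exact_mod_cast hK1)
      have hsr : 0 < Real.sqrt ((r : ℝ) + 1) := Real.sqrt_pos.2 (by positivity)
      have h8 : β * (1 / 4) ≤ (C / 2) / Real.sqrt k := by
        rw [hβdef, le_div_iff₀ hsk, div_mul_eq_mul_div, div_mul_eq_mul_div, div_le_iff₀ hsK]
        nlinarith
      have h9 : (5001 / Real.sqrt (r + 1)) * C₂ ≤ (10002 * C₂) / Real.sqrt k := by
        rw [le_div_iff₀ hsk, div_mul_eq_mul_div, div_mul_eq_mul_div, div_le_iff₀ hsr]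
        nlinarith
      have h10 : (C / 2) / Real.sqrt k + (10002 * C₂) / Real.sqrt k ≤ C / Real.sqrt k := by
        rw [← add_div]
        apply div_le_div_of_nonneg_right _ hsk.le
        have : 0 < (m : ℝ) + 1 := by positivity
        linarith
      linarith

/-! ### The rate -/

theorem g_decay {j : ℕ} {e : ℤ} {k : ℕ} (hk : 15 * Real.log (1 + |(e : ℝ)|) ≤ k) :
    (0.966 : ℝ) ^ k * g j e ≤ 1 := by
  have ha : (0 : ℝ) ≤ |(e : ℝ)| := abs_nonneg _
  have h1 : g j e ≤ Real.sqrt (1 + |(e : ℝ)|) := by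
    unfold g
    apply Real.sqrt_le_sqrt
    have h3 : (1 : ℝ) ≤ 3 ^ j := one_le_pow₀ (by norm_num)
    calc |(e : ℝ)| / 3 ^ j ≤ |(e : ℝ)| := div_le_self ha h3
      _ ≤ 1 + |(e : ℝ)| := by linarith
  have h2 : Real.sqrt (1 + |(e : ℝ)|) = Real.exp (Real.log (1 + |(e : ℝ)|) / 2) := by
    rw [Real.sqrt_eq_rpow, Real.rpow_def_of_pos (by positivity), mul_one_div]
  have h3 : (0.966 : ℝ) ^ k ≤ Real.exp (-(k / 30 : ℝ)) := by
    have h4 : (0.966 : ℝ) ≤ Real.exp (-(1 / 30)) := by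
      have := Real.add_one_le_exp (-(1 / 30) : ℝ)
      norm_num at this ⊢
      linarith
    have h5 := pow_le_pow_left₀ (by norm_num) h4 k
    rw [← Real.exp_nat_mul] at h5
    have h6 : (k : ℝ) * (-(1 / 30)) = -(k / 30 : ℝ) := by ring
    rwa [h6] at h5
  calc (0.966 : ℝ) ^ k * g j e
      ≤ Real.exp (-(k / 30 : ℝ)) * Real.exp (Real.log (1 + |(e : ℝ)|) / 2) := by
        apply mul_le_mul h3 (h1.trans h2.le) (g_nonneg _ _) (Real.exp_pos _).le
    _ = Real.exp (-(k / 30 : ℝ) + Real.log (1 + |(e : ℝ)|) / 2) := by rw [Real.exp_add]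
    _ ≤ 1 := by
        rw [Real.exp_le_one_iff]
        linarith

/-- The rate of absorption of the pair chain. -/
theorem rate : ∃ C : ℝ, 0 < C ∧ ∀ (j : ℕ) (e : ℤ) (k : ℕ), 1 ≤ k →
    u k (j, e) ≤ C * Real.sqrt ((1 + (j : ℝ) ^ 2 + Real.log (1 + |(e : ℝ)|)) / k) := by
  obtain ⟨C₀, hC₀, hF⟩ := F_rate
  refine ⟨10 + 2 * C₀ + 1350270, by positivity, ?_⟩
  intro j e k hk
  have hlog : 0 ≤ Real.log (1 + |(e : ℝ)|) := by
    apply Real.log_nonneg
    have := abs_nonneg (e : ℝ)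
    linarith
  set X : ℝ := 1 + (j : ℝ) ^ 2 + Real.log (1 + |(e : ℝ)|) with hX
  have hj2 : (0 : ℝ) ≤ (j : ℝ) ^ 2 := by positivity
  have hX1 : 1 ≤ X := by rw [hX]; linarith
  have hkpos : (0 : ℝ) < k := by exact_mod_cast hk
  have hsk : 0 < Real.sqrt k := Real.sqrt_pos.2 hkpos
  have hsX : 0 < Real.sqrt X := Real.sqrt_pos.2 (by linarith)
  have hdiv : Real.sqrt (X / k) = Real.sqrt X / Real.sqrt k := Real.sqrt_div' _ hkpos.le
  by_cases hsmall : (k : ℝ) < 100 * X
  · have h1 := u_le_one k (j, e)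
    have h2 : (1 / 10 : ℝ) ≤ Real.sqrt (X / k) := by
      apply Real.le_sqrt_of_sq_le
      rw [le_div_iff₀ hkpos]
      linarith
    have h3 : (10 : ℝ) * (1 / 10) ≤ (10 + 2 * C₀ + 1350270) * Real.sqrt (X / k) :=
      mul_le_mul (by linarith) h2 (by norm_num) (by positivity)
    linarith
  · push Not at hsmall
    obtain ⟨k1, hk1⟩ : ∃ k1 : ℕ, k1 = ⌈15 * Real.log (1 + |(e : ℝ)|)⌉₊ := ⟨_, rfl⟩
    have hk1a : 15 * Real.log (1 + |(e : ℝ)|) ≤ k1 := by rw [hk1]; exact Nat.le_ceil _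
    have hk1b : (k1 : ℝ) < 15 * Real.log (1 + |(e : ℝ)|) + 1 := by
      rw [hk1]; exact Nat.ceil_lt_add_one (by positivity)
    have hk1c : (k1 : ℝ) ≤ 16 * X := by
      have : Real.log (1 + |(e : ℝ)|) ≤ X := by rw [hX]; linarith
      linarith
    have hk1d : 6 * k1 ≤ k := by
      have : (6 * k1 : ℝ) ≤ k := by linarith
      exact_mod_cast this
    have hk100 : 100 ≤ k := by
      have : (100 : ℝ) ≤ k := by linarith
      exact_mod_cast this
    obtain ⟨K, hK⟩ : ∃ K, K = (k - k1) / 2 := ⟨_, rfl⟩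
    obtain ⟨k2, hk2⟩ : ∃ k2, k2 = k - k1 - K := ⟨_, rfl⟩
    have hsum : k = k1 + (k2 + K) := by omega
    have hK4 : k ≤ 4 * K := by omega
    have hk24 : k ≤ 4 * (k2 + 1) := by omega
    have hβ := hF K (by omega)
    have hsK : 0 < Real.sqrt K := Real.sqrt_pos.2 (by
      have : 0 < K := by omega
      exact_mod_cast this)
    set β : ℝ := C₀ / Real.sqrt K with hβdef
    have hβ0 : 0 ≤ β := by positivity
    have hs2 : 0 < Real.sqrt ((k2 : ℝ) + 1) := Real.sqrt_pos.2 (by positivity)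
    have h1 : ∀ t : ℕ × ℤ, u (k2 + K) t ≤
        0 * (VV t + 1) + (5001 / Real.sqrt (k2 + 1)) * (VV t + 1) + β := by
      intro t
      have h2 := u_le_sqrt K hβ hβ0 k2 t
      have h3 : 5001 * (VV t + 1) / Real.sqrt (k2 + 1) =
        (5001 / Real.sqrt (k2 + 1)) * (VV t + 1) := by ring
      rw [h3] at h2
      linarith
    have h2 : u k (j, e) ≤ (5001 / Real.sqrt (k2 + 1)) * (27 * Real.sqrt ((j : ℝ) ^ 2 + k1 + 1)) +
        β := by
      rw [hsum, u_add k1 (k2 + K) (j, e)]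
      refine (E_mono h1 k1 (j, e)).trans ?_
      rw [E_lin (fun t => VV t + 1) (fun t => VV t + 1) 0 (5001 / Real.sqrt (k2 + 1)) β k1 (j, e)]
      have h3 := mul_le_mul_of_nonneg_left (E_VV k1 j e (g_decay hk1a))
        (by positivity : 0 ≤ 5001 / Real.sqrt ((k2 : ℝ) + 1))
      linarith
    have sqrt4 : ∀ x : ℝ, Real.sqrt (4 * x) = 2 * Real.sqrt x := by
      intro x
      rw [Real.sqrt_mul (by norm_num)]
      have : Real.sqrt 4 = 2 := by
        rw [show (4 : ℝ) = 2 ^ 2 by norm_num, Real.sqrt_sq (by norm_num)]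
      rw [this]
    have h6 : Real.sqrt k ≤ 2 * Real.sqrt ((k2 : ℝ) + 1) := by
      rw [← sqrt4]
      apply Real.sqrt_le_sqrt
      exact_mod_cast hk24
    have h7 : Real.sqrt k ≤ 2 * Real.sqrt K := by
      rw [← sqrt4]
      apply Real.sqrt_le_sqrt
      exact_mod_cast hK4
    have h8 : Real.sqrt ((j : ℝ) ^ 2 + k1 + 1) ≤ 5 * Real.sqrt X := by
      have h9 : (5 : ℝ) * Real.sqrt X = Real.sqrt (25 * X) := by
        rw [Real.sqrt_mul (by norm_num)]
        have : Real.sqrt 25 = 5 := by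
          rw [show (25 : ℝ) = 5 ^ 2 by norm_num, Real.sqrt_sq (by norm_num)]
        rw [this]
      rw [h9]
      apply Real.sqrt_le_sqrt
      have : (j : ℝ) ^ 2 + 1 ≤ X := by rw [hX]; linarith
      linarith
    have h9 : (5001 / Real.sqrt (k2 + 1)) * (27 * Real.sqrt ((j : ℝ) ^ 2 + k1 + 1)) ≤
        1350270 * (Real.sqrt X / Real.sqrt k) := by
      have h10 : (5001 / Real.sqrt ((k2 : ℝ) + 1)) ≤ 10002 / Real.sqrt k := by
        rw [div_le_div_iff₀ hs2 hsk]
        linarith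
      calc (5001 / Real.sqrt (k2 + 1)) * (27 * Real.sqrt ((j : ℝ) ^ 2 + k1 + 1))
          ≤ (10002 / Real.sqrt k) * (27 * (5 * Real.sqrt X)) := by
            apply mul_le_mul h10 _ (by positivity) (by positivity)
            linarith
        _ = 1350270 * (Real.sqrt X / Real.sqrt k) := by ring
    have h10 : β ≤ 2 * C₀ * (Real.sqrt X / Real.sqrt k) := by
      have h11 : β ≤ 2 * C₀ / Real.sqrt k := by
        rw [hβdef, div_le_div_iff₀ hsK hsk]
        nlinarith
      have h12 : 1 ≤ Real.sqrt X := by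
        apply Real.le_sqrt_of_sq_le
        linarith
      calc β ≤ 2 * C₀ / Real.sqrt k * 1 := by rw [mul_one]; exact h11
        _ ≤ 2 * C₀ / Real.sqrt k * Real.sqrt X := mul_le_mul_of_nonneg_left h12 (by positivity)
        _ = 2 * C₀ * (Real.sqrt X / Real.sqrt k) := by ring
    rw [hdiv]
    have h11 : 0 ≤ Real.sqrt X / Real.sqrt k := by positivity
    linarith

end Pool.Agent.Helper86.CollatzRate
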