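import Mathlib
import Pool.Agent.Helper86.CollatzRate
import Pool.Agent.Helper14.FatouDefs

/-!
Merging of `n` and `3 ^ a * n + b` under the shortcut Collatz map on the integers, with a rate.
-/

set_option autoImplicit false

namespace Pool.Agent.Helper86.CollatzInt

open Filter Topology
open Pool.Agent.Helper86.CollatzChain
open Pool.Agent.Helper86.CollatzRate
open Pool.Agent.Helper14 (T)

theorem T_even (t : ℤ) : T (2 * t) = t := by
  unfold T
  rw [if_pos (dvd_mul_right 2 t)]
  omega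

theorem T_odd (t : ℤ) : T (2 * t + 1) = 3 * t + 2 := by
  unfold T
  rw [if_neg (by omega)]
  omega

/-- Absorption of the pair chain means that the trajectories have merged. -/
theorem coalesce (k : ℕ) : ∀ (j : ℕ) (e x y : ℤ), y = 3 ^ j * x + e →
    w k (j, e) x = 0 → T^[k] x = T^[k] y := by
  induction k with
  | zero =>
    intro j e x y hy hw
    by_cases hs : (j, e) = (0, 0)
    · obtain ⟨rfl, rfl⟩ := Prod.mk.inj hs
      have : y = x := by simpa using hy
      rw [this]
    · simp [w, hs] at hw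
  | succ k ih =>
    intro j e x y hy hw
    by_cases hs : (j, e) = (0, 0)
    · obtain ⟨rfl, rfl⟩ := Prod.mk.inj hs
      have : y = x := by simpa using hy
      rw [this]
    rw [Function.iterate_succ_apply, Function.iterate_succ_apply]
    obtain ⟨v, hv⟩ := three_pow_odd j
    have hv' : (3 : ℤ) ^ j = 2 * v + 1 := by linarith
    rcases Int.even_or_odd' x with ⟨t, rfl | rfl⟩
    · rw [w_even hs] at hw
      rcases Int.even_or_odd' e with ⟨f, rfl | rfl⟩
      · -- both even
        rw [s0_even] at hw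
        have hy2 : y = 2 * (3 ^ j * t + f) := by rw [hy]; ring
        rw [hy2, T_even, T_even]
        exact ih j f t _ rfl hw
      · -- x even, y odd
        rw [s0_odd j (by omega)] at hw
        have hy2 : y = 2 * (3 ^ j * t + f) + 1 := by rw [hy]; ring
        rw [hy2, T_even, T_odd]
        have h3 : (3 * (2 * f + 1) + 1) / 2 = 3 * f + 2 := by omega
        rw [h3] at hw
        exact ih (j + 1) _ t _ (by rw [pow_succ]; ring) hw
    · rcases Int.even_or_odd' e with ⟨f, rfl | rfl⟩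
      · -- both odd
        have hsw : ¬ ((((j, 2 * f) : ℕ × ℤ).2) % 2 = 1 ∧ ((j, 2 * f) : ℕ × ℤ).1 = 0) := by
          intro h
          have := h.1
          simp only at this
          omega
        rw [w_odd_noswap hs hsw, s1_even j f v hv] at hw
        have hy2 : y = 2 * (3 ^ j * t + v + f) + 1 := by rw [hy]; linear_combination hv'
        rw [hy2, T_odd, T_odd]
        exact ih j _ (3 * t + 2) _ (by linear_combination (-2) * hv') hw
      · -- x odd, y even
        cases j with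
        | zero =>
          have hsw : ((((0, 2 * f + 1) : ℕ × ℤ).2) % 2 = 1 ∧ ((0, 2 * f + 1) : ℕ × ℤ).1 = 0) := by
            refine ⟨?_, rfl⟩
            simp only
            omega
          rw [w_odd_swap hs hsw, s1_odd_zero (by omega)] at hw
          simp only at hw
          have h1 : (2 * f + 1 + 1) / 2 = f + 1 := by omega
          have h2 : (1 - 3 * (2 * f + 1)) / 2 = -1 - 3 * f := by omega
          rw [h1, h2] at hw
          have hy2 : y = 2 * (t + (f + 1)) := by rw [hy]; ring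
          rw [hy2, T_odd, T_even]
          exact (ih 1 _ (t + (f + 1)) (3 * t + 2) (by ring) hw).symm
        | succ j =>
          have hsw : ¬ ((((j + 1, 2 * f + 1) : ℕ × ℤ).2) % 2 = 1 ∧
              ((j + 1, 2 * f + 1) : ℕ × ℤ).1 = 0) := by
            intro h
            have := h.2
            simp only at this
            omega
          rw [w_odd_noswap hs hsw, s1_odd_succ j (by omega)] at hw
          obtain ⟨v', hv2⟩ := three_pow_odd j
          have h5 : (3 : ℤ) ^ j = 2 * v' + 1 := by linarith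
          have h6 : (2 * f + 1 - (3 : ℤ) ^ j) / 2 = f - v' := by omega
          rw [h6] at hw
          have hy2 : y = 2 * (3 ^ j * (3 * t + 2) + (f - v')) := by
            rw [hy, pow_succ]; linear_combination (-1) * h5
          rw [hy2, T_odd, T_even]
          exact ih j _ (3 * t + 2) _ rfl hw

/-! ### Counting in symmetric intervals -/

theorem sum_w_shift (k : ℕ) (s : ℕ × ℤ) (c : ℤ) :
    ∑ i ∈ Finset.range (2 ^ k), w k s (i + c) = 2 ^ k * u k s := by
  have : NeZero (2 ^ k) := ⟨by positivity⟩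
  rw [← sum_w k s, ← sum_affine (w_periodic k s) 1 c (by simp)]
  apply Finset.sum_congr rfl
  intro i _
  rw [one_mul]

theorem sum_w_blocks_shift (k q : ℕ) (s : ℕ × ℤ) (c : ℤ) :
    ∑ i ∈ Finset.range (2 ^ k * q), w k s (i + c) = q * (2 ^ k * u k s) := by
  induction q with
  | zero => simp
  | succ q ih =>
    rw [Nat.mul_succ, Finset.sum_range_add, ih]
    have h1 : ∑ x ∈ Finset.range (2 ^ k), w k s (((2 ^ k * q + x : ℕ) : ℤ) + c) =
        ∑ i ∈ Finset.range (2 ^ k), w k s (i + (((2 ^ k * q : ℕ) : ℤ) + c)) := by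
      apply Finset.sum_congr rfl
      intro i _
      congr 1
      push_cast
      ring
    rw [h1, sum_w_shift]
    push_cast
    ring

theorem sum_w_le_shift (k N : ℕ) (s : ℕ × ℤ) (c : ℤ) :
    ∑ i ∈ Finset.range N, w k s (i + c) ≤ (N + 2 ^ k) * u k s := by
  have hpos : 0 < 2 ^ k := by positivity
  have h1 : N ≤ 2 ^ k * (N / 2 ^ k + 1) := by
    have := Nat.lt_mul_div_succ N hpos
    exact this.le
  have h2 : ∑ i ∈ Finset.range N, w k s (i + c) ≤
      ∑ i ∈ Finset.range (2 ^ k * (N / 2 ^ k + 1)), w k s (i + c) := by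
    apply Finset.sum_le_sum_of_subset_of_nonneg
    · intro i hi
      exact Finset.mem_range.2 (lt_of_lt_of_le (Finset.mem_range.1 hi) h1)
    · intro i _ _
      rcases w_zero_or_one k s (i + c) with h | h <;> rw [h]
      norm_num
  rw [sum_w_blocks_shift] at h2
  refine h2.trans ?_
  have hu := u_nonneg k s
  have h3 : ((N / 2 ^ k + 1 : ℕ) : ℝ) * 2 ^ k ≤ N + 2 ^ k := by
    have h4 : (N / 2 ^ k) * 2 ^ k ≤ N := Nat.div_mul_le_self N (2 ^ k)
    have h5 : (((N / 2 ^ k) * 2 ^ k : ℕ) : ℝ) ≤ N := by exact_mod_cast h4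
    push_cast at h5 ⊢
    linarith
  calc ((N / 2 ^ k + 1 : ℕ) : ℝ) * (2 ^ k * u k s) = (((N / 2 ^ k + 1 : ℕ) : ℝ) * 2 ^ k) * u k s := by
        ring
    _ ≤ (N + 2 ^ k) * u k s := mul_le_mul_of_nonneg_right h3 hu

theorem finite_abs_le (N : ℕ) (P : ℤ → Prop) : {n : ℤ | |n| ≤ N ∧ P n}.Finite :=
  (Set.finite_Icc (-(N : ℤ)) N).subset fun _ h => abs_le.1 h.1

/-- The integers `|n| ≤ N` at which the pair chain is not absorbed. -/
theorem ncard_le (k N : ℕ) (s : ℕ × ℤ) :
    (Set.ncard {n : ℤ | |n| ≤ N ∧ w k s n ≠ 0} : ℝ) ≤ (2 * N + 1 + 2 ^ k) * u k s := by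
  classical
  set A : Finset ℕ := (Finset.range (2 * N + 1)).filter (fun i => w k s (i + -(N : ℤ)) ≠ 0) with hA
  have h1 : Set.ncard {n : ℤ | |n| ≤ N ∧ w k s n ≠ 0} ≤ A.card := by
    rw [← Set.ncard_coe_finset]
    apply Set.ncard_le_ncard_of_injOn (fun n : ℤ => (n + N).toNat)
    · rintro n ⟨hn, hw⟩
      rw [abs_le] at hn
      rw [Finset.mem_coe, hA, Finset.mem_filter, Finset.mem_range]
      have h2 : ((n + N).toNat : ℤ) = n + N := Int.toNat_of_nonneg (by omega)
      refine ⟨by omega, ?_⟩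
      rw [h2]
      have h3 : n + N + -(N : ℤ) = n := by ring
      rwa [h3]
    · rintro n ⟨hn, _⟩ m ⟨hm, _⟩ hnm
      rw [abs_le] at hn hm
      simp only at hnm
      omega
  have h2 : (A.card : ℝ) = ∑ i ∈ Finset.range (2 * N + 1), w k s (i + -(N : ℤ)) := by
    rw [hA, Finset.card_filter]
    push_cast
    apply Finset.sum_congr rfl
    intro i _
    rcases w_zero_or_one k s (i + -(N : ℤ)) with h | h
    · simp [h]
    · simp [h]
  have h3 := sum_w_le_shift k (2 * N + 1) s (-(N : ℤ))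
  have h4 : (Set.ncard {n : ℤ | |n| ≤ N ∧ w k s n ≠ 0} : ℝ) ≤ A.card := by exact_mod_cast h1
  rw [h2] at h4
  push_cast at h3
  linarith

/-- `m` and `n` have the same iterate after some number of steps. -/
def Meet (m n : ℤ) : Prop := ∃ k : ℕ, T^[k] m = T^[k] n

/-- The rate of merging of `n` and `3 ^ a * n + b`. -/
theorem meet_rate : ∃ C : ℝ, 0 < C ∧ ∀ (N a : ℕ) (b : ℤ), 2 ≤ N →
    (Set.ncard {n : ℤ | |n| ≤ N ∧ ¬ Meet n (3 ^ a * n + b)} : ℝ) ≤
      C * N * Real.sqrt ((1 + (a : ℝ) ^ 2 + Real.log (1 + |(b : ℝ)|)) / Real.log N) := by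
  obtain ⟨C, hC, hrate⟩ := rate
  refine ⟨8 * C, by positivity, ?_⟩
  intro N a b hN
  set X : ℝ := 1 + (a : ℝ) ^ 2 + Real.log (1 + |(b : ℝ)|) with hX
  have hX0 : 0 ≤ X := by
    have : 0 ≤ Real.log (1 + |(b : ℝ)|) := by
      apply Real.log_nonneg
      have := abs_nonneg (b : ℝ)
      linarith
    positivity
  obtain ⟨k, hk⟩ : ∃ k, k = Nat.log 2 N := ⟨_, rfl⟩
  have hk1 : 1 ≤ k := by
    rw [hk]
    exact Nat.log_pos (by norm_num) hN
  have hk2 : 2 ^ k ≤ N := by rw [hk]; exact Nat.pow_log_le_self 2 (by omega)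
  have hk3 : N < 2 ^ (k + 1) := by rw [hk]; exact Nat.lt_pow_succ_log_self (by norm_num) N
  have hkpos : (0 : ℝ) < k := by exact_mod_cast hk1
  have hNpos : (0 : ℝ) < N := by
    have : 0 < N := by omega
    exact_mod_cast this
  have hN1 : (1 : ℝ) ≤ N := by
    have : 1 ≤ N := by omega
    exact_mod_cast this
  have hlogpos : 0 < Real.log N := by
    apply Real.log_pos
    have : 1 < N := by omega
    exact_mod_cast this
  have hlog : Real.log N ≤ 2 * k := by
    have h1 : Real.log N ≤ Real.log ((2 : ℝ) ^ (k + 1)) := by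
      apply Real.log_le_log hNpos
      exact_mod_cast hk3.le
    rw [Real.log_pow] at h1
    have h2 : Real.log 2 ≤ 1 := by
      have := Real.log_two_lt_d9
      linarith
    have h3 : ((k + 1 : ℕ) : ℝ) * Real.log 2 ≤ ((k + 1 : ℕ) : ℝ) * 1 :=
      mul_le_mul_of_nonneg_left h2 (by positivity)
    push_cast at h1 h3
    have : (1 : ℝ) ≤ k := by exact_mod_cast hk1
    linarith
  have h1 : Set.ncard {n : ℤ | |n| ≤ N ∧ ¬ Meet n (3 ^ a * n + b)} ≤
      Set.ncard {n : ℤ | |n| ≤ N ∧ w k (a, b) n ≠ 0} := by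
    apply Set.ncard_le_ncard _ (finite_abs_le N _)
    rintro n ⟨hn, hm⟩
    refine ⟨hn, fun hw => hm ⟨k, coalesce k a b n _ rfl hw⟩⟩
  have h2 := ncard_le k N (a, b)
  have h3 := hrate a b k hk1
  have h4 := u_nonneg k (a, b)
  have h5 : ((2 : ℝ) * N + 1 + 2 ^ k) ≤ 4 * N := by
    have : ((2 ^ k : ℕ) : ℝ) ≤ N := by exact_mod_cast hk2
    push_cast at this
    linarith
  have h6 : Real.sqrt (X / k) ≤ 2 * Real.sqrt (X / Real.log N) := by
    have h7 : (2 : ℝ) * Real.sqrt (X / Real.log N) = Real.sqrt (4 * (X / Real.log N)) := by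
      rw [Real.sqrt_mul (by norm_num)]
      have : Real.sqrt 4 = 2 := by
        rw [show (4 : ℝ) = 2 ^ 2 by norm_num, Real.sqrt_sq (by norm_num)]
      rw [this]
    rw [h7]
    apply Real.sqrt_le_sqrt
    rw [div_le_iff₀ hkpos, mul_div_assoc', div_mul_eq_mul_div, le_div_iff₀ hlogpos]
    nlinarith
  calc (Set.ncard {n : ℤ | |n| ≤ N ∧ ¬ Meet n (3 ^ a * n + b)} : ℝ)
      ≤ (Set.ncard {n : ℤ | |n| ≤ N ∧ w k (a, b) n ≠ 0} : ℝ) := by exact_mod_cast h1
    _ ≤ (2 * N + 1 + 2 ^ k) * u k (a, b) := h2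
    _ ≤ 4 * N * u k (a, b) := mul_le_mul_of_nonneg_right h5 h4
    _ ≤ 4 * N * (C * Real.sqrt (X / k)) := mul_le_mul_of_nonneg_left h3 (by positivity)
    _ ≤ 4 * N * (C * (2 * Real.sqrt (X / Real.log N))) := by
        apply mul_le_mul_of_nonneg_left _ (by positivity)
        exact mul_le_mul_of_nonneg_left h6 hC.le
    _ = 8 * C * N * Real.sqrt (X / Real.log N) := by ring

end Pool.Agent.Helper86.CollatzInt
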