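import Mathlib

/-!
Sets of natural numbers that are asymptotically invariant under `n ↦ n + d` and `n ↦ 3 * n` and
invariant under `n ↦ 2 * n` have the same density function along every arithmetic progression and
a slowly varying density function.
-/

set_option autoImplicit false

namespace Pool.Agent.Helper86.SlowVar

open Filter Topology Asymptotics

/-- Partial sums. -/
noncomputable def S (f : ℕ → ℝ) (N : ℕ) : ℝ := ∑ n ∈ Finset.range N, f n

/-- Partial sums up to a real bound. -/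
noncomputable def sr (f : ℕ → ℝ) (x : ℝ) : ℝ := S f (⌊x⌋₊ + 1)

theorem S_mono {f : ℕ → ℝ} (h0 : ∀ n, 0 ≤ f n) : Monotone (S f) := by
  intro M N hMN
  unfold S
  apply Finset.sum_le_sum_of_subset_of_nonneg
  · intro i hi
    exact Finset.mem_range.2 (lt_of_lt_of_le (Finset.mem_range.1 hi) hMN)
  · intro i _ _
    exact h0 i

theorem S_nonneg {f : ℕ → ℝ} (h0 : ∀ n, 0 ≤ f n) (N : ℕ) : 0 ≤ S f N :=
  Finset.sum_nonneg fun n _ => h0 n

theorem S_sub_le {f : ℕ → ℝ} (h1 : ∀ n, f n ≤ 1) {M N : ℕ} (hMN : M ≤ N) :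
    S f N - S f M ≤ N - M := by
  obtain ⟨d, rfl⟩ := Nat.exists_eq_add_of_le hMN
  unfold S
  rw [Finset.sum_range_add]
  have h2 : ∑ x ∈ Finset.range d, f (M + x) ≤ ∑ x ∈ Finset.range d, (1 : ℝ) :=
    Finset.sum_le_sum fun i _ => h1 _
  simp only [Finset.sum_const, Finset.card_range, nsmul_eq_mul, mul_one] at h2
  push_cast
  linarith

theorem S_dist {f : ℕ → ℝ} (h0 : ∀ n, 0 ≤ f n) (h1 : ∀ n, f n ≤ 1) (M N : ℕ) :
    |S f N - S f M| ≤ |(N : ℝ) - M| := by
  rcases le_total M N with h | h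
  · have h2 := S_mono h0 h
    have h3 := S_sub_le h1 h
    have h4 : (M : ℝ) ≤ N := by exact_mod_cast h
    rw [abs_of_nonneg (by linarith), abs_of_nonneg (by linarith)]
    exact h3
  · have h2 := S_mono h0 h
    have h3 := S_sub_le h1 h
    have h4 : (N : ℝ) ≤ M := by exact_mod_cast h
    rw [abs_of_nonpos (by linarith), abs_of_nonpos (by linarith)]
    linarith

theorem sr_dist {f : ℕ → ℝ} (h0 : ∀ n, 0 ≤ f n) (h1 : ∀ n, f n ≤ 1) {x y : ℝ} (hx : 0 ≤ x)
    (hy : 0 ≤ y) : |sr f x - sr f y| ≤ |x - y| + 1 := by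
  unfold sr
  refine (S_dist h0 h1 _ _).trans ?_
  push_cast
  have e : ((⌊x⌋₊ : ℝ) + 1 - (⌊y⌋₊ + 1)) = ⌊x⌋₊ - ⌊y⌋₊ := by ring
  rw [e]
  have a1 := Nat.floor_le hx
  have a2 := Nat.floor_le hy
  have a3 := Nat.lt_floor_add_one x
  have a4 := Nat.lt_floor_add_one y
  have a5 := le_abs_self (x - y)
  have a6 := neg_abs_le (x - y)
  rw [abs_le]
  constructor <;> linarith

theorem sr_nonneg {f : ℕ → ℝ} (h0 : ∀ n, 0 ≤ f n) (x : ℝ) : 0 ≤ sr f x := S_nonneg h0 _

theorem sr_le {f : ℕ → ℝ} (h1 : ∀ n, f n ≤ 1) {x : ℝ} (hx : 0 ≤ x) : sr f x ≤ x + 1 := by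
  unfold sr
  have h := S_sub_le h1 (Nat.zero_le (⌊x⌋₊ + 1))
  have h2 : S f 0 = 0 := by simp [S]
  have h3 := Nat.floor_le hx
  rw [h2] at h
  push_cast at h
  linarith

theorem S_blocks (f : ℕ → ℝ) (q M : ℕ) :
    S f (q * M) = ∑ i ∈ Finset.range q, ∑ m ∈ Finset.range M, f (q * m + i) := by
  rw [Finset.sum_comm]
  unfold S
  induction M with
  | zero => simp
  | succ M ih => rw [Nat.mul_succ, Finset.sum_range_add, ih, Finset.sum_range_succ]

theorem sum_sub_le (F : ℕ → ℝ) (hF : ∀ n, 0 ≤ F n) {q : ℕ} (hq : 1 ≤ q) (M : ℕ) :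
    ∑ m ∈ Finset.range M, F (q * m) ≤ S F (q * M) := by
  rw [S_blocks]
  have h := Finset.single_le_sum (f := fun i => ∑ m ∈ Finset.range M, F (q * m + i))
    (s := Finset.range q) (fun i _ => Finset.sum_nonneg fun m _ => hF _)
    (Finset.mem_range.2 hq : 0 ∈ Finset.range q)
  simpa using h

/-- The hypotheses on the indicator function. -/
structure Inv (f : ℕ → ℝ) : Prop where
  nonneg : ∀ n, 0 ≤ f n
  le_one : ∀ n, f n ≤ 1
  shift : ∀ d : ℕ, (fun N : ℕ => S (fun n => |f (n + d) - f n|) N) =o[atTop] fun N : ℕ => (N : ℝ)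
  two : ∀ n, f (2 * n) = f n
  three : (fun N : ℕ => S (fun n => |f (3 * n) - f n|) N) =o[atTop] fun N : ℕ => (N : ℝ)

theorem comp_mul {a : ℕ → ℝ} (ha : a =o[atTop] fun N : ℕ => (N : ℝ)) {q : ℕ} (hq : 1 ≤ q) :
    (fun M : ℕ => a (q * M)) =o[atTop] fun N : ℕ => (N : ℝ) := by
  have h1 : Tendsto (fun M : ℕ => q * M) atTop atTop := by
    apply tendsto_atTop_mono _ tendsto_id
    intro M
    exact Nat.le_mul_of_pos_left M hq
  have h2 := ha.comp_tendsto h1
  refine h2.trans_isBigO ?_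
  apply IsBigO.of_bound q
  filter_upwards with M
  simp only [Function.comp_apply]
  push_cast
  rw [norm_mul, Real.norm_natCast]

/-- The sum along a progression is comparable with the sum over the whole block. -/
theorem progression {f : ℕ → ℝ} (hf : Inv f) {q : ℕ} (hq : 1 ≤ q) (r : ℕ) :
    (fun M : ℕ => q * ∑ m ∈ Finset.range M, f (q * m + r) - S f (q * M)) =o[atTop]
      fun N : ℕ => (N : ℝ) := by
  have hshift : ∀ d : ℕ, (fun M : ℕ => ∑ m ∈ Finset.range M, |f (q * m + d) - f (q * m)|) =o[atTop]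
      fun N : ℕ => (N : ℝ) := by
    intro d
    refine IsBigO.trans_isLittleO ?_ (comp_mul (hf.shift d) hq)
    apply IsBigO.of_bound 1
    filter_upwards with M
    rw [one_mul, Real.norm_of_nonneg (Finset.sum_nonneg fun m _ => abs_nonneg _)]
    refine le_trans ?_ (le_abs_self _)
    exact sum_sub_le (fun n => |f (n + d) - f n|) (fun n => abs_nonneg _) hq M
  have h1 : (fun M : ℕ => ∑ i ∈ Finset.range q,
      (∑ m ∈ Finset.range M, |f (q * m + r) - f (q * m)| +
        ∑ m ∈ Finset.range M, |f (q * m + i) - f (q * m)|)) =o[atTop] fun N : ℕ => (N : ℝ) := by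
    apply IsLittleO.fun_sum
    intro i _
    exact (hshift r).add (hshift i)
  refine IsBigO.trans_isLittleO ?_ h1
  apply IsBigO.of_bound 1
  filter_upwards with M
  rw [one_mul, Real.norm_eq_abs]
  refine le_trans ?_ (le_abs_self _)
  have e : q * ∑ m ∈ Finset.range M, f (q * m + r) - S f (q * M) =
      ∑ i ∈ Finset.range q, ∑ m ∈ Finset.range M, (f (q * m + r) - f (q * m + i)) := by
    rw [S_blocks]
    simp only [Finset.sum_sub_distrib, Finset.sum_const, Finset.card_range, nsmul_eq_mul]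
  rw [e]
  refine (Finset.abs_sum_le_sum_abs _ _).trans ?_
  apply Finset.sum_le_sum
  intro i _
  refine (Finset.abs_sum_le_sum_abs _ _).trans ?_
  rw [← Finset.sum_add_distrib]
  apply Finset.sum_le_sum
  intro m _
  have h2 : f (q * m + r) - f (q * m + i) =
      (f (q * m + r) - f (q * m)) - (f (q * m + i) - f (q * m)) := by ring
  rw [h2]
  exact abs_sub _ _

theorem double {f : ℕ → ℝ} (hf : Inv f) :
    (fun M : ℕ => 2 * S f M - S f (2 * M)) =o[atTop] fun N : ℕ => (N : ℝ) := by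
  have h := progression hf (q := 2) (by norm_num) 0
  simp only [add_zero, hf.two] at h
  exact_mod_cast h

theorem triple {f : ℕ → ℝ} (hf : Inv f) :
    (fun M : ℕ => 3 * S f M - S f (3 * M)) =o[atTop] fun N : ℕ => (N : ℝ) := by
  have h := progression hf (q := 3) (by norm_num) 0
  simp only [add_zero] at h
  have h2 : (fun M : ℕ => 3 * (∑ m ∈ Finset.range M, f m - ∑ m ∈ Finset.range M, f (3 * m)))
      =o[atTop] fun N : ℕ => (N : ℝ) := by
    apply IsLittleO.const_mul_left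
    refine IsBigO.trans_isLittleO ?_ hf.three
    apply IsBigO.of_bound 1
    filter_upwards with M
    rw [one_mul, Real.norm_eq_abs, ← Finset.sum_sub_distrib]
    refine le_trans (Finset.abs_sum_le_sum_abs _ _) (le_trans ?_ (le_abs_self _))
    unfold S
    apply Finset.sum_le_sum
    intro m _
    rw [abs_sub_comm]
  have h3 := h2.add h
  refine h3.congr_left ?_
  intro M
  unfold S
  push_cast
  ring

/-- The set of multipliers. -/
def Lam (f : ℕ → ℝ) : Set ℝ :=
  {l | 0 < l ∧ (fun x : ℝ => sr f (l * x) - l * sr f x) =o[atTop] fun x : ℝ => x}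

theorem one_isLittleO : (fun _ : ℝ => (1 : ℝ)) =o[atTop] fun x : ℝ => x := by
  exact isLittleO_const_id_atTop 1

theorem nat_mem_Lam {f : ℕ → ℝ} (h0 : ∀ n, 0 ≤ f n) (h1 : ∀ n, f n ≤ 1) {q : ℕ} (hq : 1 ≤ q)
    (h : (fun M : ℕ => q * S f M - S f (q * M)) =o[atTop] fun N : ℕ => (N : ℝ)) :
    (q : ℝ) ∈ Lam f := by
  have hqpos : (0 : ℝ) < q := by exact_mod_cast hq
  refine ⟨hqpos, ?_⟩
  have h2 : (fun x : ℝ => q * S f ⌊x⌋₊ - S f (q * ⌊x⌋₊)) =o[atTop] fun x : ℝ => x := by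
    have h3 := h.comp_tendsto (tendsto_nat_floor_atTop (α := ℝ))
    refine h3.trans_isBigO ?_
    apply IsBigO.of_bound 1
    filter_upwards [eventually_ge_atTop (0 : ℝ)] with x hx
    simp only [Function.comp_apply]
    rw [one_mul, Real.norm_natCast, Real.norm_of_nonneg hx]
    exact Nat.floor_le hx
  have h3 : (fun _ : ℝ => (2 * (q : ℝ) + 1)) =o[atTop] fun x : ℝ => x :=
    isLittleO_const_id_atTop _
  refine IsBigO.trans_isLittleO ?_ (h2.norm_left.add h3)
  apply IsBigO.of_bound 1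
  filter_upwards [eventually_ge_atTop (0 : ℝ)] with x hx
  rw [one_mul, Real.norm_eq_abs, Real.norm_eq_abs]
  refine le_trans ?_ (le_abs_self _)
  have hfl := Nat.floor_le hx
  have hfl2 := Nat.lt_floor_add_one x
  have hfl3 := Nat.floor_le (by positivity : 0 ≤ (q : ℝ) * x)
  have hfl4 := Nat.lt_floor_add_one ((q : ℝ) * x)
  have e1 : |sr f (q * x) - S f (q * ⌊x⌋₊)| ≤ q + 1 := by
    unfold sr
    refine (S_dist h0 h1 _ _).trans ?_
    push_cast
    rw [abs_le]
    have h5 : (q : ℝ) * ⌊x⌋₊ ≤ q * x := mul_le_mul_of_nonneg_left hfl hqpos.le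
    have h6 : (q : ℝ) * x ≤ q * (⌊x⌋₊ + 1) := mul_le_mul_of_nonneg_left hfl2.le hqpos.le
    constructor <;> linarith
  have e2 : |sr f x - S f ⌊x⌋₊| ≤ 1 := by
    unfold sr
    refine (S_dist h0 h1 _ _).trans ?_
    push_cast
    rw [abs_le]
    constructor <;> linarith
  have e3 : |(q : ℝ) * (sr f x - S f ⌊x⌋₊)| ≤ q := by
    rw [abs_mul, abs_of_pos hqpos]
    calc (q : ℝ) * |sr f x - S f ⌊x⌋₊| ≤ q * 1 := mul_le_mul_of_nonneg_left e2 hqpos.le
      _ = q := mul_one _
  have e4 : sr f (q * x) - q * sr f x = (sr f (q * x) - S f (q * ⌊x⌋₊)) -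
      (q * (sr f x - S f ⌊x⌋₊)) - (q * S f ⌊x⌋₊ - S f (q * ⌊x⌋₊)) := by ring
  rw [e4]
  calc |(sr f (q * x) - S f (q * ⌊x⌋₊)) - (q * (sr f x - S f ⌊x⌋₊)) -
        (q * S f ⌊x⌋₊ - S f (q * ⌊x⌋₊))|
      ≤ |(sr f (q * x) - S f (q * ⌊x⌋₊)) - (q * (sr f x - S f ⌊x⌋₊))| +
        |q * S f ⌊x⌋₊ - S f (q * ⌊x⌋₊)| := abs_sub _ _
    _ ≤ (|sr f (q * x) - S f (q * ⌊x⌋₊)| + |q * (sr f x - S f ⌊x⌋₊)|) +
        |q * S f ⌊x⌋₊ - S f (q * ⌊x⌋₊)| := add_le_add (abs_sub _ _) le_rfl
    _ ≤ |q * S f ⌊x⌋₊ - S f (q * ⌊x⌋₊)| + (2 * q + 1) := by linarith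

theorem tendsto_const_mul {l : ℝ} (hl : 0 < l) : Tendsto (fun x : ℝ => l * x) atTop atTop :=
  tendsto_id.const_mul_atTop hl

theorem Lam_mul {f : ℕ → ℝ} {l m : ℝ} (hl : l ∈ Lam f) (hm : m ∈ Lam f) : l * m ∈ Lam f := by
  refine ⟨mul_pos hl.1 hm.1, ?_⟩
  have h1 : (fun x : ℝ => sr f (l * (m * x)) - l * sr f (m * x)) =o[atTop] fun x : ℝ => x := by
    have h2 := hl.2.comp_tendsto (tendsto_const_mul hm.1)
    refine h2.trans_isBigO ?_
    apply IsBigO.of_bound m
    filter_upwards with x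
    simp only [Function.comp_apply]
    rw [norm_mul, Real.norm_of_nonneg hm.1.le]
  have h2 := h1.add (hm.2.const_mul_left l)
  refine h2.congr_left ?_
  intro x
  rw [← mul_assoc]
  ring

theorem Lam_inv {f : ℕ → ℝ} {l : ℝ} (hl : l ∈ Lam f) : l⁻¹ ∈ Lam f := by
  have hpos := inv_pos.2 hl.1
  refine ⟨hpos, ?_⟩
  have h1 : (fun x : ℝ => sr f (l * (l⁻¹ * x)) - l * sr f (l⁻¹ * x)) =o[atTop] fun x : ℝ => x := by
    have h2 := hl.2.comp_tendsto (tendsto_const_mul hpos)
    refine h2.trans_isBigO ?_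
    apply IsBigO.of_bound l⁻¹
    filter_upwards with x
    simp only [Function.comp_apply]
    rw [norm_mul, Real.norm_of_nonneg hpos.le]
  have h2 := h1.const_mul_left (-l⁻¹)
  refine h2.congr_left ?_
  intro x
  have h3 : l * (l⁻¹ * x) = x := by
    rw [← mul_assoc, mul_inv_cancel₀ hl.1.ne', one_mul]
  have h4 : l⁻¹ * l = 1 := inv_mul_cancel₀ hl.1.ne'
  rw [h3]
  linear_combination (sr f (l⁻¹ * x)) * h4

theorem Lam_one (f : ℕ → ℝ) : (1 : ℝ) ∈ Lam f := by
  refine ⟨one_pos, ?_⟩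
  have h : (fun x : ℝ => sr f (1 * x) - 1 * sr f x) = fun _ => (0 : ℝ) := by
    funext x
    rw [one_mul, one_mul, sub_self]
  rw [h]
  exact isLittleO_zero _ _

theorem Lam_closed {f : ℕ → ℝ} (h0 : ∀ n, 0 ≤ f n) (h1 : ∀ n, f n ≤ 1) {l : ℝ} (hl : 0 < l)
    (h : ∀ ε : ℝ, 0 < ε → ∃ m ∈ Lam f, |l - m| < ε) : l ∈ Lam f := by
  refine ⟨hl, ?_⟩
  rw [isLittleO_iff]
  intro ε hε
  obtain ⟨m, hm, hlm⟩ := h (ε / 8) (by linarith)
  have h2 := (isLittleO_iff.1 hm.2) (by linarith : 0 < ε / 4)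
  filter_upwards [h2, eventually_ge_atTop (1 : ℝ), eventually_ge_atTop (4 / ε)] with x hx hx1 hx2
  rw [Real.norm_eq_abs] at hx ⊢
  have hx0 : 0 ≤ x := by linarith
  rw [Real.norm_of_nonneg hx0] at hx ⊢
  have e1 := sr_dist h0 h1 (mul_nonneg hl.le hx0) (mul_nonneg hm.1.le hx0)
  have e2 : |l * x - m * x| ≤ ε / 8 * x := by
    rw [← sub_mul, abs_mul, abs_of_nonneg hx0]
    exact mul_le_mul_of_nonneg_right hlm.le hx0
  have e3 : |(m - l) * sr f x| ≤ ε / 8 * (x + x) := by
    rw [abs_mul, abs_of_nonneg (sr_nonneg h0 x), abs_sub_comm]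
    apply mul_le_mul hlm.le _ (sr_nonneg h0 x) (by linarith)
    have := sr_le h1 hx0
    linarith
  have e4 : sr f (l * x) - l * sr f x =
      (sr f (l * x) - sr f (m * x)) + (sr f (m * x) - m * sr f x) + (m - l) * sr f x := by ring
  have e5 : 1 ≤ ε / 4 * x := by
    rw [div_le_iff₀ hε] at hx2
    linarith
  rw [e4]
  have e6 := abs_add_le ((sr f (l * x) - sr f (m * x)) + (sr f (m * x) - m * sr f x))
    ((m - l) * sr f x)
  have e7 := abs_add_le (sr f (l * x) - sr f (m * x)) (sr f (m * x) - m * sr f x)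
  linarith

/-- Logarithms of the multipliers. -/
def G (f : ℕ → ℝ) : AddSubgroup ℝ where
  carrier := {t | Real.exp t ∈ Lam f}
  zero_mem' := by
    show Real.exp 0 ∈ Lam f
    rw [Real.exp_zero]
    exact Lam_one f
  add_mem' := by
    intro a b ha hb
    show Real.exp (a + b) ∈ Lam f
    rw [Real.exp_add]
    exact Lam_mul ha hb
  neg_mem' := by
    intro a ha
    show Real.exp (-a) ∈ Lam f
    rw [Real.exp_neg]
    exact Lam_inv ha

theorem not_cyclic {a : ℝ} (h2 : Real.log 2 ∈ AddSubgroup.closure {a})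
    (h3 : Real.log 3 ∈ AddSubgroup.closure {a}) : False := by
  rw [AddSubgroup.mem_closure_singleton] at h2 h3
  obtain ⟨m, hm⟩ := h2
  obtain ⟨n, hn⟩ := h3
  rw [zsmul_eq_mul] at hm hn
  have hl2 : 0 < Real.log 2 := Real.log_pos (by norm_num)
  have hl3 : 0 < Real.log 3 := Real.log_pos (by norm_num)
  have h1 : (n : ℝ) * Real.log 2 = m * Real.log 3 := by
    rw [← hm, ← hn]; ring
  have hm0 : m ≠ 0 := by
    rintro rfl
    rw [Int.cast_zero, zero_mul] at hm
    linarith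
  have h4 : |(n : ℝ)| * Real.log 2 = |(m : ℝ)| * Real.log 3 := by
    have h5 := congrArg abs h1
    rwa [abs_mul, abs_mul, abs_of_pos hl2, abs_of_pos hl3] at h5
  have h5 : ((n.natAbs : ℕ) : ℝ) * Real.log 2 = ((m.natAbs : ℕ) : ℝ) * Real.log 3 := by
    rw [Nat.cast_natAbs, Nat.cast_natAbs]
    push_cast
    exact h4
  rw [← Real.log_pow, ← Real.log_pow] at h5
  have h6 : (2 : ℝ) ^ n.natAbs = 3 ^ m.natAbs :=
    Real.log_injOn_pos (Set.mem_Ioi.2 (by positivity)) (Set.mem_Ioi.2 (by positivity)) h5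
  have h7 : 2 ^ n.natAbs = 3 ^ m.natAbs := by exact_mod_cast h6
  have hmn : 0 < m.natAbs := Int.natAbs_pos.2 hm0
  have h8 : n.natAbs ≠ 0 := by
    intro h
    rw [h, pow_zero] at h7
    have : 1 < 3 ^ m.natAbs := Nat.one_lt_pow hmn.ne' (by norm_num)
    omega
  have h9 : 2 ∣ 3 ^ m.natAbs := by
    rw [← h7]
    exact dvd_pow_self 2 h8
  have h10 := Nat.Prime.dvd_of_dvd_pow Nat.prime_two h9
  omega

theorem Lam_all {f : ℕ → ℝ} (hf : Inv f) {l : ℝ} (hl : 0 < l) : l ∈ Lam f := by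
  have h2 : (2 : ℝ) ∈ Lam f := by
    have h := nat_mem_Lam hf.nonneg hf.le_one (q := 2) (by norm_num)
      (by exact_mod_cast double hf)
    exact_mod_cast h
  have h3 : (3 : ℝ) ∈ Lam f := by
    have h := nat_mem_Lam hf.nonneg hf.le_one (q := 3) (by norm_num)
      (by exact_mod_cast triple hf)
    exact_mod_cast h
  have hG2 : Real.log 2 ∈ G f := by
    show Real.exp (Real.log 2) ∈ Lam f
    rwa [Real.exp_log (by norm_num)]
  have hG3 : Real.log 3 ∈ G f := by
    show Real.exp (Real.log 3) ∈ Lam f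
    rwa [Real.exp_log (by norm_num)]
  rcases AddSubgroup.dense_or_cyclic (G f) with hd | ⟨a, ha⟩
  · apply Lam_closed hf.nonneg hf.le_one hl
    intro ε hε
    -- the map exp is continuous at log l
    have hc : ContinuousAt Real.exp (Real.log l) := Real.continuous_exp.continuousAt
    rw [Metric.continuousAt_iff] at hc
    obtain ⟨δ, hδ, hcδ⟩ := hc ε hε
    obtain ⟨t, ht, htd⟩ := Metric.dense_iff.1 hd (Real.log l) δ hδ
    refine ⟨Real.exp t, htd, ?_⟩
    have h4 := hcδ ht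
    rw [Real.exp_log hl, Real.dist_eq, abs_sub_comm] at h4
    exact h4
  · exfalso
    rw [ha] at hG2 hG3
    exact not_cyclic hG2 hG3

/-- Slow variation of the density function. -/
theorem slow {f : ℕ → ℝ} (hf : Inv f) {l : ℝ} (hl : 0 < l) :
    Tendsto (fun x : ℝ => sr f (l * x) / (l * x) - sr f x / x) atTop (𝓝 0) := by
  have h := (Lam_all hf hl).2.const_mul_left l⁻¹
  have h2 := h.tendsto_div_nhds_zero
  refine h2.congr' ?_
  filter_upwards [eventually_gt_atTop 0] with x hx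
  field_simp

/-- The density function along a progression. -/
theorem along_o {f : ℕ → ℝ} (hf : Inv f) {q : ℕ} (hq : 1 ≤ q) (r : ℕ) :
    (fun M : ℕ => S (fun m => f (q * m + r)) M - S f M) =o[atTop] fun N : ℕ => (N : ℝ) := by
  have hqpos : (0 : ℝ) < q := by exact_mod_cast hq
  have h1 := progression hf hq r
  have h2 : (fun M : ℕ => sr f (q * (M : ℝ)) - q * sr f (M : ℝ)) =o[atTop] fun N : ℕ => (N : ℝ) :=
    (Lam_all hf hqpos).2.comp_tendsto tendsto_natCast_atTop_atTop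
  have h3 : (fun M : ℕ => S f (q * M) - q * S f M) =o[atTop] fun N : ℕ => (N : ℝ) := by
    have hc : (fun _ : ℕ => ((q : ℝ) + 1)) =o[atTop] fun N : ℕ => (N : ℝ) :=
      (isLittleO_const_id_atTop ((q : ℝ) + 1)).comp_tendsto tendsto_natCast_atTop_atTop
    refine IsBigO.trans_isLittleO ?_ (h2.norm_left.add hc)
    apply IsBigO.of_bound 1
    filter_upwards with M
    rw [one_mul]
    simp only [Real.norm_eq_abs]
    refine le_trans ?_ (le_abs_self _)
    have e1 : |S f (q * M) - sr f (q * (M : ℝ))| ≤ 1 := by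
      unfold sr
      have : ⌊(q : ℝ) * M⌋₊ = q * M := by
        rw [← Nat.cast_mul, Nat.floor_natCast]
      rw [this]
      refine (S_dist hf.nonneg hf.le_one _ _).trans ?_
      push_cast
      rw [abs_le]
      constructor <;> linarith
    have e2 : |S f M - sr f (M : ℝ)| ≤ 1 := by
      unfold sr
      rw [Nat.floor_natCast]
      refine (S_dist hf.nonneg hf.le_one _ _).trans ?_
      push_cast
      rw [abs_le]
      constructor <;> linarith
    have e3 : |(q : ℝ) * (S f M - sr f (M : ℝ))| ≤ q := by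
      rw [abs_mul, abs_of_pos hqpos]
      calc (q : ℝ) * |S f M - sr f (M : ℝ)| ≤ q * 1 := mul_le_mul_of_nonneg_left e2 hqpos.le
        _ = q := mul_one _
    have e4 : S f (q * M) - q * S f M = (S f (q * M) - sr f (q * (M : ℝ))) -
        q * (S f M - sr f (M : ℝ)) + (sr f (q * (M : ℝ)) - q * sr f (M : ℝ)) := by ring
    rw [e4]
    have e5 := abs_add_le ((S f (q * M) - sr f (q * (M : ℝ))) - q * (S f M - sr f (M : ℝ)))
      (sr f (q * (M : ℝ)) - q * sr f (M : ℝ))
    have e6 := abs_sub (S f (q * M) - sr f (q * (M : ℝ))) (q * (S f M - sr f (M : ℝ)))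
    linarith
  have h4 := (h1.add h3).const_mul_left (q : ℝ)⁻¹
  refine h4.congr_left ?_
  intro M
  unfold S
  field_simp
  ring

/-- The density function along every progression is asymptotic to the density function, at all
scales. -/
theorem main {f : ℕ → ℝ} (hf : Inv f) {q : ℕ} (hq : 1 ≤ q) (r : ℕ) {l : ℝ} (hl : 0 < l) :
    Tendsto (fun x : ℝ => sr (fun m => f (q * m + r)) (l * x) / (l * x) - sr f x / x)
      atTop (𝓝 0) := by
  have h1 : Tendsto (fun x : ℝ => ⌊l * x⌋₊ + 1) atTop atTop :=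
    (tendsto_add_atTop_nat 1).comp (tendsto_nat_floor_atTop.comp (tendsto_const_mul hl))
  have h2 : (fun x : ℝ => sr (fun m => f (q * m + r)) (l * x) - sr f (l * x)) =o[atTop]
      fun x : ℝ => l * x := by
    have h3 := (along_o hf hq r).comp_tendsto h1
    refine h3.trans_isBigO ?_
    apply IsBigO.of_bound 2
    filter_upwards [eventually_ge_atTop (1 / l)] with x hx
    have hx1 : 1 ≤ l * x := by
      rw [div_le_iff₀ hl] at hx
      linarith
    simp only [Function.comp_apply]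
    rw [Real.norm_natCast, Real.norm_of_nonneg (by linarith)]
    push_cast
    have := Nat.floor_le (by linarith : 0 ≤ l * x)
    linarith
  have h3 := h2.tendsto_div_nhds_zero.add (slow hf hl)
  rw [add_zero] at h3
  refine h3.congr ?_
  intro x
  rw [sub_div]
  ring

end Pool.Agent.Helper86.SlowVar
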