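import Mathlib

set_option autoImplicit false

open Complex Metric Set

namespace Pool.Agent.Helper86.FB

/-- Weak Bloch theorem: the range of a nonconstant entire function contains arbitrarily large
discs, all of whose points are taken with nonzero derivative. -/
theorem exists_ball_values {f : ℂ → ℂ} (hf : Differentiable ℂ f)
    (hnc : ∃ s s', f s ≠ f s') {ρ : ℝ} (hρ : 0 < ρ) :
    ∃ c, ∀ v ∈ ball c ρ, ∃ z, f z = v ∧ deriv f z ≠ 0 := by
  -- a point with nonzero derivative
  obtain ⟨z0, hz0⟩ : ∃ z0, deriv f z0 ≠ 0 := by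
    by_contra hcon
    push Not at hcon
    obtain ⟨s, s', hss⟩ := hnc
    exact hss (is_const_of_deriv_eq_zero hf hcon s s')
  have hA : 0 < ‖deriv f z0‖ := norm_pos_iff.2 hz0
  set A := ‖deriv f z0‖ with hAdef
  have hdf : Differentiable ℂ (deriv f) := by
    intro z
    exact ((hf.analyticAt z).deriv).differentiableAt
  set R : ℝ := 48 * ρ / A with hR
  have hRpos : 0 < R := by positivity
  set M : ℂ → ℝ := fun z => (R - ‖z - z0‖) * ‖deriv f z‖ with hM
  have hMc : Continuous M := by
    have := hdf.continuous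
    fun_prop
  obtain ⟨p, hpmem, hpmax⟩ := (isCompact_closedBall z0 R).exists_isMaxOn
    ⟨z0, mem_closedBall_self hRpos.le⟩ hMc.continuousOn
  have hMp : R * A ≤ M p := by
    have := hpmax (mem_closedBall_self hRpos.le : z0 ∈ closedBall z0 R)
    simpa [hM] using this
  have hpR : ‖p - z0‖ ≤ R := by simpa [dist_eq_norm] using hpmem
  set B := ‖deriv f p‖ with hB
  have hMpB : M p = (R - ‖p - z0‖) * B := rfl
  have hRA : 0 < R * A := by positivity
  have hB0 : 0 < B := by
    rcases (norm_nonneg (deriv f p)).eq_or_lt with h | h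
    · exfalso
      have : M p = 0 := by rw [hMpB, hB, ← h, mul_zero]
      linarith
    · exact h
  have hgap : 0 < R - ‖p - z0‖ := by
    by_contra hcon
    push Not at hcon
    have : M p ≤ 0 := by
      rw [hMpB]; exact mul_nonpos_of_nonpos_of_nonneg hcon hB0.le
    linarith
  set t : ℝ := (R - ‖p - z0‖) / 2 with ht
  have htpos : 0 < t := by positivity
  have hgt : R - ‖p - z0‖ = 2 * t := by rw [ht]; ring
  have hbound : ∀ z ∈ ball p t, ‖deriv f z‖ ≤ 2 * B := by
    intro z hz
    have hz' : ‖z - p‖ < t := by simpa [dist_eq_norm] using hz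
    have h1 : ‖z - z0‖ ≤ ‖z - p‖ + ‖p - z0‖ := norm_sub_le_norm_sub_add_norm_sub z p z0
    have h2 : t ≤ R - ‖z - z0‖ := by linarith
    have h3 : z ∈ closedBall z0 R := by
      rw [mem_closedBall, dist_eq_norm]; linarith
    have h4 : M z ≤ M p := hpmax h3
    have h5 : t * ‖deriv f z‖ ≤ M z := mul_le_mul_of_nonneg_right h2 (norm_nonneg _)
    rw [hMpB, hgt] at h4
    have h6 : t * ‖deriv f z‖ ≤ t * (2 * B) := by linarith
    exact le_of_mul_le_mul_left h6 htpos
  have hmaps : MapsTo (deriv f) (ball p t) (closedBall (deriv f p) (3 * B)) := by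
    intro z hz
    rw [mem_closedBall, dist_eq_norm]
    calc ‖deriv f z - deriv f p‖ ≤ ‖deriv f z‖ + ‖deriv f p‖ := norm_sub_le _ _
      _ ≤ 3 * B := by linarith [hbound z hz]
  have hschw : ∀ z ∈ ball p t, dist (deriv f z) (deriv f p) ≤ 3 * B / t * dist z p := by
    intro z hz
    exact Complex.dist_le_div_mul_dist_of_mapsTo_ball hdf.differentiableOn hmaps hz
  have hbd : ∀ x ∈ closedBall p (t / 6), ‖deriv f x - deriv f p‖ ≤ B / 2 := by
    intro x hx
    have hx' : dist x p ≤ t / 6 := hx
    have hxb : x ∈ ball p t := by rw [mem_ball]; linarith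
    have := hschw x hxb
    rw [dist_eq_norm (deriv f x)] at this
    calc ‖deriv f x - deriv f p‖ ≤ 3 * B / t * dist x p := this
      _ ≤ 3 * B / t * (t / 6) := by gcongr
      _ = B / 2 := by field_simp; ring
  -- linear approximation on the closed ball of radius `t/6`
  have hlin : ∀ z ∈ closedBall p (t / 6), ‖f z - f p - deriv f p * (z - p)‖ ≤ B * t / 12 := by
    intro z hz
    have hd : ∀ x ∈ closedBall p (t / 6),
        HasDerivWithinAt (fun w => f w - deriv f p * w) (deriv f x - deriv f p)
          (closedBall p (t / 6)) x := by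
      intro x _
      have h1 := (hf x).hasDerivAt
      have h2 : HasDerivAt (fun w => deriv f p * w) (deriv f p) x := by
        simpa using (hasDerivAt_id x).const_mul (deriv f p)
      exact (h1.sub h2).hasDerivWithinAt
    have hmv := (convex_closedBall p (t / 6)).norm_image_sub_le_of_norm_hasDerivWithin_le
      hd hbd (mem_closedBall_self (by positivity)) hz
    have hzp : ‖z - p‖ ≤ t / 6 := by simpa [dist_eq_norm] using hz
    calc ‖f z - f p - deriv f p * (z - p)‖
        = ‖(f z - deriv f p * z) - (f p - deriv f p * p)‖ := by congr 1; ring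
      _ ≤ B / 2 * ‖z - p‖ := hmv
      _ ≤ B / 2 * (t / 6) := by gcongr
      _ = B * t / 12 := by ring
  have hsph : ∀ z ∈ sphere p (t / 6), B * t / 12 ≤ ‖f z - f p‖ := by
    intro z hz
    have hz1 := hlin z (sphere_subset_closedBall hz)
    have hz2 : ‖z - p‖ = t / 6 := by simpa [dist_eq_norm] using hz
    have h3 : ‖deriv f p * (z - p)‖ = B * t / 6 := by rw [norm_mul, hz2]; ring
    have h4 : ‖deriv f p * (z - p)‖ ≤ ‖f z - f p‖ + ‖f z - f p - deriv f p * (z - p)‖ := by
      have := norm_sub_le (f z - f p) (f z - f p - deriv f p * (z - p))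
      simpa using this
    linarith
  have hfreq : ∃ᶠ z in nhds p, f z ≠ f p := by
    have hne : deriv f p ≠ 0 := norm_pos_iff.1 hB0
    have h1 : ∀ᶠ z in nhdsWithin p {p}ᶜ, f z ≠ f p :=
      (hf p).hasDerivAt.eventually_ne hne
    exact h1.frequently.filter_mono nhdsWithin_le_nhds
  have himg := (hf.diffContOnCl (s := ball p (t / 6))).ball_subset_image_closedBall
    (by positivity) hsph hfreq
  refine ⟨f p, fun v hv => ?_⟩
  have hrad : ρ ≤ B * t / 12 / 2 := by
    have h1 : R * A ≤ 2 * t * B := by rw [← hgt, ← hMpB]; exact hMp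
    have h2 : R * A = 48 * ρ := by rw [hR]; field_simp
    linarith
  obtain ⟨z, hz, hzv⟩ := himg (ball_subset_ball hrad hv)
  refine ⟨z, hzv, fun h0 => ?_⟩
  have h1 := hbd z hz
  rw [h0, zero_sub, norm_neg] at h1
  have : B ≤ B / 2 := h1
  linarith

end Pool.Agent.Helper86.FB
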