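import Mathlib

set_option autoImplicit false

open Complex

namespace Pool.Agent.Helper86.FB

/-- A continuous logarithm of a holomorphic function is holomorphic. -/
theorem differentiable_of_exp {E : Type*} [NormedAddCommGroup E] [NormedSpace ℂ E]
    {a f : E → ℂ} (ha : Continuous a) (hf : Differentiable ℂ f) (h : ∀ p, exp (a p) = f p) :
    Differentiable ℂ a := by
  intro p
  have hne : ∀ q, f q ≠ 0 := fun q => by rw [← h q]; exact exp_ne_zero _
  -- near `p`, `a q = a p + log (f q / f p)`
  have hnear : ∀ᶠ q in nhds p, |(a q - a p).im| < Real.pi := by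
    have hc : Continuous fun q => |(a q - a p).im| := by fun_prop
    have : (fun q => |(a q - a p).im|) p < Real.pi := by simp [Real.pi_pos]
    exact hc.continuousAt.eventually_lt continuousAt_const this
  have heq : ∀ᶠ q in nhds p, a q = a p + log (f q / f p) := by
    filter_upwards [hnear] with q hq
    have h1 : f q / f p = exp (a q - a p) := by rw [exp_sub, h q, h p]
    have h2 := abs_lt.1 hq
    rw [h1, log_exp h2.1 h2.2.le]
    ring
  have hd : DifferentiableAt ℂ (fun q => a p + log (f q / f p)) p := by
    refine (DifferentiableAt.clog ?_ ?_).const_add _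
    · have : DifferentiableAt ℂ (fun q => f q * (f p)⁻¹) p := (hf p).mul_const _
      simpa only [div_eq_mul_inv] using this
    · rw [div_self (hne p)]
      exact one_mem_slitPlane
  exact hd.congr_of_eventuallyEq heq

/-- Every zero-free entire function on `ℂ²` has an entire logarithm. -/
theorem exists_log {f : ℂ × ℂ → ℂ} (hf : Differentiable ℂ f) (h0 : ∀ p, f p ≠ 0) :
    ∃ a : ℂ × ℂ → ℂ, Differentiable ℂ a ∧ ∀ p, exp (a p) = f p := by
  have hsc : IsSimplyConnected (Set.univ : Set (ℂ × ℂ)) := by
    have : ContractibleSpace (Set.univ : Set (ℂ × ℂ)) :=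
      (convex_univ : Convex ℝ (Set.univ : Set (ℂ × ℂ))).contractibleSpace Set.univ_nonempty
    exact SimplyConnectedSpace.ofContractible _
  obtain ⟨a, hac, hae⟩ := Complex.exists_continuousOn_eqOn_exp_comp hsc isOpen_univ
    (g := f) hf.continuous.continuousOn (by
      rintro ⟨p, -, hp⟩
      exact h0 p hp)
  have hac' : Continuous a := continuousOn_univ.1 hac
  have hae' : ∀ p, exp (a p) = f p := fun p => hae (Set.mem_univ p)
  exact ⟨a, differentiable_of_exp hac' hf hae', hae'⟩

/-- Liouville: an entire function of one variable that omits a nonempty open set is constant. -/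
theorem const_of_omits {w : ℂ → ℂ} (hw : Differentiable ℂ w) {V : Set ℂ} (hV : IsOpen V)
    (hVn : V.Nonempty) (h : ∀ s, w s ∉ V) : ∀ s s', w s = w s' := by
  obtain ⟨v, hv⟩ := hVn
  obtain ⟨ε, hε, hball⟩ := Metric.isOpen_iff.1 hV v hv
  have hge : ∀ s, ε ≤ ‖w s - v‖ := by
    intro s
    by_contra hcon
    push Not at hcon
    exact h s (hball (by rw [Metric.mem_ball, dist_eq_norm]; exact hcon))
  have hne : ∀ s, w s - v ≠ 0 := fun s => by
    intro h0
    have := hge s
    rw [h0, norm_zero] at this
    linarith
  have hd : Differentiable ℂ fun s => (w s - v)⁻¹ := fun s =>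
    ((hw s).sub_const v).inv (hne s)
  have hb : Bornology.IsBounded (Set.range fun s => (w s - v)⁻¹) := by
    rw [isBounded_iff_forall_norm_le]
    refine ⟨ε⁻¹, ?_⟩
    rintro _ ⟨s, rfl⟩
    simp only [norm_inv]
    exact inv_anti₀ hε (hge s)
  intro s s'
  have := hd.apply_eq_apply_of_bounded hb s s'
  simp only [inv_inj] at this
  exact sub_left_injective this

/-- The range of a nonconstant entire function of one variable is open. -/
theorem isOpen_range_of_not_const {w : ℂ → ℂ} (hw : Differentiable ℂ w)
    (h : ∃ s s', w s ≠ w s') : IsOpen (Set.range w) := by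
  have han : AnalyticOnNhd ℂ w Set.univ := fun z _ => hw.analyticAt z
  rcases han.is_constant_or_isOpen isPreconnected_univ with ⟨c, hc⟩ | ho
  · obtain ⟨s, s', hss⟩ := h
    exact absurd ((hc s trivial).trans (hc s' trivial).symm) hss
  · have := ho Set.univ (Set.subset_univ _) isOpen_univ
    rwa [Set.image_univ] at this

end Pool.Agent.Helper86.FB
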