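import Mathlib

set_option autoImplicit false

open Complex Metric Set Filter Topology

namespace Pool.Agent.Helper86.FB

/-- The first partial derivative of an entire function on `ℂ²` is continuous. -/
theorem continuous_partial {u : ℂ × ℂ → ℂ} (hu : Differentiable ℂ u) :
    Continuous fun p : ℂ × ℂ => deriv (fun x => u (x, p.2)) p.1 := by
  rw [continuous_iff_continuousAt]
  rintro ⟨x0, y0⟩
  -- `u (·, y) → u (·, y0)` locally uniformly
  let U : C(ℂ × ℂ, ℂ) := ⟨fun q => u (q.2, q.1), by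
    have := hu.continuous
    fun_prop⟩
  have h1 : Tendsto (fun y => U.curry y) (𝓝 y0) (𝓝 (U.curry y0)) := (U.curry.continuous).tendsto y0
  rw [ContinuousMap.tendsto_iff_tendstoLocallyUniformly] at h1
  have h2 : TendstoLocallyUniformlyOn (fun y x => u (x, y)) (fun x => u (x, y0)) (𝓝 y0) univ :=
    tendstoLocallyUniformlyOn_univ.2 h1
  have hdiff : ∀ y, Differentiable ℂ fun x => u (x, y) := fun y =>
    hu.comp ((differentiable_id).prodMk (differentiable_const y))
  have h3 := h2.deriv (Eventually.of_forall fun y => (hdiff y).differentiableOn) isOpen_univ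
  rw [tendstoLocallyUniformlyOn_univ] at h3
  have hcont : ContinuousAt (deriv fun x => u (x, y0)) x0 := by
    have : Differentiable ℂ (deriv fun x => u (x, y0)) := fun z =>
      (((hdiff y0).analyticAt z).deriv).differentiableAt
    exact this.continuous.continuousAt
  have h4 : Tendsto (fun p : ℂ × ℂ => (fun y x => deriv (fun x => u (x, y)) x) p.2 p.1)
      (𝓝 (x0, y0)) (𝓝 (deriv (fun x => u (x, y0)) x0)) := by
    refine tendsto_comp_of_locally_uniform_limit (F := fun p : ℂ × ℂ =>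
      deriv (fun x => u (x, p.2))) (g := fun p => p.1) hcont
      (continuous_fst.tendsto _) ?_
    intro V hV
    obtain ⟨t, ht, hev⟩ := h3 V hV x0
    refine ⟨t, ht, ?_⟩
    have h5 : Tendsto (fun p : ℂ × ℂ => p.2) (𝓝 (x0, y0)) (𝓝 y0) := continuous_snd.tendsto _
    exact h5.eventually hev
  exact h4

/-- An entire function on `ℂ²` is continuously differentiable. -/
theorem contDiff_one {u : ℂ × ℂ → ℂ} (hu : Differentiable ℂ u) : ContDiff ℂ 1 u := by
  rw [contDiff_one_iff_fderiv]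
  refine ⟨hu, ?_⟩
  have hu' : Differentiable ℂ fun q : ℂ × ℂ => u (q.2, q.1) :=
    hu.comp (differentiable_snd.prodMk differentiable_fst)
  have c1 := continuous_partial hu
  have c2 := (continuous_partial hu').comp continuous_swap
  have hx : ∀ p : ℂ × ℂ, deriv (fun x => u (x, p.2)) p.1 = fderiv ℂ u p (1, 0) := by
    intro p
    have h1 : HasFDerivAt u (fderiv ℂ u p) (p.1, p.2) := (hu p).hasFDerivAt
    have h2 : HasDerivAt (fun x : ℂ => (x, p.2)) (1, 0) p.1 :=
      (hasDerivAt_id p.1).prodMk (hasDerivAt_const p.1 p.2)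
    exact (h1.comp_hasDerivAt p.1 h2).deriv
  have hy : ∀ p : ℂ × ℂ, deriv (fun y => u (p.1, y)) p.2 = fderiv ℂ u p (0, 1) := by
    intro p
    have h1 : HasFDerivAt u (fderiv ℂ u p) (p.1, p.2) := (hu p).hasFDerivAt
    have h2 : HasDerivAt (fun y : ℂ => (p.1, y)) (0, 1) p.2 :=
      (hasDerivAt_const p.2 p.1).prodMk (hasDerivAt_id p.2)
    exact (h1.comp_hasDerivAt p.2 h2).deriv
  have heq : fderiv ℂ u = fun p =>
      (deriv (fun x => u (x, p.2)) p.1) • ContinuousLinearMap.fst ℂ ℂ ℂ +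
      (deriv (fun y => u (p.1, y)) p.2) • ContinuousLinearMap.snd ℂ ℂ ℂ := by
    funext p
    rw [hx, hy]
    ext <;> simp
  rw [heq]
  have c2' : Continuous fun p : ℂ × ℂ => deriv (fun y => u (p.1, y)) p.2 := c2
  exact (c1.smul continuous_const).add (c2'.smul continuous_const)

/-- Slices of the image: if `(u, v)` is an injective holomorphic map of `ℂ²` and the level set
`{u = u P}` is smooth at `P` in the sense `∂u/∂x (P) ≠ 0`, then `v` takes on this level set
all values of some nonempty open set. -/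
theorem open_slice {u v : ℂ × ℂ → ℂ} (hu : Differentiable ℂ u) (hv : Differentiable ℂ v)
    (hinj : Function.Injective fun p => (u p, v p)) (P : ℂ × ℂ)
    (hP : deriv (fun x => u (x, P.2)) P.1 ≠ 0) :
    ∃ V : Set ℂ, IsOpen V ∧ V.Nonempty ∧ ∀ w ∈ V, ∃ Q, u Q = u P ∧ v Q = w := by
  set Φ : ℂ × ℂ → ℂ × ℂ := fun p => (u p, p.2) with hΦ
  have hΦc : ContDiff ℂ 1 Φ := (contDiff_one hu).prodMk contDiff_snd
  set D : ℂ × ℂ →L[ℂ] ℂ × ℂ := (fderiv ℂ u P).prod (ContinuousLinearMap.snd ℂ ℂ ℂ) with hD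
  have hder : HasFDerivAt Φ D P := ((hu P).hasFDerivAt).prodMk hasFDerivAt_snd
  have hx : fderiv ℂ u P (1, 0) ≠ 0 := by
    have h1 : HasFDerivAt u (fderiv ℂ u P) (P.1, P.2) := (hu P).hasFDerivAt
    have h2 : HasDerivAt (fun x : ℂ => (x, P.2)) (1, 0) P.1 :=
      (hasDerivAt_id P.1).prodMk (hasDerivAt_const P.1 P.2)
    rw [← (h1.comp_hasDerivAt P.1 h2).deriv]
    exact hP
  -- `D` is invertible
  have hDinj : Function.Injective D := by
    rw [injective_iff_map_eq_zero]
    rintro ⟨ξ, τ⟩ h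
    have h1 : fderiv ℂ u P (ξ, τ) = 0 := (Prod.ext_iff.1 h).1
    have h2 : τ = 0 := (Prod.ext_iff.1 h).2
    subst h2
    have h3 : ((ξ, 0) : ℂ × ℂ) = ξ • (1, 0) := by simp
    rw [h3, map_smul, smul_eq_mul] at h1
    rcases mul_eq_zero.1 h1 with h4 | h4
    · rw [h4]; rfl
    · exact absurd h4 hx
  have hDsurj : Function.Surjective D := by
    have := LinearMap.injective_iff_surjective (f := (D : ℂ × ℂ →ₗ[ℂ] ℂ × ℂ))
    exact this.1 hDinj
  let De : (ℂ × ℂ) ≃L[ℂ] (ℂ × ℂ) :=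
    ContinuousLinearEquiv.ofBijective D (LinearMap.ker_eq_bot.2 hDinj)
      (LinearMap.range_eq_top.2 hDsurj)
  have hDe : HasFDerivAt Φ (De : ℂ × ℂ →L[ℂ] ℂ × ℂ) P := by
    have : (De : ℂ × ℂ →L[ℂ] ℂ × ℂ) = D := by ext <;> simp [De]
    rw [this]; exact hder
  have hca : ContDiffAt ℂ 1 Φ P := hΦc.contDiffAt
  have hn : (1 : WithTop ℕ∞) ≠ 0 := one_ne_zero
  set Ψ := hca.localInverse hDe hn with hΨ
  have hΨc : ContDiffAt ℂ 1 Ψ (Φ P) := hca.to_localInverse hDe hn
  -- `Φ (Ψ y) = y` near `Φ P`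
  have hright : ∀ᶠ y in 𝓝 (Φ P), Φ (Ψ y) = y := by
    have hs : HasStrictFDerivAt Φ (De : ℂ × ℂ →L[ℂ] ℂ × ℂ) P := hca.hasStrictFDerivAt' hDe hn
    exact hs.eventually_right_inverse
  have hΨd : ∀ᶠ y in 𝓝 (Φ P), DifferentiableAt ℂ Ψ y := by
    have h1 : ∀ᶠ y in 𝓝 (Φ P), ContDiffAt ℂ 1 Ψ y := hΨc.eventually (by simp)
    exact h1.mono fun y hy => hy.differentiableAt one_ne_zero
  -- the analytic curve `t ↦ Ψ (u P, t)`
  set ι : ℂ → ℂ × ℂ := fun t => (u P, t) with hι
  have hιc : Continuous ι := by fun_prop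
  have hιP : ι P.2 = Φ P := rfl
  have hev : ∀ᶠ t in 𝓝 P.2, Φ (Ψ (ι t)) = ι t ∧ DifferentiableAt ℂ Ψ (ι t) := by
    have h1 : Tendsto ι (𝓝 P.2) (𝓝 (Φ P)) := hιc.tendsto P.2
    exact h1.eventually (hright.and hΨd)
  obtain ⟨ε, hε, hball⟩ := Metric.eventually_nhds_iff_ball.1 hev
  set w : ℂ → ℂ := fun t => v (Ψ (ι t)) with hw
  have hwd : DifferentiableOn ℂ w (ball P.2 ε) := by
    intro t ht
    have h1 := (hball t ht).2
    have h2 : DifferentiableAt ℂ ι t := by
      have : Differentiable ℂ ι := by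
        intro s
        exact (differentiableAt_const _).prodMk differentiableAt_id
      exact this t
    exact ((hv _).comp t (h1.comp t h2)).differentiableWithinAt
  have hwan : AnalyticAt ℂ w P.2 :=
    hwd.analyticAt (isOpen_ball.mem_nhds (mem_ball_self hε))
  have hwinj : Set.InjOn w (ball P.2 ε) := by
    intro t ht s hs hts
    have h1 := (hball t ht).1
    have h2 := (hball s hs).1
    have e1 : u (Ψ (ι t)) = u P := (Prod.ext_iff.1 h1).1
    have e2 : u (Ψ (ι s)) = u P := (Prod.ext_iff.1 h2).1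
    have h3 : Ψ (ι t) = Ψ (ι s) := by
      apply hinj
      simp only [Prod.mk.injEq]
      exact ⟨e1.trans e2.symm, hts⟩
    have h4 : ι t = ι s := by rw [← h1, ← h2, h3]
    exact (Prod.ext_iff.1 h4).2
  rcases hwan.eventually_constant_or_nhds_le_map_nhds with hconst | hopen
  · exfalso
    obtain ⟨δ, hδ, hδb⟩ := Metric.eventually_nhds_iff_ball.1 hconst
    set r := min ε δ / 2 with hr
    have hrpos : 0 < r := by positivity
    have hmem1 : P.2 + r ∈ ball P.2 ε := by
      rw [mem_ball, dist_eq_norm]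
      simp only [add_sub_cancel_left, Complex.norm_real, Real.norm_eq_abs, abs_of_pos hrpos]
      have := min_le_left ε δ
      rw [hr]; linarith [lt_min hε hδ]
    have hmem2 : P.2 + r ∈ ball P.2 δ := by
      rw [mem_ball, dist_eq_norm]
      simp only [add_sub_cancel_left, Complex.norm_real, Real.norm_eq_abs, abs_of_pos hrpos]
      have := min_le_right ε δ
      rw [hr]; linarith [lt_min hε hδ]
    have h1 := hδb _ hmem2
    have h2 := hwinj hmem1 (mem_ball_self hε) h1
    have h3 : (r : ℂ) = 0 := by simpa using h2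
    have : r = 0 := by exact_mod_cast h3
    linarith
  · have himg : w '' ball P.2 ε ∈ 𝓝 (w P.2) :=
      hopen (image_mem_map (ball_mem_nhds _ hε))
    obtain ⟨V, hVsub, hVo, hVm⟩ := _root_.mem_nhds_iff.1 himg
    refine ⟨V, hVo, ⟨_, hVm⟩, ?_⟩
    intro z hz
    obtain ⟨t, ht, htz⟩ := hVsub hz
    exact ⟨Ψ (ι t), (Prod.ext_iff.1 (hball t ht).1).1, htz⟩

/-- Version of `open_slice` for an arbitrary direction. -/
theorem open_slice_dir {u v : ℂ × ℂ → ℂ} (hu : Differentiable ℂ u) (hv : Differentiable ℂ v)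
    (hinj : Function.Injective fun p => (u p, v p)) (P e : ℂ × ℂ)
    (hP : deriv (fun s : ℂ => u (P + s • e)) 0 ≠ 0) :
    ∃ V : Set ℂ, IsOpen V ∧ V.Nonempty ∧ ∀ w ∈ V, ∃ Q, u Q = u P ∧ v Q = w := by
  have he : e ≠ 0 := by
    rintro rfl
    apply hP
    simp
  -- a complementary direction
  obtain ⟨e2, he2⟩ : ∃ e2 : ℂ × ℂ, ∀ x t : ℂ, x • e + t • e2 = 0 → x = 0 ∧ t = 0 := by
    by_cases h1 : e.1 = 0
    · have h2 : e.2 ≠ 0 := fun h => he (Prod.ext h1 h)
      refine ⟨(1, 0), fun x t h => ?_⟩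
      have ha := (Prod.ext_iff.1 h).1
      have hb := (Prod.ext_iff.1 h).2
      simp only [Prod.fst_add, Prod.smul_fst, smul_eq_mul, h1, mul_zero, zero_add, mul_one,
        Prod.fst_zero] at ha
      simp only [Prod.snd_add, Prod.smul_snd, smul_eq_mul, mul_zero, add_zero,
        Prod.snd_zero] at hb
      exact ⟨(mul_eq_zero.1 hb).resolve_right h2, ha⟩
    · refine ⟨(0, 1), fun x t h => ?_⟩
      have ha := (Prod.ext_iff.1 h).1
      have hb := (Prod.ext_iff.1 h).2
      simp only [Prod.fst_add, Prod.smul_fst, smul_eq_mul, mul_zero, add_zero,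
        Prod.fst_zero] at ha
      have hx := (mul_eq_zero.1 ha).resolve_right h1
      simp only [Prod.snd_add, Prod.smul_snd, smul_eq_mul, hx, zero_mul, zero_add, mul_one,
        Prod.snd_zero] at hb
      exact ⟨hx, hb⟩
  set L : ℂ × ℂ → ℂ × ℂ := fun q => P + (q.1 • e + q.2 • e2) with hL
  have hLd : Differentiable ℂ L := by
    intro q
    have h1 : DifferentiableAt ℂ (fun q : ℂ × ℂ => q.1 • e) q :=
      (differentiableAt_fst).smul_const e
    have h2 : DifferentiableAt ℂ (fun q : ℂ × ℂ => q.2 • e2) q :=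
      (differentiableAt_snd).smul_const e2
    exact (h1.add h2).const_add P
  have hLinj : Function.Injective L := by
    intro q q' h
    simp only [hL, add_right_inj] at h
    have h1 : (q.1 - q'.1) • e + (q.2 - q'.2) • e2 = 0 := by
      have : (q.1 - q'.1) • e + (q.2 - q'.2) • e2
          = (q.1 • e + q.2 • e2) - (q'.1 • e + q'.2 • e2) := by
        rw [sub_smul, sub_smul]; abel
      rw [this, h, sub_self]
    obtain ⟨h2, h3⟩ := he2 _ _ h1
    exact Prod.ext (sub_eq_zero.1 h2) (sub_eq_zero.1 h3)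
  have hP' : deriv (fun x => (u ∘ L) (x, ((0, 0) : ℂ × ℂ).2)) ((0, 0) : ℂ × ℂ).1 ≠ 0 := by
    have : (fun x => (u ∘ L) (x, ((0, 0) : ℂ × ℂ).2)) = fun s : ℂ => u (P + s • e) := by
      funext s
      simp [hL]
    rw [this]
    exact hP
  obtain ⟨V, hV, hVn, hVw⟩ := open_slice (hu.comp hLd) (hv.comp hLd)
    (show Function.Injective fun p => ((u ∘ L) p, (v ∘ L) p) from hinj.comp hLinj) (0, 0) hP'
  refine ⟨V, hV, hVn, fun w hw => ?_⟩
  obtain ⟨Q, hQ1, hQ2⟩ := hVw w hw
  refine ⟨L Q, ?_, hQ2⟩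
  have : u (L Q) = u (L (0, 0)) := hQ1
  rw [this]
  simp [hL]

end Pool.Agent.Helper86.FB
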