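import Mathlib
import Pool.Agent.Helper86.FBLog
import Pool.Agent.Helper86.FBOpen
import Pool.Agent.Helper86.BlochLarge

set_option autoImplicit false

open Complex Metric Set Filter Topology ComplexConjugate

namespace Pool.Agent.Helper86.FB

section core

variable {a b : ℂ × ℂ → ℂ} {α β : ℂ}

/-- the linear combination `α a + β b` -/
def uu (a b : ℂ × ℂ → ℂ) (α β : ℂ) : ℂ × ℂ → ℂ := fun p => α * a p + β * b p

/-- the complementary combination -/
noncomputable def vv (a b : ℂ × ℂ → ℂ) (α β : ℂ) : ℂ × ℂ → ℂ :=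
  fun p => -(conj β) * a p + (conj α) * b p

/-- lattice values of the first form -/
noncomputable def lam (α β : ℂ) (m n : ℤ) : ℂ := 2 * Real.pi * I * (α * m + β * n)

/-- lattice values of the second form -/
noncomputable def mu (α β : ℂ) (m n : ℤ) : ℂ :=
  2 * Real.pi * I * (-(conj β) * m + (conj α) * n)

theorem uu_diff (ha : Differentiable ℂ a) (hb : Differentiable ℂ b) :
    Differentiable ℂ (uu a b α β) := by
  unfold uu; fun_prop

theorem vv_diff (ha : Differentiable ℂ a) (hb : Differentiable ℂ b) :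
    Differentiable ℂ (vv a b α β) := by
  unfold vv; fun_prop

theorem det_ne (h : ¬ (α = 0 ∧ β = 0)) : α * conj α + β * conj β ≠ 0 := by
  rw [mul_conj, mul_conj]
  intro h0
  apply h
  have h1 : normSq α + normSq β = 0 := by exact_mod_cast h0
  have h2 := normSq_nonneg α
  have h3 := normSq_nonneg β
  constructor
  · exact normSq_eq_zero.1 (by linarith)
  · exact normSq_eq_zero.1 (by linarith)

theorem solve_a (h : ¬ (α = 0 ∧ β = 0)) {x y x' y' : ℂ}
    (h1 : α * x + β * y = α * x' + β * y')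
    (h2 : -(conj β) * x + (conj α) * y = -(conj β) * x' + (conj α) * y') : x = x' ∧ y = y' := by
  have hd := det_ne h
  constructor
  · have : (α * conj α + β * conj β) * (x - x') = 0 := by
      linear_combination (conj α) * h1 - β * h2
    exact sub_eq_zero.1 ((mul_eq_zero.1 this).resolve_left hd)
  · have : (α * conj α + β * conj β) * (y - y') = 0 := by
      linear_combination (conj β) * h1 + α * h2
    exact sub_eq_zero.1 ((mul_eq_zero.1 this).resolve_left hd)

theorem pair_inj (hinj : Function.Injective fun p => (exp (a p), exp (b p)))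
    (h : ¬ (α = 0 ∧ β = 0)) :
    Function.Injective fun p => (uu a b α β p, vv a b α β p) := by
  intro p q hpq
  have h1 := (Prod.ext_iff.1 hpq).1
  have h2 := (Prod.ext_iff.1 hpq).2
  obtain ⟨h3, h4⟩ := solve_a h h1 h2
  apply hinj
  simp only [h3, h4]

theorem no_shift (hinj : Function.Injective fun p => (exp (a p), exp (b p)))
    (h : ¬ (α = 0 ∧ β = 0)) {m n : ℤ} (hmn : ¬ (m = 0 ∧ n = 0)) (P Q : ℂ × ℂ)
    (h1 : uu a b α β Q = uu a b α β P + lam α β m n) :
    vv a b α β Q ≠ vv a b α β P + mu α β m n := by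
  intro h2
  have h1' : α * a Q + β * b Q
      = α * (a P + 2 * Real.pi * I * m) + β * (b P + 2 * Real.pi * I * n) := by
    simp only [uu, lam] at h1
    rw [h1]; ring
  have h2' : -(conj β) * a Q + (conj α) * b Q
      = -(conj β) * (a P + 2 * Real.pi * I * m) + (conj α) * (b P + 2 * Real.pi * I * n) := by
    simp only [vv, mu] at h2
    rw [h2]; ring
  obtain ⟨h3, h4⟩ := solve_a h h1' h2'
  have e1 : exp (a Q) = exp (a P) := by
    rw [h3]
    exact exp_eq_exp_iff_exists_int.2 ⟨m, by ring⟩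
  have e2 : exp (b Q) = exp (b P) := by
    rw [h4]
    exact exp_eq_exp_iff_exists_int.2 ⟨n, by ring⟩
  have hPQ : Q = P := hinj (by simp only [e1, e2])
  rw [hPQ] at h3 h4
  have hpi : (2 * Real.pi * I : ℂ) ≠ 0 := two_pi_I_ne_zero
  have hm : (m : ℂ) = 0 := by
    have : 2 * Real.pi * I * (m : ℂ) = 0 := by linear_combination -h3
    exact (mul_eq_zero.1 this).resolve_left hpi
  have hn : (n : ℂ) = 0 := by
    have : 2 * Real.pi * I * (n : ℂ) = 0 := by linear_combination -h4
    exact (mul_eq_zero.1 this).resolve_left hpi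
  exact hmn ⟨by exact_mod_cast hm, by exact_mod_cast hn⟩

/-- `u` is not constant. -/
theorem uu_nonconst (ha : Differentiable ℂ a) (hb : Differentiable ℂ b)
    (hinj : Function.Injective fun p => (exp (a p), exp (b p)))
    (h : ¬ (α = 0 ∧ β = 0)) (c : ℂ) : ∃ P, uu a b α β P ≠ c := by
  by_contra hcon
  push Not at hcon
  have hpi := pair_inj hinj h
  have hvd := vv_diff (α := α) (β := β) ha hb
  -- the slices `x ↦ v (x, t)`
  have hs : ∀ t : ℂ, Differentiable ℂ fun x : ℂ => vv a b α β (x, t) := fun t =>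
    hvd.comp (differentiable_id.prodMk (differentiable_const t))
  have hne : ∀ x t x' t' : ℂ, (x, t) ≠ (x', t') → vv a b α β (x, t) ≠ vv a b α β (x', t') := by
    intro x t x' t' h1 h2
    apply h1
    apply hpi
    simp only [Prod.mk.injEq]
    exact ⟨by rw [hcon, hcon], h2⟩
  have ho : IsOpen (range fun x : ℂ => vv a b α β (x, 0)) :=
    isOpen_range_of_not_const (hs 0) ⟨0, 1, hne _ _ _ _ (by simp)⟩
  have hc := const_of_omits (hs 1) ho (range_nonempty _) (by
    rintro s ⟨x, hx⟩
    exact hne x 0 s 1 (by simp) hx) 0 1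
  exact hne 0 1 1 1 (by simp) hc

/-- If the value `c + λ(m,n)` with `(m,n) ≠ 0` is taken by `u` with nonzero derivative, then no
nonconstant entire curve lies in the level set `{u = c}`. -/
theorem curve_aux (ha : Differentiable ℂ a) (hb : Differentiable ℂ b)
    (hinj : Function.Injective fun p => (exp (a p), exp (b p)))
    (h : ¬ (α = 0 ∧ β = 0)) {m n : ℤ} (hmn : ¬ (m = 0 ∧ n = 0))
    {φ : ℂ → ℂ × ℂ} (hφ : Differentiable ℂ φ) (hu : ∀ s, uu a b α β (φ s) = uu a b α β (φ 0))
    (P e : ℂ × ℂ) (hP : uu a b α β P = uu a b α β (φ 0) + lam α β m n)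
    (hder : deriv (fun s : ℂ => uu a b α β (P + s • e)) 0 ≠ 0) :
    ∀ s s', φ s = φ s' := by
  have hpi := pair_inj hinj h
  have hud := uu_diff (α := α) (β := β) ha hb
  have hvd := vv_diff (α := α) (β := β) ha hb
  obtain ⟨V, hV, hVn, hVw⟩ := open_slice_dir hud hvd hpi P e hder
  have hc := const_of_omits (w := fun s => vv a b α β (φ s) + mu α β m n)
    ((hvd.comp hφ).add_const _) hV hVn (by
      intro s hs
      obtain ⟨Q, hQ1, hQ2⟩ := hVw _ hs
      refine no_shift hinj h hmn (φ s) Q ?_ hQ2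
      rw [hQ1, hP, hu s])
  intro s s'
  apply hpi
  simp only [Prod.mk.injEq]
  exact ⟨by rw [hu s, hu s'], add_right_cancel (hc s s')⟩

/-- No nonconstant entire curve lies in a level set of `α a + β b`. -/
theorem no_curve (ha : Differentiable ℂ a) (hb : Differentiable ℂ b)
    (hinj : Function.Injective fun p => (exp (a p), exp (b p)))
    (h : ¬ (α = 0 ∧ β = 0)) {φ : ℂ → ℂ × ℂ} (hφ : Differentiable ℂ φ)
    (hu : ∀ s, uu a b α β (φ s) = uu a b α β (φ 0)) : ∀ s s', φ s = φ s' := by
  have hpi := pair_inj hinj h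
  have hud := uu_diff (α := α) (β := β) ha hb
  have hvd := vv_diff (α := α) (β := β) ha hb
  -- a line through `φ 0` on which `u` is not constant
  obtain ⟨P2, hP2⟩ := uu_nonconst ha hb hinj h (uu a b α β (φ 0))
  set c := uu a b α β (φ 0) with hc
  set e : ℂ × ℂ := P2 - φ 0 with he
  set f : ℂ → ℂ := fun s => uu a b α β (φ 0 + s • e) with hf
  have hLd : Differentiable ℂ fun s : ℂ => φ 0 + s • e := by
    intro s
    have h1 : DifferentiableAt ℂ (fun s : ℂ => s • e) s := (differentiableAt_id).smul_const e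
    exact h1.const_add _
  have hfd : Differentiable ℂ f := hud.comp hLd
  have hf0 : f 0 = c := by simp [hf, hc]
  have hf1 : f 1 ≠ c := by
    have : f 1 = uu a b α β P2 := by simp [hf, he]
    rw [this]; exact hP2
  -- if `f s = c + λ` with `f' s ≠ 0` we are done
  have key : ∀ (m n : ℤ), ¬ (m = 0 ∧ n = 0) → ∀ s, f s = c + lam α β m n → deriv f s ≠ 0 →
      ∀ s s', φ s = φ s' := by
    intro m n hmn s hs hds
    refine curve_aux ha hb hinj h hmn hφ hu (φ 0 + s • e) e hs ?_
    have h1 : (fun x : ℂ => uu a b α β (φ 0 + s • e + x • e)) = fun x => f (s + x) := by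
      funext x
      simp only [hf, add_smul, add_assoc]
    rw [h1, deriv_comp_const_add, add_zero]
    exact hds
  -- case (i): a lattice vector in the kernel
  by_cases hker : ∃ m n : ℤ, ¬ (m = 0 ∧ n = 0) ∧ lam α β m n = 0
  · obtain ⟨m, n, hmn, hl⟩ := hker
    by_contra hcon
    push Not at hcon
    obtain ⟨s, s', hss⟩ := hcon
    have hwd : Differentiable ℂ fun s => vv a b α β (φ s) := hvd.comp hφ
    have hwn : ∃ s s', (fun s => vv a b α β (φ s)) s ≠ (fun s => vv a b α β (φ s)) s' := by
      refine ⟨s, s', fun h1 => hss (hpi ?_)⟩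
      simp only [Prod.mk.injEq]
      exact ⟨by rw [hu s, hu s'], h1⟩
    have ho := isOpen_range_of_not_const hwd hwn
    have hc' := const_of_omits (w := fun s => vv a b α β (φ s) + mu α β m n)
      (hwd.add_const _) ho (range_nonempty _) (by
        rintro t ⟨t', ht'⟩
        refine no_shift hinj h hmn (φ t) (φ t') ?_ ht'
        rw [hl, add_zero, hu t, hu t'])
    obtain ⟨t, t', htt⟩ := hwn
    exact htt (add_right_cancel (hc' t t'))
  push Not at hker
  -- the derivative of `f` does not vanish near `0` (off `0`)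
  have hfne : ∀ᶠ s in 𝓝[≠] (0 : ℂ), deriv f s ≠ 0 := by
    have han : AnalyticAt ℂ (deriv f) 0 := (hfd.analyticAt 0).deriv
    rcases han.eventually_eq_zero_or_eventually_ne_zero with h0 | h0
    · exfalso
      have han' : AnalyticOnNhd ℂ (deriv f) univ := fun z _ => (hfd.analyticAt z).deriv
      have hz : ∀ z, deriv f z = 0 := fun z =>
        han'.eqOn_zero_of_preconnected_of_eventuallyEq_zero isPreconnected_univ
          (mem_univ 0) h0 (mem_univ z)
      exact hf1 ((is_const_of_deriv_eq_zero hfd hz 1 0).trans hf0)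
    · exact h0
  by_cases hsmall : ∀ ε : ℝ, 0 < ε → ∃ m n : ℤ, ¬ (m = 0 ∧ n = 0) ∧ ‖lam α β m n‖ < ε
  · -- case (ii)
    obtain ⟨r, hr, hrb⟩ := Metric.mem_nhdsWithin_iff.1 hfne
    have hopen : f '' ball 0 r ∈ 𝓝 (f 0) := by
      rcases (hfd.analyticAt 0).eventually_constant_or_nhds_le_map_nhds with h0 | h0
      · exfalso
        have han' : AnalyticOnNhd ℂ f univ := fun z _ => hfd.analyticAt z
        have := han'.eqOn_of_preconnected_of_eventuallyEq (g := fun _ => f 0)
          (fun z _ => analyticAt_const) isPreconnected_univ (mem_univ 0) h0 (mem_univ 1)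
        exact hf1 (this.trans hf0)
      · exact h0 (image_mem_map (ball_mem_nhds _ hr))
    obtain ⟨ε, hε, hεb⟩ := Metric.mem_nhds_iff.1 hopen
    obtain ⟨m, n, hmn, hlt⟩ := hsmall ε hε
    have hmem : c + lam α β m n ∈ ball (f 0) ε := by
      rw [hf0, mem_ball, dist_eq_norm]; simpa using hlt
    obtain ⟨s, hs, hsf⟩ := hεb hmem
    have hs0 : s ≠ 0 := by
      rintro rfl
      rw [hf0] at hsf
      exact hker m n (fun h1 h2 => hmn ⟨h1, h2⟩) (by simpa using hsf)
    exact key m n hmn s hsf (hrb ⟨hs, hs0⟩)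
  · -- case (iii): a genuine lattice
    push Not at hsmall
    obtain ⟨ε, hε, hεl⟩ := hsmall
    -- `α, β` are linearly independent over `ℝ`
    have hβ : β ≠ 0 := by
      rintro rfl
      exact hker 0 1 (by simp) (by simp [lam])
    have him : (α / β).im ≠ 0 := by
      intro him
      set θ := (α / β).re with hθ
      have hαθ : α = θ * β := by
        have : α / β = θ := by
          apply Complex.ext <;> simp [hθ, him]
        rw [← this]; field_simp
      obtain ⟨N, hN⟩ := exists_nat_gt (2 * Real.pi * ‖β‖ / ε)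
      have hNpos : 0 < N := by
        have h1 : 0 < 2 * Real.pi * ‖β‖ / ε := by
          have := norm_pos_iff.2 hβ
          positivity
        exact_mod_cast h1.trans hN
      obtain ⟨j, k, hk, hkN, hjk⟩ := Real.exists_int_int_abs_mul_sub_le θ hNpos
      have h1 := hεl k (-j) (by rintro ⟨h2, -⟩; omega)
      have h2 : lam α β k (-j) = 2 * Real.pi * I * β * ((k * θ - j : ℝ) : ℂ) := by
        rw [lam, hαθ]; push_cast; ring
      rw [h2] at h1
      have h3 : ‖2 * Real.pi * I * β * ((k * θ - j : ℝ) : ℂ)‖ = 2 * Real.pi * ‖β‖ * |k * θ - j| := by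
        rw [norm_mul, norm_mul, norm_mul, norm_mul, Complex.norm_real, Complex.norm_real, norm_I]
        simp [abs_of_pos Real.pi_pos]
      rw [h3] at h1
      have h4 : 2 * Real.pi * ‖β‖ * |k * θ - j| ≤ 2 * Real.pi * ‖β‖ * (1 / (N + 1)) := by
        gcongr
      have h5 : 2 * Real.pi * ‖β‖ * (1 / (N + 1 : ℝ)) < ε := by
        rw [mul_one_div, div_lt_iff₀ (by positivity)]
        rw [div_lt_iff₀ hε] at hN
        nlinarith
      linarith
    -- every disc of radius `ρ` contains a point `c + λ(m,n)`, `(m,n) ≠ 0`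
    set ρ : ℝ := 2 * Real.pi * (‖α‖ + ‖β‖) + 1 with hρ
    have hρpos : 0 < ρ := by
      have := Real.pi_pos
      positivity
    obtain ⟨w, hw⟩ := exists_ball_values hfd ⟨1, 0, by rw [hf0]; exact hf1⟩ hρpos
    -- coordinates of `(w - c) / (2 π i β)` with respect to `α/β, 1`
    set z : ℂ := (w - c) / (2 * Real.pi * I * β) with hz
    set x : ℝ := z.im / (α / β).im with hx
    set y : ℝ := z.re - x * (α / β).re with hy
    have hzxy : z = x * (α / β) + y := by
      apply Complex.ext
      · simp [hy]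
      · simp only [add_im, mul_im, ofReal_re, ofReal_im, zero_mul, add_zero]
        rw [hx]; field_simp
    have hwxy : w = c + 2 * Real.pi * I * (α * x + β * y) := by
      have h1 : (2 * Real.pi * I * β : ℂ) ≠ 0 := mul_ne_zero two_pi_I_ne_zero hβ
      have h2 : w - c = z * (2 * Real.pi * I * β) := by rw [hz]; field_simp
      have h3 : z * (2 * Real.pi * I * β) = 2 * Real.pi * I * (α * x + β * y) := by
        rw [hzxy]; field_simp
      rw [← h3, ← h2]; ring
    obtain ⟨m, hm0, hmx⟩ : ∃ m : ℤ, m ≠ 0 ∧ |x - m| ≤ 1 := by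
      by_cases h0 : ⌊x⌋ = 0
      · refine ⟨1, one_ne_zero, ?_⟩
        have h1 := Int.floor_le x
        have h2 := Int.lt_floor_add_one x
        rw [h0] at h1 h2
        rw [abs_le]; push_cast at *; constructor <;> linarith
      · refine ⟨⌊x⌋, h0, ?_⟩
        have h1 := Int.floor_le x
        have h2 := Int.lt_floor_add_one x
        rw [abs_le]; constructor <;> linarith
    have hny : |y - ⌊y⌋| ≤ 1 := by
      have h1 := Int.floor_le y
      have h2 := Int.lt_floor_add_one y
      rw [abs_le]; constructor <;> linarith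
    have hmem : c + lam α β m ⌊y⌋ ∈ ball w ρ := by
      rw [mem_ball, dist_eq_norm]
      have h1 : c + lam α β m ⌊y⌋ - w
          = -(2 * Real.pi * I * (α * ((x - m : ℝ) : ℂ) + β * ((y - ⌊y⌋ : ℝ) : ℂ))) := by
        rw [hwxy, lam]; push_cast; ring
      rw [h1, norm_neg, norm_mul]
      have h2 : ‖(2 * Real.pi * I : ℂ)‖ = 2 * Real.pi := by
        rw [norm_mul, norm_mul, Complex.norm_real, norm_I]
        simp [abs_of_pos Real.pi_pos]
      rw [h2]
      have h3 : ‖α * ((x - m : ℝ) : ℂ) + β * ((y - ⌊y⌋ : ℝ) : ℂ)‖ ≤ ‖α‖ + ‖β‖ := by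
        calc ‖α * ((x - m : ℝ) : ℂ) + β * ((y - ⌊y⌋ : ℝ) : ℂ)‖
            ≤ ‖α * ((x - m : ℝ) : ℂ)‖ + ‖β * ((y - ⌊y⌋ : ℝ) : ℂ)‖ := norm_add_le _ _
          _ = ‖α‖ * |x - m| + ‖β‖ * |y - ⌊y⌋| := by
              rw [norm_mul, norm_mul, Complex.norm_real, Complex.norm_real, Real.norm_eq_abs,
                Real.norm_eq_abs]
          _ ≤ ‖α‖ * 1 + ‖β‖ * 1 := by gcongr
          _ = ‖α‖ + ‖β‖ := by ring
      calc 2 * Real.pi * ‖α * ((x - m : ℝ) : ℂ) + β * ((y - ⌊y⌋ : ℝ) : ℂ)‖
          ≤ 2 * Real.pi * (‖α‖ + ‖β‖) := by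
            have := Real.pi_pos
            gcongr
        _ < ρ := by rw [hρ]; linarith
    obtain ⟨s, hs, hds⟩ := hw _ hmem
    exact key m ⌊y⌋ (by rintro ⟨h1, -⟩; exact hm0 h1) s hs hds

end core

end Pool.Agent.Helper86.FB
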