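import Mathlib
import Pool.Agent.Helper86.FBOpen

set_option autoImplicit false

open Complex Metric Set Filter Topology Polynomial

namespace Pool.Agent.Helper86.FB

/-- An entire function with uncountably many zeros is zero. -/
theorem zero_of_uncountable {g : ℂ → ℂ} (hg : Differentiable ℂ g) {S : Set ℂ}
    (hS : ¬ S.Countable) (h0 : ∀ t ∈ S, g t = 0) : ∀ t, g t = 0 := by
  by_contra hcon
  apply hS
  have hSub : S ⊆ ⋃ n : ℕ, (S ∩ closedBall 0 n) := by
    intro t ht
    obtain ⟨n, hn⟩ := exists_nat_ge ‖t‖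
    exact mem_iUnion.2 ⟨n, ht, by simpa using hn⟩
  refine (countable_iUnion fun n => ?_).mono hSub
  by_contra hinf
  have hinf' : (S ∩ closedBall (0 : ℂ) n).Infinite := fun hfin => hinf hfin.countable
  obtain ⟨z, -, hz⟩ := hinf'.exists_accPt_of_subset_isCompact
    (isCompact_closedBall (0 : ℂ) n) inter_subset_right
  have hfr : ∃ᶠ w in 𝓝[≠] z, g w = 0 := by
    have := accPt_iff_frequently_nhdsNE.1 hz
    exact this.mono fun w hw => h0 w hw.1
  have han : AnalyticOnNhd ℂ g univ := fun w _ => hg.analyticAt w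
  exact hcon fun t =>
    han.eqOn_zero_of_preconnected_of_frequently_eq_zero isPreconnected_univ (mem_univ z) hfr
      (mem_univ t)

/-- continuous and separately holomorphic -/
structure Sep (f : ℂ × ℂ → ℂ) : Prop where
  cont : Continuous f
  dx : ∀ t, Differentiable ℂ fun x => f (x, t)
  dt : ∀ x, Differentiable ℂ fun t => f (x, t)

theorem Sep.of_differentiable {f : ℂ × ℂ → ℂ} (hf : Differentiable ℂ f) : Sep f where
  cont := hf.continuous
  dx := fun t => hf.comp (differentiable_id.prodMk (differentiable_const t))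
  dt := fun x => hf.comp ((differentiable_const x).prodMk differentiable_id)

/-- derivative in the first variable -/
noncomputable def Dx (f : ℂ × ℂ → ℂ) : ℂ × ℂ → ℂ := fun p => deriv (fun x => f (x, p.2)) p.1

theorem Sep.continuous_Dx {f : ℂ × ℂ → ℂ} (hf : Sep f) : Continuous (Dx f) := by
  rw [continuous_iff_continuousAt]
  rintro ⟨x0, y0⟩
  let U : C(ℂ × ℂ, ℂ) := ⟨fun q => f (q.2, q.1), by
    have := hf.cont
    fun_prop⟩
  have h1 : Tendsto (fun y => U.curry y) (𝓝 y0) (𝓝 (U.curry y0)) := (U.curry.continuous).tendsto y0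
  rw [ContinuousMap.tendsto_iff_tendstoLocallyUniformly] at h1
  have h2 : TendstoLocallyUniformlyOn (fun y x => f (x, y)) (fun x => f (x, y0)) (𝓝 y0) univ :=
    tendstoLocallyUniformlyOn_univ.2 h1
  have hdiff := hf.dx
  have h3 := h2.deriv (Eventually.of_forall fun y => (hdiff y).differentiableOn) isOpen_univ
  rw [tendstoLocallyUniformlyOn_univ] at h3
  have hcont : ContinuousAt (deriv fun x => f (x, y0)) x0 := by
    have : Differentiable ℂ (deriv fun x => f (x, y0)) := fun z =>
      (((hdiff y0).analyticAt z).deriv).differentiableAt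
    exact this.continuous.continuousAt
  have h4 : Tendsto (fun p : ℂ × ℂ => (fun y x => deriv (fun x => f (x, y)) x) p.2 p.1)
      (𝓝 (x0, y0)) (𝓝 (deriv (fun x => f (x, y0)) x0)) := by
    refine tendsto_comp_of_locally_uniform_limit (F := fun p : ℂ × ℂ =>
      deriv (fun x => f (x, p.2))) (g := fun p => p.1) hcont
      (continuous_fst.tendsto _) ?_
    intro V hV
    obtain ⟨t, ht, hev⟩ := h3 V hV x0
    refine ⟨t, ht, ?_⟩
    have h5 : Tendsto (fun p : ℂ × ℂ => p.2) (𝓝 (x0, y0)) (𝓝 y0) := continuous_snd.tendsto _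
    exact h5.eventually hev
  exact h4

theorem Sep.hasSep {f : ℂ × ℂ → ℂ} (hf : Sep f) : Sep (Dx f) where
  cont := hf.continuous_Dx
  dx := fun t z => (((hf.dx t).analyticAt z).deriv).differentiableAt
  dt := by
    intro x
    have hc := hf.continuous_Dx
    set g : ℂ → ℂ → ℂ := fun h t => ∫ s in (0 : ℝ)..1, Dx f (x + s * h, t) with hg
    have hgc : Continuous fun p : ℂ × ℂ => g p.1 p.2 := by
      apply intervalIntegral.continuous_parametric_intervalIntegral_of_continuous'
      fun_prop
    have hftc : ∀ h t : ℂ, h * g h t = f (x + h, t) - f (x, t) := by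
      intro h t
      have hd : ∀ s ∈ uIcc (0 : ℝ) 1, HasDerivAt (fun s : ℝ => f (x + s * h, t))
          (h * Dx f (x + s * h, t)) s := by
        intro s _
        have h1 : HasDerivAt (fun z : ℂ => f (z, t)) (Dx f (x + s * h, t)) (x + s * h) :=
          ((hf.dx t) (x + s * h)).hasDerivAt
        have h2 : HasDerivAt (fun s : ℝ => x + (s : ℂ) * h) h s := by
          have h3 : HasDerivAt (fun s : ℝ => (s : ℂ)) 1 s := Complex.ofRealCLM.hasDerivAt
          simpa using (h3.mul_const h).const_add x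
        have h4 := HasDerivAt.scomp (𝕜 := ℝ) s h1 h2
        rw [smul_eq_mul] at h4
        exact h4
      have hi := intervalIntegral.integral_eq_sub_of_hasDerivAt hd
        (Continuous.intervalIntegrable (by fun_prop) _ _)
      rw [hg]
      simp only
      rw [← intervalIntegral.integral_const_mul, hi]
      simp
    have hg0 : ∀ t, g 0 t = Dx f (x, t) := by
      intro t
      simp [hg]
    -- locally uniform convergence as `h → 0`
    let U : C(ℂ × ℂ, ℂ) := ⟨fun q => g q.1 q.2, hgc⟩
    have h1 : Tendsto (fun h => U.curry h) (𝓝[≠] 0) (𝓝 (U.curry 0)) :=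
      ((U.curry.continuous).tendsto 0).mono_left nhdsWithin_le_nhds
    rw [ContinuousMap.tendsto_iff_tendstoLocallyUniformly] at h1
    have h2 : TendstoLocallyUniformlyOn (fun h t => g h t) (fun t => g 0 t) (𝓝[≠] 0) univ :=
      tendstoLocallyUniformlyOn_univ.2 h1
    have h3 : ∀ᶠ h in 𝓝[≠] (0 : ℂ), DifferentiableOn ℂ (fun t => g h t) univ := by
      filter_upwards [self_mem_nhdsWithin] with h hh
      have hh' : h ≠ 0 := hh
      have : (fun t => g h t) = fun t => (f (x + h, t) - f (x, t)) * h⁻¹ := by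
        funext t
        rw [← hftc h t]
        field_simp
      rw [this]
      exact (((hf.dt (x + h)).sub (hf.dt x)).mul_const _).differentiableOn
    have h4 := h2.differentiableOn h3 isOpen_univ
    have h5 : (fun t => g 0 t) = fun t => Dx f (x, t) := funext hg0
    rw [h5] at h4
    exact differentiableOn_univ.1 h4

theorem Sep.iterate {f : ℂ × ℂ → ℂ} (hf : Sep f) (k : ℕ) : Sep (Dx^[k] f) := by
  induction k with
  | zero => exact hf
  | succ k ih => rw [Function.iterate_succ_apply']; exact ih.hasSep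

theorem iterate_Dx (f : ℂ × ℂ → ℂ) (k : ℕ) (x t : ℂ) :
    (Dx^[k] f) (x, t) = iteratedDeriv k (fun x => f (x, t)) x := by
  induction k generalizing x with
  | zero => simp
  | succ k ih =>
    rw [Function.iterate_succ_apply', iteratedDeriv_succ]
    simp only [Dx]
    congr 1
    funext y
    exact ih y

/-- Taylor coefficient in the first variable -/
noncomputable def tc (f : ℂ × ℂ → ℂ) (k : ℕ) (t : ℂ) : ℂ := (k.factorial : ℂ)⁻¹ * (Dx^[k] f) (0, t)

theorem tc_diff {f : ℂ × ℂ → ℂ} (hf : Sep f) (k : ℕ) : Differentiable ℂ (tc f k) :=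
  ((hf.iterate k).dt 0).const_mul _

/-- error of the Taylor polynomial, uniformly for `‖x‖ ≤ r` and `t` in a set on which `f` is
bounded by `M` for `‖x‖ ≤ 2 r`. -/
theorem taylor_error {f : ℂ × ℂ → ℂ} (hf : Sep f) {r M : ℝ} (hr : 0 < r) (t : ℂ)
    (hM : ∀ x, ‖x‖ = 2 * r → ‖f (x, t)‖ ≤ M) (x : ℂ) (hx : ‖x‖ ≤ r) (n : ℕ) :
    ‖(∑ k ∈ Finset.range n, tc f k t * x ^ k) - f (x, t)‖ ≤ 2 * M * (1 / 2) ^ n := by
  have hsum := Complex.hasSum_taylorSeries_of_entire (hf.dx t) 0 x
  have hterm : ∀ k : ℕ, (k.factorial : ℂ)⁻¹ • (x - 0) ^ k • iteratedDeriv k (fun x => f (x, t)) 0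
      = tc f k t * x ^ k := by
    intro k
    rw [tc, iterate_Dx, sub_zero, smul_eq_mul, smul_eq_mul]
    ring
  simp only [hterm] at hsum
  have hb : ∀ k : ℕ, ‖tc f k t * x ^ k‖ ≤ M * (1 / 2) ^ k := by
    intro k
    have h1 := Complex.norm_iteratedDeriv_le_of_forall_mem_sphere_norm_le (n := k) (c := (0 : ℂ))
      (R := 2 * r) (C := M) (by positivity) (hf.dx t).diffContOnCl (by
        intro z hz
        exact hM z (by simpa [dist_eq_norm] using hz))
    rw [tc, iterate_Dx, norm_mul, norm_mul, norm_inv, norm_pow]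
    have hfac : ‖(k.factorial : ℂ)‖ = k.factorial := by simp
    rw [hfac]
    have hM0 : 0 ≤ M := by
      have := hM (2 * r : ℝ) (by
        rw [Complex.norm_real, Real.norm_eq_abs, abs_of_pos (by positivity)])
      exact (norm_nonneg _).trans this
    have hk : (0 : ℝ) < k.factorial := by exact_mod_cast k.factorial_pos
    calc (k.factorial : ℝ)⁻¹ * ‖iteratedDeriv k (fun x => f (x, t)) 0‖ * ‖x‖ ^ k
        ≤ (k.factorial : ℝ)⁻¹ * (k.factorial * M / (2 * r) ^ k) * r ^ k := by
          gcongr
      _ = M * (1 / 2) ^ k := by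
          rw [mul_pow, div_pow, one_pow]
          field_simp
  have h2 := norm_sub_le_of_geometric_bound_of_hasSum (by norm_num : (1 / 2 : ℝ) < 1) hb hsum n
  calc ‖(∑ k ∈ Finset.range n, tc f k t * x ^ k) - f (x, t)‖
      ≤ M * (1 / 2) ^ n / (1 - 1 / 2) := h2
    _ = 2 * M * (1 / 2) ^ n := by ring

end Pool.Agent.Helper86.FB
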