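import Mathlib
import Pool.Agent.Helper86.FBSep
import Pool.Agent.Helper86.FBLog

set_option autoImplicit false

open Complex Metric Set Filter Topology Polynomial

namespace Pool.Agent.Helper86.FB

/-- Liouville-type estimate: polynomial growth of the real part kills the higher derivatives. -/
theorem iteratedDeriv_eq_zero_of_growth {f : ℂ → ℂ} (hf : Differentiable ℂ f) {C : ℝ} {N : ℕ}
    (h : ∀ s, (f s).re ≤ C * (1 + ‖s‖ ^ N)) {k : ℕ} (hk : N < k) : iteratedDeriv k f 0 = 0 := by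
  set C' : ℝ := max C 1 with hC'
  have hC'1 : 1 ≤ C' := le_max_right _ _
  have hgrow : ∀ r : ℝ, 1 ≤ r → ∀ z, ‖z‖ = r →
      ‖f z‖ ≤ 2 * (C' * (1 + (2 * r) ^ N)) + 3 * ‖f 0‖ := by
    intro r hr z hz
    have hMpos : 0 < C' * (1 + (2 * r) ^ N) := by positivity
    have hmaps : MapsTo f (ball 0 (2 * r)) {z | z.re ≤ C' * (1 + (2 * r) ^ N)} := by
      intro w hw
      have hw' : ‖w‖ < 2 * r := by simpa using hw
      show (f w).re ≤ _
      calc (f w).re ≤ C * (1 + ‖w‖ ^ N) := h w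
        _ ≤ C' * (1 + ‖w‖ ^ N) := by gcongr; exact le_max_left _ _
        _ ≤ C' * (1 + (2 * r) ^ N) := by gcongr
    have hb := Complex.borelCaratheodory hMpos hf.differentiableOn hmaps (by positivity)
      (z := z) (by rw [mem_ball_zero_iff, hz]; linarith)
    rw [hz] at hb
    have e1 : 2 * r - r = r := by ring
    rw [e1] at hb
    have hr0 : r ≠ 0 := by positivity
    calc ‖f z‖ ≤ 2 * (C' * (1 + (2 * r) ^ N)) * r / r + ‖f 0‖ * (2 * r + r) / r := hb
      _ = 2 * (C' * (1 + (2 * r) ^ N)) + 3 * ‖f 0‖ := by field_simp; ring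
  -- Cauchy estimates
  have hcauchy : ∀ r : ℝ, 1 ≤ r → ‖iteratedDeriv k f 0‖ ≤
      k.factorial * (2 * (C' * (1 + (2 * r) ^ N)) + 3 * ‖f 0‖) / r ^ k := by
    intro r hr
    refine Complex.norm_iteratedDeriv_le_of_forall_mem_sphere_norm_le (n := k) (by positivity)
      hf.diffContOnCl (fun z hz => hgrow r hr z ?_)
    simpa [dist_eq_norm] using hz
  -- let `r → ∞`
  set K : ℝ := k.factorial * (2 * (C' * (1 + 2 ^ N)) + 3 * ‖f 0‖) with hK
  have hcauchy2 : ∀ r : ℝ, 1 ≤ r → ‖iteratedDeriv k f 0‖ * r ≤ K := by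
    intro r hr
    have h1 := hcauchy r hr
    have hrN : (1 : ℝ) ≤ r ^ N := one_le_pow₀ hr
    have h2 : k.factorial * (2 * (C' * (1 + (2 * r) ^ N)) + 3 * ‖f 0‖) ≤ K * r ^ N := by
      have h3 : 2 * (C' * (1 + (2 * r) ^ N)) + 3 * ‖f 0‖
          ≤ (2 * (C' * (1 + 2 ^ N)) + 3 * ‖f 0‖) * r ^ N := by
        rw [mul_pow]
        have h4 : (1 : ℝ) + 2 ^ N * r ^ N ≤ (1 + 2 ^ N) * r ^ N := by
          have : (0 : ℝ) < 2 ^ N := by positivity
          nlinarith
        have h5 : ‖f 0‖ ≤ ‖f 0‖ * r ^ N := by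
          nlinarith [norm_nonneg (f 0)]
        have h6 : C' * (1 + 2 ^ N * r ^ N) ≤ C' * ((1 + 2 ^ N) * r ^ N) := by gcongr
        linarith
      rw [hK, mul_assoc]
      gcongr
    have hrk : r ^ N * r ≤ r ^ k := by
      rw [← pow_succ]
      exact pow_le_pow_right₀ hr hk
    have hrkpos : 0 < r ^ k := by positivity
    have hrNpos : 0 < r ^ N := by positivity
    have h7 : ‖iteratedDeriv k f 0‖ * r ^ k ≤ K * r ^ N := by
      rw [le_div_iff₀ hrkpos] at h1
      linarith
    have h8 : ‖iteratedDeriv k f 0‖ * (r ^ N * r) ≤ K * r ^ N := by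
      calc ‖iteratedDeriv k f 0‖ * (r ^ N * r) ≤ ‖iteratedDeriv k f 0‖ * r ^ k := by gcongr
        _ ≤ K * r ^ N := h7
    have h9 : (‖iteratedDeriv k f 0‖ * r) * r ^ N ≤ K * r ^ N := by linarith
    exact le_of_mul_le_mul_right h9 hrNpos
  by_contra hne
  have hpos : 0 < ‖iteratedDeriv k f 0‖ := norm_pos_iff.2 hne
  have h1 := hcauchy2 (max 1 (K / ‖iteratedDeriv k f 0‖ + 1)) (le_max_left _ _)
  have h2 : ‖iteratedDeriv k f 0‖ * (K / ‖iteratedDeriv k f 0‖ + 1)
      ≤ ‖iteratedDeriv k f 0‖ * max 1 (K / ‖iteratedDeriv k f 0‖ + 1) := by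
    gcongr; exact le_max_right _ _
  have h3 : ‖iteratedDeriv k f 0‖ * (K / ‖iteratedDeriv k f 0‖ + 1)
      = K + ‖iteratedDeriv k f 0‖ := by field_simp
  linarith

/-- Perturbation of a product over a multiset. -/
theorem prod_perturb {f g : ℂ → ℂ} {L δ : ℝ} (hL : 1 ≤ L) (hδ : 0 ≤ δ) (s : Multiset ℂ)
    (hf : ∀ x ∈ s, ‖f x‖ ≤ L) (hg : ∀ x ∈ s, ‖g x‖ ≤ L) (hfg : ∀ x ∈ s, ‖f x - g x‖ ≤ δ) :
    ‖(s.map f).prod‖ ≤ L ^ s.card ∧
      ‖(s.map f).prod - (s.map g).prod‖ ≤ s.card * L ^ s.card * δ := by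
  induction s using Multiset.induction_on with
  | empty => simp
  | cons a s ih =>
    have hf' := fun x hx => hf x (Multiset.mem_cons_of_mem hx)
    have hg' := fun x hx => hg x (Multiset.mem_cons_of_mem hx)
    have hfg' := fun x hx => hfg x (Multiset.mem_cons_of_mem hx)
    obtain ⟨i1, i2⟩ := ih hf' hg' hfg'
    have ha1 := hf a (Multiset.mem_cons_self a s)
    have ha2 := hg a (Multiset.mem_cons_self a s)
    have ha3 := hfg a (Multiset.mem_cons_self a s)
    rw [Multiset.map_cons, Multiset.map_cons, Multiset.prod_cons, Multiset.prod_cons,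
      Multiset.card_cons]
    constructor
    · rw [norm_mul, pow_succ, mul_comm]
      gcongr
    · have e : f a * (s.map f).prod - g a * (s.map g).prod
          = (f a - g a) * (s.map f).prod + g a * ((s.map f).prod - (s.map g).prod) := by ring
      rw [e]
      have hLc : (1 : ℝ) ≤ L ^ s.card := one_le_pow₀ hL
      calc ‖(f a - g a) * (s.map f).prod + g a * ((s.map f).prod - (s.map g).prod)‖
          ≤ ‖(f a - g a) * (s.map f).prod‖ + ‖g a * ((s.map f).prod - (s.map g).prod)‖ :=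
            norm_add_le _ _
        _ = ‖f a - g a‖ * ‖(s.map f).prod‖ + ‖g a‖ * ‖(s.map f).prod - (s.map g).prod‖ := by
            rw [norm_mul, norm_mul]
        _ ≤ δ * L ^ s.card + L * (s.card * L ^ s.card * δ) := by gcongr
        _ ≤ L * (δ * L ^ s.card) + L * (s.card * L ^ s.card * δ) := by
            have : δ * L ^ s.card ≤ L * (δ * L ^ s.card) := by
              have : 0 ≤ δ * L ^ s.card := by positivity
              nlinarith
            linarith
        _ = ((s.card + 1 : ℕ) : ℝ) * L ^ (s.card + 1) * δ := by push_cast; ring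

/-- A bounded holomorphic function on the complement of the zero set of a nonzero entire function
is constant. -/
theorem const_of_bounded_off_zeros {g h : ℂ → ℂ} (hg : Differentiable ℂ g)
    (hg0 : ∃ t, g t ≠ 0) (hh : DifferentiableOn ℂ h {t | g t ≠ 0}) {K : ℝ}
    (hK : ∀ t, g t ≠ 0 → ‖h t‖ ≤ K) : ∀ t t', g t ≠ 0 → g t' ≠ 0 → h t = h t' := by
  have hopen : IsOpen {t | g t ≠ 0} := isOpen_ne_fun hg.continuous continuous_const
  -- zeros are isolated
  have hiso : ∀ c, ∀ᶠ t in 𝓝[≠] c, g t ≠ 0 := by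
    intro c
    rcases (hg.analyticAt c).eventually_eq_zero_or_eventually_ne_zero with h0 | h0
    · exfalso
      have han : AnalyticOnNhd ℂ g univ := fun z _ => hg.analyticAt z
      obtain ⟨t, ht⟩ := hg0
      exact ht (han.eqOn_zero_of_preconnected_of_eventuallyEq_zero isPreconnected_univ
        (mem_univ c) h0 (mem_univ t))
    · exact h0
  set H : ℂ → ℂ := fun t => limUnder (𝓝[≠] t) h with hH
  have hHh : ∀ t, g t ≠ 0 → H t = h t := by
    intro t ht
    have hc : ContinuousAt h t := (hh.differentiableAt (hopen.mem_nhds ht)).continuousAt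
    exact (hc.tendsto.mono_left nhdsWithin_le_nhds).limUnder_eq
  have hHd : Differentiable ℂ H := by
    intro c
    obtain ⟨ε, hε, hεb⟩ := Metric.mem_nhdsWithin_iff.1 (hiso c)
    have hsub : ball c ε \ {c} ⊆ {t | g t ≠ 0} := fun t ht => hεb ⟨ht.1, ht.2⟩
    have hd := Complex.differentiableOn_update_limUnder_of_bddAbove
      (ball_mem_nhds c hε) (hh.mono hsub) ⟨K, by
        rintro _ ⟨t, ht, rfl⟩
        exact hK t (hsub ht)⟩
    have hdc := hd.differentiableAt (ball_mem_nhds c hε)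
    refine hdc.congr_of_eventuallyEq ?_
    filter_upwards [ball_mem_nhds c hε] with t ht
    by_cases htc : t = c
    · subst htc; simp [hH]
    · rw [Function.update_of_ne htc]
      exact hHh t (hsub ⟨ht, htc⟩)
  have hHb : Bornology.IsBounded (range H) := by
    rw [isBounded_iff_forall_norm_le]
    refine ⟨K, ?_⟩
    rintro _ ⟨t, rfl⟩
    by_cases ht : g t ≠ 0
    · rw [hHh t ht]; exact hK t ht
    · -- by continuity
      have hc : Tendsto (fun s => ‖H s‖) (𝓝[≠] t) (𝓝 ‖H t‖) :=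
        ((hHd t).continuousAt.norm.tendsto).mono_left nhdsWithin_le_nhds
      refine le_of_tendsto hc ?_
      filter_upwards [hiso t] with s hs
      rw [hHh s hs]; exact hK s hs
  intro t t' ht ht'
  rw [← hHh t ht, ← hHh t' ht']
  exact hHd.apply_eq_apply_of_bounded hHb t t'

end Pool.Agent.Helper86.FB
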