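import Mathlib
import Pool.Agent.Helper14.FatouDefs
import Pool.Agent.Helper14.Fatou
import Pool.Agent.Helper86.CollatzInt
import Pool.Agent.Helper86.SlowVar

set_option autoImplicit false

namespace Pool.Agent.Results.MP_071ec9_an.DensityFunction

open Filter Topology Asymptotics
open Pool.Agent.Helper14 (T f₀ fatouComponent IsWanderingDomain IntWandering f₀_iter_intCast
  intWandering_congr)
open Pool.Agent.Helper86.CollatzInt
open Pool.Agent.Helper86.SlowVar

/-- The set of integers whose Fatou component is a wandering domain of `f₀`. -/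
def W : Set ℤ := {n : ℤ | IsWanderingDomain f₀ (fatouComponent f₀ (n : ℂ))}

theorem mem_W_congr {m n : ℤ} (h : Meet m n) : m ∈ W ↔ n ∈ W := by
  obtain ⟨k, hk⟩ := h
  exact intWandering_congr hk

open Classical in
theorem ncard_lt (L : ℕ) (P : ℕ → Prop) :
    Set.ncard {i : ℕ | i < L ∧ P i} = ((Finset.range L).filter P).card := by
  rw [← Set.ncard_coe_finset]
  congr 1
  ext i
  simp

/-! ### The density function of `W` -/

open Classical in
/-- The indicator function of `W`. -/
noncomputable def ind (n : ℤ) : ℝ := if n ∈ W then 1 else 0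

theorem ind_nonneg (n : ℤ) : 0 ≤ ind n := by unfold ind; split_ifs <;> norm_num

theorem ind_le_one (n : ℤ) : ind n ≤ 1 := by unfold ind; split_ifs <;> norm_num

theorem ind_congr {m n : ℤ} (h : Meet m n) : ind m = ind n := by
  have h1 := mem_W_congr h
  by_cases hm : m ∈ W
  · have hn := h1.1 hm
    simp [ind, hm, hn]
  · have hn : n ∉ W := fun h => hm (h1.2 h)
    simp [ind, hm, hn]

theorem abs_ind_sub_le (m n : ℤ) : |ind m - ind n| ≤ 1 := by
  have h1 := ind_nonneg m
  have h2 := ind_nonneg n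
  have h3 := ind_le_one m
  have h4 := ind_le_one n
  rw [abs_le]
  constructor <;> linarith

theorem small {σ : ℤ} (hσ : |σ| = 1) (a : ℕ) (b : ℤ) :
    (fun N : ℕ => S (fun n => |ind (3 ^ a * (σ * n) + b) - ind (σ * n)|) N) =o[atTop]
      fun N : ℕ => (N : ℝ) := by
  classical
  obtain ⟨C, hC, h⟩ := meet_rate
  set X : ℝ := 1 + (a : ℝ) ^ 2 + Real.log (1 + |(b : ℝ)|) with hX
  have hbound : ∀ N : ℕ, 2 ≤ N → S (fun n => |ind (3 ^ a * (σ * n) + b) - ind (σ * n)|) N ≤
      C * N * Real.sqrt (X / Real.log N) := by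
    intro N hN
    refine le_trans ?_ (h N a b hN)
    have h1 : S (fun n => |ind (3 ^ a * (σ * n) + b) - ind (σ * n)|) N ≤
        (((Finset.range N).filter (fun n : ℕ => ¬ Meet (σ * n) (3 ^ a * (σ * n) + b))).card : ℝ) := by
      unfold S
      rw [Finset.card_filter]
      push_cast
      apply Finset.sum_le_sum
      intro n _
      by_cases hm : Meet (σ * n) (3 ^ a * (σ * n) + b)
      · rw [← ind_congr hm]
        simp [hm]
      · simp only [hm, not_false_iff, if_true]
        exact abs_ind_sub_le _ _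
    refine h1.trans ?_
    have h2 : ((Finset.range N).filter
        (fun n : ℕ => ¬ Meet (σ * n) (3 ^ a * (σ * n) + b))).card ≤
        Set.ncard {n : ℤ | |n| ≤ N ∧ ¬ Meet n (3 ^ a * n + b)} := by
      rw [← Set.ncard_coe_finset]
      apply Set.ncard_le_ncard_of_injOn (fun n : ℕ => σ * n) (ht := finite_abs_le N _)
      · intro n hn
        rw [Finset.mem_coe, Finset.mem_filter, Finset.mem_range] at hn
        refine ⟨?_, hn.2⟩
        rw [abs_mul, hσ, one_mul, Nat.abs_cast]
        exact_mod_cast hn.1.le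
      · intro m _ n _ hmn
        have hσ0 : σ ≠ 0 := by
          rintro rfl
          simp at hσ
        have h3 : (m : ℤ) = n := mul_left_cancel₀ hσ0 hmn
        exact_mod_cast h3
    exact_mod_cast h2
  have hlim : Tendsto (fun N : ℕ => C * Real.sqrt (X / Real.log N)) atTop (𝓝 0) := by
    have h1 : Tendsto (fun N : ℕ => Real.log (N : ℝ)) atTop atTop :=
      Real.tendsto_log_atTop.comp tendsto_natCast_atTop_atTop
    have h2 : Tendsto (fun N : ℕ => X / Real.log (N : ℝ)) atTop (𝓝 0) :=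
      tendsto_const_nhds.div_atTop h1
    have h3 := (Real.continuous_sqrt.tendsto 0).comp h2
    rw [Real.sqrt_zero] at h3
    have h4 := h3.const_mul C
    rw [mul_zero] at h4
    exact h4
  rw [isLittleO_iff]
  intro ε hε
  filter_upwards [hlim.eventually (ge_mem_nhds hε), eventually_ge_atTop 2] with N h1 h2
  have h3 := hbound N h2
  have h4 : 0 ≤ S (fun n => |ind (3 ^ a * (σ * n) + b) - ind (σ * n)|) N :=
    S_nonneg (fun n => abs_nonneg _) N
  rw [Real.norm_of_nonneg h4, Real.norm_natCast]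
  refine h3.trans ?_
  calc C * N * Real.sqrt (X / Real.log N) = (C * Real.sqrt (X / Real.log N)) * N := by ring
    _ ≤ ε * N := mul_le_mul_of_nonneg_right h1 (Nat.cast_nonneg N)

theorem inv_ind {σ : ℤ} (hσ : |σ| = 1) : Inv (fun n : ℕ => ind (σ * n)) where
  nonneg n := ind_nonneg _
  le_one n := ind_le_one _
  shift d := by
    have h := small hσ 0 (σ * d)
    refine h.congr_left ?_
    intro N
    congr 1
    funext n
    congr 3
    push_cast
    ring
  two n := by
    have h1 : σ * ((2 * n : ℕ) : ℤ) = 2 * (σ * n) := by push_cast; ring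
    have h2 : σ * ((2 * n : ℕ) : ℤ) ∈ W ↔ σ * (n : ℤ) ∈ W := by
      apply intWandering_congr (k := 1) (l := 0)
      rw [h1, Function.iterate_one, T_even, Function.iterate_zero, id]
    by_cases hm : σ * (n : ℤ) ∈ W
    · have hn := h2.2 hm
      simp only [ind, hm, hn, if_true]
    · have hn : σ * ((2 * n : ℕ) : ℤ) ∉ W := fun h => hm (h2.1 h)
      simp only [ind, hm, hn, if_false]
  three := by
    have h := small hσ 1 0
    refine h.congr_left ?_
    intro N
    congr 1
    funext n
    congr 3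
    push_cast
    ring

open Classical in
theorem sr_ind (σ : ℤ) {x : ℝ} (hx : 0 ≤ x) :
    sr (fun n : ℕ => ind (σ * n)) x = (Set.ncard {n : ℕ | (n : ℝ) ≤ x ∧ σ * n ∈ W} : ℝ) := by
  have h1 : {n : ℕ | (n : ℝ) ≤ x ∧ σ * n ∈ W} = {n : ℕ | n < ⌊x⌋₊ + 1 ∧ σ * n ∈ W} := by
    ext n
    simp only [Set.mem_ofPred_eq]
    rw [Nat.lt_succ_iff, Nat.le_floor_iff hx]
  rw [h1, ncard_lt, Finset.card_filter]
  push_cast
  rfl

open Classical in
theorem sr_ind' (σ : ℤ) (q r : ℕ) {x : ℝ} (hx : 0 ≤ x) :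
    sr (fun m : ℕ => (fun n : ℕ => ind (σ * n)) (q * m + r)) x =
      (Set.ncard {m : ℕ | (m : ℝ) ≤ x ∧ σ * (q * m + r) ∈ W} : ℝ) := by
  have h1 : {m : ℕ | (m : ℝ) ≤ x ∧ σ * (q * m + r) ∈ W} =
      {m : ℕ | m < ⌊x⌋₊ + 1 ∧ σ * (q * m + r) ∈ W} := by
    ext n
    simp only [Set.mem_ofPred_eq]
    rw [Nat.lt_succ_iff, Nat.le_floor_iff hx]
  rw [h1, ncard_lt, Finset.card_filter]
  push_cast
  rfl


/-- At all scales the density function of `W` along the progression `q * m + r` is asymptotic to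
the density function of `W`. -/
theorem result (σ : ℤ) (hσ : |σ| = 1) (q r : ℕ) (hq : 1 ≤ q) (l : ℝ) (hl : 0 < l) :
    Tendsto (fun x : ℝ =>
      (Set.ncard {m : ℕ | (m : ℝ) ≤ l * x ∧ σ * (q * m + r) ∈ W} : ℝ) / (l * x) -
        (Set.ncard {m : ℕ | (m : ℝ) ≤ x ∧ σ * m ∈ W} : ℝ) / x) atTop (𝓝 0) := by
  have h := main (inv_ind hσ) hq r hl
  refine h.congr' ?_
  filter_upwards [eventually_ge_atTop 0] with x hx
  rw [sr_ind σ hx, sr_ind' σ q r (by positivity)]

end Pool.Agent.Results.MP_071ec9_an.DensityFunction
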