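import Mathlib
import Pool.Agent.Helper86.FBPoly

set_option autoImplicit false

open Complex Metric Set Filter Topology Polynomial

namespace Pool.Agent.Helper86.FB

/-- the polynomial `∑_{k < m} c_k(t) X^k - κ` -/
noncomputable def pp (c : ℕ → ℂ → ℂ) (m : ℕ) (κ : ℂ) (t : ℂ) : ℂ[X] :=
  (∑ k ∈ Finset.range m, C (c k t) * X ^ k) - C κ

theorem pp_eval (c : ℕ → ℂ → ℂ) (m : ℕ) (κ t x : ℂ) :
    (pp c m κ t).eval x = (∑ k ∈ Finset.range m, c k t * x ^ k) - κ := by
  simp [pp, eval_finsetSum]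

theorem pp_coeff (c : ℕ → ℂ → ℂ) (m : ℕ) (κ t : ℂ) (j : ℕ) :
    (pp c m κ t).coeff j = (if j < m then c j t else 0) - (if j = 0 then κ else 0) := by
  rw [pp, coeff_sub, finsetSum_coeff, coeff_C]
  congr 1
  simp only [coeff_C_mul, coeff_X_pow, mul_ite, mul_one, mul_zero]
  rw [Finset.sum_ite_eq]
  simp

theorem pp_coeff_diff {c : ℕ → ℂ → ℂ} (hc : ∀ k, Differentiable ℂ (c k)) (m : ℕ) (κ : ℂ) (j : ℕ) :
    Differentiable ℂ fun t => (pp c m κ t).coeff j := by
  simp only [pp_coeff]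
  split_ifs <;> first | exact (hc j).sub_const _ | exact differentiable_const _

theorem pp_natDegree_le (c : ℕ → ℂ → ℂ) (m : ℕ) (κ t : ℂ) : (pp c m κ t).natDegree ≤ m := by
  rw [natDegree_le_iff_coeff_eq_zero]
  intro j hj
  rw [pp_coeff, if_neg (by omega), if_neg (by omega), sub_zero]

theorem pp_natDegree {c : ℕ → ℂ → ℂ} {d : ℕ} (hd : 1 ≤ d) (κ t : ℂ) (h : c d t ≠ 0) :
    (pp c (d + 1) κ t).natDegree = d := by
  apply le_antisymm
  · rw [natDegree_le_iff_coeff_eq_zero]
    intro j hj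
    rw [pp_coeff, if_neg (by omega), if_neg (by omega), sub_zero]
  · apply le_natDegree_of_ne_zero
    rw [pp_coeff, if_pos (by omega), if_neg (by omega), sub_zero]
    exact h

theorem pp_lead {c : ℕ → ℂ → ℂ} {d : ℕ} (hd : 1 ≤ d) (κ t : ℂ) (h : c d t ≠ 0) :
    (pp c (d + 1) κ t).leadingCoeff = c d t := by
  rw [leadingCoeff, pp_natDegree hd κ t h, pp_coeff, if_pos (by omega), if_neg (by omega), sub_zero]

/-- The resultant of two families with entire coefficients is entire. -/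
theorem resultant_diff {p q : ℂ → ℂ[X]} (hp : ∀ j, Differentiable ℂ fun t => (p t).coeff j)
    (hq : ∀ j, Differentiable ℂ fun t => (q t).coeff j) (m n : ℕ) :
    Differentiable ℂ fun t => resultant (p t) (q t) m n := by
  have hentry : ∀ i j, Differentiable ℂ fun t => sylvester (p t) (q t) m n i j := by
    intro i j
    induction j using Fin.addCases with
    | left j =>
      simp only [sylvester, Matrix.of_apply, Fin.addCases_left]
      split_ifs
      · exact hq _
      · exact differentiable_const _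
    | right j =>
      simp only [sylvester, Matrix.of_apply, Fin.addCases_right]
      split_ifs
      · exact hp _
      · exact differentiable_const _
  have : (fun t => resultant (p t) (q t) m n) = fun t =>
      ∑ σ : Equiv.Perm (Fin (m + n)), ((Equiv.Perm.sign σ : ℤ) : ℂ) *
        ∏ i, sylvester (p t) (q t) m n (σ i) i := by
    funext t
    rw [resultant, Matrix.det_apply']
  rw [this]
  refine Differentiable.fun_sum fun σ _ => ?_
  refine Differentiable.const_mul ?_ _
  exact Differentiable.fun_finsetProd fun i _ => hentry _ _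

/-- root bound -/
theorem root_bound {c : ℕ → ℂ} {d : ℕ} (hd : 1 ≤ d) {K m : ℝ} (hm : 0 < m) (hK : 0 ≤ K)
    (hc : ∀ k < d, ‖c k‖ ≤ K) (hcd : m ≤ ‖c d‖) {κ x : ℂ} (hκ : ‖κ‖ ≤ K)
    (hx : (∑ k ∈ Finset.range (d + 1), c k * x ^ k) = κ) :
    ‖x‖ ≤ 1 + (d + 1) * K / m := by
  by_contra hcon
  push Not at hcon
  have hx1 : 1 < ‖x‖ := by
    have : 0 ≤ (d + 1) * K / m := by positivity
    linarith
  rw [Finset.sum_range_succ] at hx
  have h1 : c d * x ^ d = κ - ∑ k ∈ Finset.range d, c k * x ^ k := by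
    rw [← hx]; ring
  have h2 : ‖∑ k ∈ Finset.range d, c k * x ^ k‖ ≤ d * (K * ‖x‖ ^ (d - 1)) := by
    calc ‖∑ k ∈ Finset.range d, c k * x ^ k‖ ≤ ∑ k ∈ Finset.range d, ‖c k * x ^ k‖ :=
          norm_sum_le _ _
      _ ≤ ∑ k ∈ Finset.range d, K * ‖x‖ ^ (d - 1) := by
          refine Finset.sum_le_sum fun k hk => ?_
          rw [Finset.mem_range] at hk
          rw [norm_mul, norm_pow]
          have h3 : ‖x‖ ^ k ≤ ‖x‖ ^ (d - 1) := pow_le_pow_right₀ hx1.le (by omega)
          have h4 := hc k hk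
          gcongr
      _ = d * (K * ‖x‖ ^ (d - 1)) := by simp
  have h3 : ‖κ‖ ≤ K * ‖x‖ ^ (d - 1) := by
    have : (1 : ℝ) ≤ ‖x‖ ^ (d - 1) := one_le_pow₀ hx1.le
    calc ‖κ‖ ≤ K * 1 := by linarith
      _ ≤ K * ‖x‖ ^ (d - 1) := by gcongr
  have h4 : m * ‖x‖ ^ d ≤ (d + 1) * K * ‖x‖ ^ (d - 1) := by
    calc m * ‖x‖ ^ d ≤ ‖c d‖ * ‖x‖ ^ d := by gcongr
      _ = ‖c d * x ^ d‖ := by rw [norm_mul, norm_pow]
      _ = ‖κ - ∑ k ∈ Finset.range d, c k * x ^ k‖ := by rw [h1]
      _ ≤ ‖κ‖ + ‖∑ k ∈ Finset.range d, c k * x ^ k‖ := norm_sub_le _ _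
      _ ≤ K * ‖x‖ ^ (d - 1) + d * (K * ‖x‖ ^ (d - 1)) := by gcongr
      _ = (d + 1) * K * ‖x‖ ^ (d - 1) := by ring
  have h5 : ‖x‖ ^ d = ‖x‖ * ‖x‖ ^ (d - 1) := by
    rw [← pow_succ']; congr 1; omega
  have h6 : 0 < ‖x‖ ^ (d - 1) := by positivity
  rw [h5] at h4
  have h7 : (m * ‖x‖) * ‖x‖ ^ (d - 1) ≤ ((d + 1) * K) * ‖x‖ ^ (d - 1) := by linarith
  have h8 := le_of_mul_le_mul_right h7 h6
  have h9 : ‖x‖ ≤ (d + 1) * K / m := by
    rw [le_div_iff₀ hm]; linarith
  linarith

/-- The product of `B(x,t) - v` over the roots `x` of `A(·,t) = κ` is holomorphic in `t` off the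
zeros of the leading coefficient. -/
theorem norm_diff {c : ℕ → ℂ → ℂ} (hc : ∀ k, Differentiable ℂ (c k)) {d : ℕ} (hd : 1 ≤ d)
    {B : ℂ × ℂ → ℂ} (hB : Sep B) (κ v : ℂ) :
    DifferentiableOn ℂ
      (fun t => ((pp c (d + 1) κ t).roots.map fun x => B (x, t) - v).prod) {t | c d t ≠ 0} := by
  set good : Set ℂ := {t | c d t ≠ 0} with hgood
  have hopen : IsOpen good := isOpen_ne_fun (hc d).continuous continuous_const
  set p : ℂ → ℂ[X] := pp c (d + 1) κ with hp
  set q : ℕ → ℂ → ℂ[X] := fun n => pp (tc B) n v with hq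
  set F : ℕ → ℂ → ℂ := fun n t => (c d t ^ n)⁻¹ * resultant (p t) (q n t) d n with hF
  have hFeq : ∀ n, ∀ t ∈ good, F n t = ((p t).roots.map (q n t).eval).prod := by
    intro n t ht
    have ht' : c d t ≠ 0 := ht
    have h1 := resultant_eq_prod_eval (p t) (q n t) n (pp_natDegree_le _ _ _ _)
      (IsAlgClosed.splits (p t))
    rw [hp, pp_natDegree hd κ t ht', pp_lead hd κ t ht'] at h1
    rw [hF]
    simp only
    rw [hp, h1, inv_mul_cancel_left₀ (pow_ne_zero _ ht')]
  have hFd : ∀ n, DifferentiableOn ℂ (F n) good := by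
    intro n t ht
    have ht' : c d t ≠ 0 := ht
    have h1 : Differentiable ℂ fun t => resultant (p t) (q n t) d n :=
      resultant_diff (fun j => pp_coeff_diff hc _ _ j)
        (fun j => pp_coeff_diff (fun k => tc_diff hB k) _ _ j) _ _
    have h2 : DifferentiableAt ℂ (fun t => (c d t ^ n)⁻¹) t :=
      (((hc d) t).pow n).inv (pow_ne_zero _ ht')
    exact (h2.mul (h1 t)).differentiableWithinAt
  have hunif : TendstoLocallyUniformlyOn F
      (fun t => ((p t).roots.map fun x => B (x, t) - v).prod) atTop good := by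
    rw [Metric.tendstoLocallyUniformlyOn_iff]
    intro ε hε t0 ht0
    -- a compact neighbourhood
    obtain ⟨ρ, hρ, hρb⟩ := Metric.isOpen_iff.1 hopen t0 ht0
    have hKcomp := isCompact_closedBall t0 (ρ / 2)
    have hsub : closedBall t0 (ρ / 2) ⊆ good :=
      (closedBall_subset_ball (by linarith)).trans hρb
    -- lower bound for the leading coefficient
    obtain ⟨m, hm, hmb⟩ : ∃ m : ℝ, 0 < m ∧ ∀ t ∈ closedBall t0 (ρ / 2), m ≤ ‖c d t‖ := by
      obtain ⟨s, hs, hmin⟩ := hKcomp.exists_isMinOn ⟨t0, mem_closedBall_self (by positivity)⟩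
        ((hc d).continuous.norm.continuousOn)
      exact ⟨‖c d s‖, norm_pos_iff.2 (hsub hs), fun t ht => hmin ht⟩
    -- upper bounds for the coefficients
    obtain ⟨K, hK0, hKb⟩ : ∃ K : ℝ, 0 ≤ K ∧ ∀ k < d, ∀ t ∈ closedBall t0 (ρ / 2),
        ‖c k t‖ ≤ K := by
      have hcs : Continuous fun t => ∑ k ∈ Finset.range d, ‖c k t‖ :=
        continuous_finsetSum _ fun k _ => (hc k).continuous.norm
      obtain ⟨K, hK⟩ := hKcomp.exists_bound_of_continuousOn hcs.continuousOn
      refine ⟨max K 0, le_max_right _ _, fun k hk t ht => ?_⟩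
      have h1 : ‖c k t‖ ≤ ∑ k ∈ Finset.range d, ‖c k t‖ :=
        Finset.single_le_sum (f := fun k => ‖c k t‖) (fun _ _ => norm_nonneg _)
          (Finset.mem_range.2 hk)
      have h2 := hK t ht
      rw [Real.norm_eq_abs] at h2
      exact h1.trans ((le_abs_self _).trans (h2.trans (le_max_left _ _)))
    set K' : ℝ := K + ‖κ‖ with hK'
    set r : ℝ := 1 + (d + 1) * K' / m with hr
    have hK'0 : 0 ≤ K' := by positivity
    have hrpos : 0 < r := by positivity
    have hroots : ∀ t ∈ closedBall t0 (ρ / 2), ∀ x ∈ (p t).roots, ‖x‖ ≤ r := by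
      intro t ht x hx
      have h1 : (p t).eval x = 0 := (mem_roots'.1 hx).2
      rw [hp, pp_eval] at h1
      exact root_bound hd hm hK'0 (fun k hk => (hKb k hk t ht).trans (by
        rw [hK']; linarith [norm_nonneg κ])) (hmb t ht) (by rw [hK']; linarith)
        (sub_eq_zero.1 h1)
    -- bound for `B`
    obtain ⟨M, hM⟩ := ((isCompact_closedBall (0 : ℂ) (2 * r)).prod hKcomp).exists_bound_of_continuousOn
      hB.cont.continuousOn
    have hM0 : 0 ≤ M := (norm_nonneg _).trans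
      (hM (0, t0) ⟨mem_closedBall_self (by positivity), mem_closedBall_self (by positivity)⟩)
    set L : ℝ := M + ‖v‖ + 2 * M + 1 with hL
    have hL1 : 1 ≤ L := by
      have := norm_nonneg v
      linarith
    have hcard : ∀ t ∈ good, Multiset.card (p t).roots ≤ d := by
      intro t ht
      calc Multiset.card (p t).roots ≤ (p t).natDegree := card_roots' _
        _ = d := pp_natDegree hd κ t ht
    -- choose `n` large
    have hlim : Tendsto (fun n : ℕ => d * L ^ d * (2 * M * (1 / 2 : ℝ) ^ n)) atTop (𝓝 0) := by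
      have h1 : Tendsto (fun n : ℕ => (1 / 2 : ℝ) ^ n) atTop (𝓝 0) :=
        tendsto_pow_atTop_nhds_zero_of_lt_one (by norm_num) (by norm_num)
      have h2 := (h1.const_mul (2 * M)).const_mul (d * L ^ d)
      simpa using h2
    refine ⟨closedBall t0 (ρ / 2), mem_nhdsWithin_of_mem_nhds
      (closedBall_mem_nhds _ (by positivity)), ?_⟩
    filter_upwards [hlim.eventually_lt_const hε] with n hn t ht
    have htg : t ∈ good := hsub ht
    rw [hFeq n t htg, dist_eq_norm]
    have herr : ∀ x ∈ (p t).roots, ‖(B (x, t) - v) - (q n t).eval x‖ ≤ 2 * M * (1 / 2 : ℝ) ^ n := by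
      intro x hx
      have h1 := taylor_error hB hrpos t (M := M) (fun z hz => hM (z, t)
        ⟨by rw [mem_closedBall_zero_iff, hz], ht⟩) x (hroots t ht x hx) n
      have h2 : (B (x, t) - v) - (q n t).eval x
          = -((∑ k ∈ Finset.range n, tc B k t * x ^ k) - B (x, t)) := by
        rw [hq]; simp only; rw [pp_eval]; ring
      rw [h2, norm_neg]
      exact h1
    have hpow1 : (1 / 2 : ℝ) ^ n ≤ 1 := pow_le_one₀ (by norm_num) (by norm_num)
    have hbB : ∀ x ∈ (p t).roots, ‖B (x, t) - v‖ ≤ L := by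
      intro x hx
      have h1 := hM (x, t) ⟨by
        rw [mem_closedBall_zero_iff]; linarith [hroots t ht x hx], ht⟩
      calc ‖B (x, t) - v‖ ≤ ‖B (x, t)‖ + ‖v‖ := norm_sub_le _ _
        _ ≤ L := by rw [hL]; linarith
    have hbq : ∀ x ∈ (p t).roots, ‖(q n t).eval x‖ ≤ L := by
      intro x hx
      have h1 := hM (x, t) ⟨by
        rw [mem_closedBall_zero_iff]; linarith [hroots t ht x hx], ht⟩
      have h2 := herr x hx
      have h3 : (q n t).eval x = (B (x, t) - v) - ((B (x, t) - v) - (q n t).eval x) := by ring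
      rw [h3]
      calc ‖(B (x, t) - v) - ((B (x, t) - v) - (q n t).eval x)‖
          ≤ ‖B (x, t) - v‖ + ‖(B (x, t) - v) - (q n t).eval x‖ := norm_sub_le _ _
        _ ≤ (‖B (x, t)‖ + ‖v‖) + 2 * M * (1 / 2 : ℝ) ^ n := by
            gcongr
            exact norm_sub_le _ _
        _ ≤ (M + ‖v‖) + 2 * M * 1 := by gcongr
        _ ≤ L := by rw [hL]; linarith
    have hpp := (prod_perturb hL1 (by positivity) (p t).roots hbB hbq herr).2
    refine lt_of_le_of_lt (hpp.trans ?_) hn
    have hcd := hcard t htg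
    have hcd' : (Multiset.card (p t).roots : ℝ) ≤ d := by exact_mod_cast hcd
    have hLp : L ^ Multiset.card (p t).roots ≤ L ^ d := pow_le_pow_right₀ hL1 hcd
    gcongr
  exact hunif.differentiableOn (Eventually.of_forall hFd) hopen

end Pool.Agent.Helper86.FB
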