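import Mathlib
import Pool.Agent.Helper86.FBRes
import Pool.Agent.Helper86.FBCore

set_option autoImplicit false

open Complex Metric Set Filter Topology Polynomial

namespace Pool.Agent.Helper86.FB

/-- Algebroid case: if `A(x,t) = ∑_{k ≤ d} c_k(t) x^k` with `d ≥ 1`, `c_d ≢ 0`, and `(A, B)` is
injective, then `B` cannot omit a nonempty open set on a level set of `A`. -/
theorem algebroid_case {c : ℕ → ℂ → ℂ} (hc : ∀ k, Differentiable ℂ (c k)) {d : ℕ} (hd : 1 ≤ d)
    (hcd : ∃ t, c d t ≠ 0) {A B : ℂ × ℂ → ℂ} (hB : Sep B)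
    (hA : ∀ x t, A (x, t) = ∑ k ∈ Finset.range (d + 1), c k t * x ^ k)
    (hinj : Function.Injective fun p => (A p, B p)) (κ : ℂ) {V : Set ℂ} (hV : IsOpen V)
    (hVn : V.Nonempty) (homit : ∀ p, A p = κ → B p ∉ V) : False := by
  set p : ℂ → ℂ[X] := pp c (d + 1) κ with hp
  have hroot : ∀ t, c d t ≠ 0 → ∀ x ∈ (p t).roots, A (x, t) = κ := by
    intro t ht x hx
    have h1 : (p t).eval x = 0 := (mem_roots'.1 hx).2
    rw [hp, pp_eval, ← hA] at h1
    exact sub_eq_zero.1 h1
  have hcard : ∀ t, c d t ≠ 0 → Multiset.card (p t).roots = d := by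
    intro t ht
    rw [← (IsAlgClosed.splits (p t)).natDegree_eq_card_roots, hp, pp_natDegree hd κ t ht]
  -- the products are constant
  have hconst : ∀ v ∈ V, ∀ t t', c d t ≠ 0 → c d t' ≠ 0 →
      ((p t).roots.map fun x => B (x, t) - v).prod
        = ((p t').roots.map fun x => B (x, t') - v).prod := by
    intro v hv t t' ht ht'
    obtain ⟨δ, hδ, hδb⟩ := Metric.isOpen_iff.1 hV v hv
    have hge : ∀ t, c d t ≠ 0 → ∀ x ∈ (p t).roots, δ ≤ ‖B (x, t) - v‖ := by
      intro t ht x hx
      by_contra hcon
      push Not at hcon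
      exact homit _ (hroot t ht x hx) (hδb (by rw [mem_ball, dist_eq_norm]; exact hcon))
    set N : ℂ → ℂ := fun t => ((p t).roots.map fun x => B (x, t) - v).prod with hN
    have hNge : ∀ t, c d t ≠ 0 → δ ^ d ≤ ‖N t‖ := by
      intro t ht
      have h1 : ∀ s : Multiset ℂ, (∀ x ∈ s, δ ≤ ‖B (x, t) - v‖) →
          δ ^ Multiset.card s ≤ ‖(s.map fun x => B (x, t) - v).prod‖ := by
        intro s
        induction s using Multiset.induction_on with
        | empty => intro _; simp
        | cons a s ih =>
          intro hs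
          rw [Multiset.map_cons, Multiset.prod_cons, Multiset.card_cons, norm_mul, pow_succ,
            mul_comm]
          have h2 := hs a (Multiset.mem_cons_self a s)
          have h3 := ih fun x hx => hs x (Multiset.mem_cons_of_mem hx)
          gcongr
      have h4 := h1 (p t).roots (hge t ht)
      rwa [hcard t ht] at h4
    have hNne : ∀ t, c d t ≠ 0 → N t ≠ 0 := by
      intro t ht h0
      have := hNge t ht
      rw [h0, norm_zero] at this
      have : 0 < δ ^ d := by positivity
      linarith
    have hNd := norm_diff hc hd hB κ v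
    have hinvd : DifferentiableOn ℂ (fun t => (N t)⁻¹) {t | c d t ≠ 0} := by
      intro t ht
      exact (hNd t ht).inv (hNne t ht)
    have := const_of_bounded_off_zeros (hc d) hcd hinvd (K := (δ ^ d)⁻¹) (by
      intro t ht
      rw [norm_inv]
      exact inv_anti₀ (by positivity) (hNge t ht)) t t' ht ht'
    exact inv_injective this
  -- hence the multisets of values of `B` are constant
  have hms : ∀ t t', c d t ≠ 0 → c d t' ≠ 0 →
      (p t).roots.map (fun x => B (x, t)) = (p t').roots.map (fun x => B (x, t')) := by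
    intro t t' ht ht'
    have hVinf : V.Infinite := by
      obtain ⟨v, hv⟩ := hVn
      exact infinite_of_mem_nhds v (hV.mem_nhds hv)
    have hpoly : (((p t).roots.map (fun x => B (x, t))).map fun y => X - C y).prod
        = (((p t').roots.map (fun x => B (x, t'))).map fun y => X - C y).prod := by
      apply Polynomial.eq_of_infinite_eval_eq
      refine hVinf.mono fun v hv => ?_
      have hev : ∀ t, c d t ≠ 0 →
          eval v (((p t).roots.map (fun x => B (x, t))).map fun y => X - C y).prod
            = (-1) ^ d * ((p t).roots.map fun x => B (x, t) - v).prod := by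
        intro t ht
        rw [eval_multiset_prod, Multiset.map_map, Multiset.map_map]
        have h1 : (p t).roots.map ((eval v ∘ (fun y => X - C y)) ∘ fun x => B (x, t))
            = (p t).roots.map fun x => (-1) * (B (x, t) - v) := by
          apply Multiset.map_congr rfl
          intro x _
          simp
        rw [h1, Multiset.prod_map_mul, Multiset.map_const', Multiset.prod_replicate,
          hcard t ht]
      show eval v _ = eval v _
      rw [hev t ht, hev t' ht', hconst v hv t t' ht ht']
    have h1 := congrArg Polynomial.roots hpoly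
    rwa [roots_multiset_prod_X_sub_C, roots_multiset_prod_X_sub_C] at h1
  -- pigeonhole
  obtain ⟨t1, ht1⟩ := hcd
  have hgoodinf : {t | c d t ≠ 0}.Infinite := by
    have : IsOpen {t | c d t ≠ 0} := isOpen_ne_fun (hc d).continuous continuous_const
    exact infinite_of_mem_nhds t1 (this.mem_nhds ht1)
  have hex : ∀ t, c d t ≠ 0 → ∃ x, x ∈ (p t).roots := by
    intro t ht
    have : 0 < Multiset.card (p t).roots := by rw [hcard t ht]; omega
    exact Multiset.card_pos_iff_exists_mem.1 this
  choose! ξ hξ using hex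
  have hmaps : MapsTo (fun t => B (ξ t, t)) {t | c d t ≠ 0}
      (((p t1).roots.map (fun x => B (x, t1))).toFinset : Set ℂ) := by
    intro t ht
    rw [Finset.mem_coe, Multiset.mem_toFinset, ← hms t t1 ht ht1]
    exact Multiset.mem_map.2 ⟨ξ t, hξ t ht, rfl⟩
  obtain ⟨s, hs, t, ht, hst, heq⟩ :=
    hgoodinf.exists_ne_map_eq_of_mapsTo hmaps (Finset.finite_toSet _)
  have h1 : ((ξ s, s) : ℂ × ℂ) = (ξ t, t) := by
    apply hinj
    simp only [Prod.mk.injEq]
    exact ⟨by rw [hroot s hs _ (hξ s hs), hroot t ht _ (hξ t ht)], heq⟩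
  exact hst (Prod.ext_iff.1 h1).2

/-- Main theorem in coordinates. -/
theorem countable_lines {A B : ℂ × ℂ → ℂ} (hA : Differentiable ℂ A) (hB : Differentiable ℂ B)
    (hinj : Function.Injective fun p => (A p, B p)) {lam mu : ℂ}
    (hshift : ∀ P Q, A Q = A P + lam → B Q ≠ B P + mu) :
    {t : ℂ | ∃ (K : ℝ) (N : ℕ), ∀ s : ℂ, (A (s, t)).re ≤ K * (1 + ‖s‖ ^ N)}.Countable := by
  by_contra hS
  have hAs := Sep.of_differentiable hA
  have hBs := Sep.of_differentiable hB
  set S := {t : ℂ | ∃ (K : ℝ) (N : ℕ), ∀ s : ℂ, (A (s, t)).re ≤ K * (1 + ‖s‖ ^ N)} with hSdef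
  -- some `S_N` is uncountable
  obtain ⟨N, hN⟩ : ∃ N : ℕ, ¬ {t : ℂ | ∀ k, N < k → tc A k t = 0}.Countable := by
    by_contra hcon
    push Not at hcon
    apply hS
    refine (countable_iUnion hcon).mono ?_
    rintro t ⟨K, N, h⟩
    refine mem_iUnion.2 ⟨N, fun k hk => ?_⟩
    rw [tc, iterate_Dx, iteratedDeriv_eq_zero_of_growth (hAs.dx t) h hk, mul_zero]
  have hzero : ∀ k, N < k → ∀ t, tc A k t = 0 := fun k hk =>
    zero_of_uncountable (tc_diff hAs k) hN fun t ht => ht k hk
  -- slices of `B`
  have hBx := hBs.dx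
  by_cases hex : ∃ k, 1 ≤ k ∧ ∃ t, tc A k t ≠ 0
  · -- maximal such `k`
    classical
    obtain ⟨k0, hk0, hk0t⟩ := hex
    set d := Nat.findGreatest (fun k => ∃ t, tc A k t ≠ 0) N with hd
    have hk0N : k0 ≤ N := by
      by_contra hlt
      push Not at hlt
      obtain ⟨t, ht⟩ := hk0t
      exact ht (hzero k0 hlt t)
    have hd1 : 1 ≤ d := hk0.trans (Nat.le_findGreatest hk0N hk0t)
    have hdt : ∃ t, tc A d t ≠ 0 :=
      Nat.findGreatest_spec (P := fun k => ∃ t, tc A k t ≠ 0) hk0N hk0t
    have hdz : ∀ k, d < k → ∀ t, tc A k t = 0 := by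
      intro k hk t
      by_cases hkN : k ≤ N
      · by_contra hne
        exact Nat.findGreatest_is_greatest hk hkN ⟨t, hne⟩
      · exact hzero k (by omega) t
    have hAeq : ∀ x t, A (x, t) = ∑ k ∈ Finset.range (d + 1), tc A k t * x ^ k := by
      intro x t
      have hsum := Complex.hasSum_taylorSeries_of_entire (hAs.dx t) 0 x
      have hterm : ∀ k : ℕ, (k.factorial : ℂ)⁻¹ • (x - 0) ^ k •
          iteratedDeriv k (fun x => A (x, t)) 0 = tc A k t * x ^ k := by
        intro k
        rw [tc, iterate_Dx, sub_zero, smul_eq_mul, smul_eq_mul]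
        ring
      simp only [hterm] at hsum
      have h2 : HasSum (fun k => tc A k t * x ^ k)
          (∑ k ∈ Finset.range (d + 1), tc A k t * x ^ k) := by
        apply hasSum_sum_of_ne_finset_zero
        intro k hk
        rw [Finset.mem_range] at hk
        rw [hdz k (by omega), zero_mul]
      exact hsum.unique h2
    -- a regular point
    obtain ⟨t0, ht0⟩ := hdt
    obtain ⟨x0, hx0⟩ : ∃ x0, deriv (fun x => A (x, t0)) x0 ≠ 0 := by
      by_contra hcon
      push Not at hcon
      have hconst : ∀ x, A (x, t0) = A (0, t0) := fun x =>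
        is_const_of_deriv_eq_zero (hAs.dx t0) hcon x 0
      have h3 : tc A d t0 = 0 := by
        rw [tc, iterate_Dx]
        have h4 : (fun x => A (x, t0)) = fun _ => A (0, t0) := funext hconst
        rw [h4, iteratedDeriv_const]
        simp; omega
      exact ht0 h3
    obtain ⟨V, hV, hVn, hVw⟩ := open_slice hA hB hinj (x0, t0) hx0
    refine algebroid_case (fun k => tc_diff hAs k) hd1 ⟨t0, ht0⟩ hBs hAeq hinj
      (A (x0, t0) - lam) (V := (fun z => z + mu) ⁻¹' V) (hV.preimage (by fun_prop)) ?_ ?_
    · obtain ⟨v, hv⟩ := hVn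
      exact ⟨v - mu, by simpa using hv⟩
    · intro P hP hmem
      obtain ⟨Q, hQ1, hQ2⟩ := hVw _ hmem
      exact hshift P Q (by rw [hQ1, hP]; ring) hQ2
  · -- `A` does not depend on `x`
    push Not at hex
    have hAx : ∀ x t, A (x, t) = A (0, t) := by
      intro x t
      have hd0 : ∀ k : ℕ, k ≠ 0 → iteratedDeriv k (fun x => A (x, t)) 0 = 0 := by
        intro k hk
        have h1 := hex k (Nat.one_le_iff_ne_zero.2 hk) t
        rw [tc, iterate_Dx] at h1
        have h2 : ((k.factorial : ℂ)⁻¹) ≠ 0 := inv_ne_zero (by exact_mod_cast k.factorial_ne_zero)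
        exact (mul_eq_zero.1 h1).resolve_left h2
      have hsum := Complex.hasSum_taylorSeries_of_entire (hAs.dx t) 0 x
      have h2 := hasSum_single (f := fun k : ℕ => (k.factorial : ℂ)⁻¹ • (x - 0) ^ k •
          iteratedDeriv k (fun x => A (x, t)) 0) 0 (by
        intro k hk
        rw [hd0 k hk]; simp)
      have h3 := hsum.unique h2
      simpa using h3
    have hBne : ∀ t, ∃ s s', B (s, t) ≠ B (s', t) := by
      intro t
      refine ⟨0, 1, fun h => ?_⟩
      have h1 : ((0, t) : ℂ × ℂ) = (1, t) := by
        apply hinj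
        simp only [Prod.mk.injEq]
        exact ⟨(hAx 1 t).symm, h⟩
      simpa using (Prod.ext_iff.1 h1).1
    have hBopen : ∀ t, IsOpen (range fun x => B (x, t)) := fun t =>
      isOpen_range_of_not_const (hBx t) (hBne t)
    -- values of `A(0, ·)` never differ by `lam`
    have hno : ∀ t t', A (0, t') ≠ A (0, t) + lam := by
      intro t t' h
      have hc := const_of_omits (w := fun x => B (x, t) + mu) ((hBx t).add_const _)
        (hBopen t') (range_nonempty _) (by
          rintro x ⟨x', hx'⟩
          exact hshift (x, t) (x', t') (by rw [hAx x', hAx x, h]) hx')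
      obtain ⟨s, s', hss⟩ := hBne t
      exact hss (add_right_cancel (hc s s'))
    -- `A(0, ·)` is injective
    have hAinj : A (0, 0) ≠ A (0, 1) := by
      intro h
      have hc := const_of_omits (w := fun x => B (x, 0)) (hBx 0)
        (hBopen 1) (range_nonempty _) (by
          rintro x ⟨x', hx'⟩
          have h1 : ((x', 1) : ℂ × ℂ) = (x, 0) := by
            apply hinj
            simp only [Prod.mk.injEq]
            exact ⟨by rw [hAx x', hAx x, h], hx'⟩
          simpa using (Prod.ext_iff.1 h1).2)
      obtain ⟨s, s', hss⟩ := hBne 0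
      exact hss (hc s s')
    have hAo : IsOpen (range fun t => A (0, t)) :=
      isOpen_range_of_not_const (hAs.dt 0) ⟨0, 1, hAinj⟩
    have hc := const_of_omits (w := fun t => A (0, t) + lam) ((hAs.dt 0).add_const _) hAo
      (range_nonempty _) (by
        rintro t ⟨t', ht'⟩
        exact hno t t' ht') 0 1
    exact hAinj (add_right_cancel hc)

end Pool.Agent.Helper86.FB
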