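import Mathlib
import Pool.Agent.Helper14.FatouDefs
import Pool.Agent.Helper14.Fatou
import Pool.Agent.Helper86.CollatzInt

set_option autoImplicit false

namespace Pool.Agent.Helper86.MergingRate071

open Pool.Agent.Helper14 (T f₀ fatouComponent IsWanderingDomain IntWandering f₀_iter_intCast
  intWandering_congr)
open Pool.Agent.Helper86.CollatzInt

/-- The orbits of the integers `m` and `n` under `f₀` merge, after the same number of steps. -/
def Merge (m n : ℤ) : Prop := ∃ k : ℕ, f₀^[k] (m : ℂ) = f₀^[k] (n : ℂ)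

/-- The set of integers whose Fatou component is a wandering domain of `f₀`. -/
def W : Set ℤ := {n : ℤ | IsWanderingDomain f₀ (fatouComponent f₀ (n : ℂ))}

theorem merge_of_meet {m n : ℤ} (h : Meet m n) : Merge m n := by
  obtain ⟨k, hk⟩ := h
  exact ⟨k, by rw [f₀_iter_intCast, f₀_iter_intCast, hk]⟩

theorem mem_W_congr {m n : ℤ} (h : Meet m n) : m ∈ W ↔ n ∈ W := by
  obtain ⟨k, hk⟩ := h
  exact intWandering_congr hk


/-- The orbits under `f₀` of the integers `n` and `3 ^ a * n + b` merge, outside a set of integers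
whose density is explicitly bounded; and then the component of `n` is wandering exactly when the
component of `3 ^ a * n + b` is. -/
theorem result : ∃ C : ℝ, 0 < C ∧ ∀ (N a : ℕ) (b : ℤ), 2 ≤ N →
    (Set.ncard {n : ℤ | |n| ≤ N ∧
        ¬ (Merge n (3 ^ a * n + b) ∧ (n ∈ W ↔ 3 ^ a * n + b ∈ W))} : ℝ) ≤
      C * N * Real.sqrt ((1 + (a : ℝ) ^ 2 + Real.log (1 + |(b : ℝ)|)) / Real.log N) := by
  obtain ⟨C, hC, h⟩ := meet_rate
  refine ⟨C, hC, fun N a b hN => ?_⟩
  refine le_trans ?_ (h N a b hN)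
  have h1 : Set.ncard {n : ℤ | |n| ≤ N ∧
        ¬ (Merge n (3 ^ a * n + b) ∧ (n ∈ W ↔ 3 ^ a * n + b ∈ W))} ≤
      Set.ncard {n : ℤ | |n| ≤ N ∧ ¬ Meet n (3 ^ a * n + b)} := by
    apply Set.ncard_le_ncard _ (finite_abs_le N _)
    rintro n ⟨hn, hm⟩
    exact ⟨hn, fun h => hm ⟨merge_of_meet h, mem_W_congr h⟩⟩
  exact_mod_cast h1

end Pool.Agent.Helper86.MergingRate071
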